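import Pool.Agent.ShghT.SemiB

/-!
# Semicontinuity from characteristic `0` to characteristic `p`
-/

namespace ShghV

open MvPolynomial ShghE ShghT

theorem finrank_LS_le_aux {K K' B : Type*} [Field K] [Field K'] [CommRing B] {s : ℕ}
    (P : Fin s → Fin 2 → K)
    (hP : AlgebraicIndependent (⊥ : Subfield K) (fun ij : Fin s × Fin 2 => P ij.1 ij.2))
    (P' : Fin s → Fin 2 → K') (ι : B →+* (⊥ : Subfield K)) (hι : Function.Injective ι)
    (ι' : B →+* K') (δ : ℕ) (μ : Fin s → ℕ) :
    Module.finrank K (LS δ μ P) ≤ Module.finrank K' (LS δ μ P') := by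
  let M : Matrix (ShghE.tfRow μ) (ShghE.tfS δ) (MvPolynomial (Fin s × Fin 2) B) :=
    fun r e => ShghE.tfM (X (r.1, 0)) (X (r.1, 1)) e r.2
  let θ : MvPolynomial (Fin s × Fin 2) B →+* K :=
    (aeval (fun ij : Fin s × Fin 2 => P ij.1 ij.2) :
      MvPolynomial (Fin s × Fin 2) (⊥ : Subfield K) →ₐ[(⊥ : Subfield K)] K).toRingHom.comp
      (MvPolynomial.map ι)
  let θ' : MvPolynomial (Fin s × Fin 2) B →+* K' :=
    eval₂Hom ι' (fun ij : Fin s × Fin 2 => P' ij.1 ij.2)
  have hθ : Function.Injective θ := by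
    have h1 : Function.Injective (MvPolynomial.map (σ := Fin s × Fin 2) ι) :=
      MvPolynomial.map_injective ι hι
    have h2 : Function.Injective (aeval (fun ij : Fin s × Fin 2 => P ij.1 ij.2) :
      MvPolynomial (Fin s × Fin 2) (⊥ : Subfield K) →ₐ[(⊥ : Subfield K)] K) := hP
    exact h2.comp h1
  have hθX : ∀ ij : Fin s × Fin 2, θ (X ij) = P ij.1 ij.2 := by
    intro ij
    show (aeval (fun ij : Fin s × Fin 2 => P ij.1 ij.2) :
      MvPolynomial (Fin s × Fin 2) (⊥ : Subfield K) →ₐ[(⊥ : Subfield K)] K)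
      (MvPolynomial.map ι (X ij)) = _
    rw [map_X, aeval_X]
  have hθX' : ∀ ij : Fin s × Fin 2, θ' (X ij) = P' ij.1 ij.2 := by
    intro ij
    show eval₂Hom ι' (fun ij : Fin s × Fin 2 => P' ij.1 ij.2) (X ij) = _
    rw [eval₂Hom_X']
  have h1 := semib_finrank δ μ P
  have h2 := semib_finrank δ μ P'
  have key := semib_rank_le M θ hθ θ'
  have e1 : M.map θ = semibMat δ μ P := by
    ext r e
    change θ (ShghE.tfM (X (r.1, 0)) (X (r.1, 1)) e r.2) = _
    rw [← ShghE.tfM_map, hθX, hθX]
    rfl
  have e2 : M.map θ' = semibMat δ μ P' := by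
    ext r e
    change θ' (ShghE.tfM (X (r.1, 0)) (X (r.1, 1)) e r.2) = _
    rw [← ShghE.tfM_map, hθX', hθX']
    rfl
  rw [e1, e2] at key
  omega

/-- The points `P` are generic over the prime field of `K`, and `K` has characteristic zero or the same characteristic as
`K'`. Then the dimension of a linear system does not drop if `P` is replaced by any points `P'` over `K'`.
Proof: `semib_finrank` and `semib_rank_le` with `A = MvPolynomial (Fin s × Fin 2) ℤ` if `K` has characteristic zero
(`θ = aeval P` is injective: algebraic independence over the prime field `⊥ ⊇ ℤ`,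
`AlgebraicIndependent.restrictScalars` or `MvPolynomial.map_injective` of `ℤ → ⊥`), and with
`A = MvPolynomial (Fin s × Fin 2) (ZMod p)` if both have characteristic `p` (`ZMod p → ⊥` is injective); `θ' = aeval P'`. The matrix is
`fun r e => tfM (X (r.1, 0)) (X (r.1, 1)) e r.2`, `tfM_map`; see the proof of `ShghT.finrank_LS_le`. -/
theorem finrank_LS_le_char {K K' : Type*} [Field K] [Field K'] {s : ℕ} (P : Fin s → Fin 2 → K)
    (hP : AlgebraicIndependent (⊥ : Subfield K) (fun ij : Fin s × Fin 2 => P ij.1 ij.2))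
    (P' : Fin s → Fin 2 → K') (hchar : ringChar K = 0 ∨ ringChar K = ringChar K') (δ : ℕ)
    (μ : Fin s → ℕ) :
    Module.finrank K (LS δ μ P) ≤ Module.finrank K' (LS δ μ P') := by
  by_cases h0 : ringChar K = 0
  · have hc : CharP K 0 := ringChar.of_eq h0
    have hz : CharZero K := CharP.charP_to_charZero K
    refine finrank_LS_le_aux P hP P' (Int.castRingHom (⊥ : Subfield K)) ?_
      (Int.castRingHom K') δ μ
    intro a b hab
    have h1 := congrArg (fun x : (⊥ : Subfield K) => (x : K)) hab
    simpa using h1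
  · have h1 : ringChar K = ringChar K' := hchar.resolve_left h0
    obtain ⟨p, hp⟩ : ∃ p, p = ringChar K := ⟨_, rfl⟩
    have hc : CharP K p := ringChar.of_eq hp.symm
    have hc' : CharP K' p := ringChar.of_eq (h1.symm.trans hp.symm)
    have hpp : p.Prime := (CharP.char_is_prime_or_zero K p).resolve_right (by omega)
    have : Fact p.Prime := ⟨hpp⟩
    have hcb : CharP (⊥ : Subfield K) p :=
      RingHom.charP (Subfield.subtype (⊥ : Subfield K)) Subtype.val_injective p
    exact finrank_LS_le_aux P hP P' (ZMod.castHom dvd_rfl (⊥ : Subfield K))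
      (RingHom.injective _) (ZMod.castHom dvd_rfl K') δ μ

end ShghV
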