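import Pool.Agent.ShghV.RamP
import Pool.Agent.ShghV.CharZ

/-!
# Vanishing for generic points
-/

namespace ShghV

open MvPolynomial ShghE ShghR ShghT

/-- Generic points exist over an algebraically closed field `L : Type` of a given characteristic `p`:
`L = AlgebraicClosure (FractionRing (MvPolynomial (Fin s × Fin 2) (ZMod p)))`, the points are the variables. They are
algebraically independent over `ZMod p`, so over the prime field `⊥` (the image of `ZMod p`:
`⊥` is the range of the algebra map because the range is a subfield). -/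
theorem exists_generic (p : ℕ) [Fact p.Prime] (s : ℕ) :
    ∃ (L : Type) (_ : Field L) (_ : IsAlgClosed L) (_ : CharP L p) (Q : Fin s → Fin 2 → L),
      AlgebraicIndependent (⊥ : Subfield L) (fun ij : Fin s × Fin 2 => Q ij.1 ij.2) := by
  let R := MvPolynomial (Fin s × Fin 2) (ZMod p)
  let L := AlgebraicClosure (FractionRing R)
  let g : R →+* L := (algebraMap (FractionRing R) L).comp (algebraMap R (FractionRing R))
  have hg : Function.Injective g :=
    (algebraMap (FractionRing R) L).injective.comp (IsFractionRing.injective R (FractionRing R))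
  let f : ZMod p →+* L := g.comp C
  have hf : Function.Injective f := hg.comp (C_injective _ _)
  have hc : CharP L p := charP_of_injective_ringHom hf p
  refine ⟨L, inferInstance, inferInstance, hc, fun i j => g (X (i, j)), ?_⟩
  have hcb : CharP (⊥ : Subfield L) p :=
    RingHom.charP (Subfield.subtype (⊥ : Subfield L)) Subtype.val_injective p
  let ι : ZMod p →+* (⊥ : Subfield L) := ZMod.castHom dvd_rfl (⊥ : Subfield L)
  have hιf : (Subfield.subtype (⊥ : Subfield L)).comp ι = f := RingHom.ext_zmod _ _
  have hι : Function.Surjective ι := by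
    rintro ⟨x, hx⟩
    have h1 : x ∈ f.fieldRange := (bot_le : (⊥ : Subfield L) ≤ f.fieldRange) hx
    obtain ⟨z, hz⟩ := RingHom.mem_fieldRange.1 h1
    refine ⟨z, Subtype.ext ?_⟩
    have h2 := congrArg (fun F : ZMod p →+* L => F z) hιf
    exact h2.trans hz
  show Function.Injective _
  rw [injective_iff_map_eq_zero]
  intro F hF
  obtain ⟨G, rfl⟩ := MvPolynomial.map_surjective (σ := Fin s × Fin 2) ι hι F
  have h3 : (aeval (fun ij : Fin s × Fin 2 => g (X (ij.1, ij.2))) :
      MvPolynomial (Fin s × Fin 2) (⊥ : Subfield L) →ₐ[(⊥ : Subfield L)] L).toRingHom.comp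
      (MvPolynomial.map ι) = g := by
    refine MvPolynomial.ringHom_ext (fun r => ?_) fun ij => ?_
    · show (aeval (fun ij : Fin s × Fin 2 => g (X (ij.1, ij.2))) :
        MvPolynomial (Fin s × Fin 2) (⊥ : Subfield L) →ₐ[(⊥ : Subfield L)] L)
        (MvPolynomial.map ι (C r)) = g (C r)
      rw [map_C, aeval_C]
      exact congrArg (fun F : ZMod p →+* L => F r) hιf
    · show (aeval (fun ij : Fin s × Fin 2 => g (X (ij.1, ij.2))) :
        MvPolynomial (Fin s × Fin 2) (⊥ : Subfield L) →ₐ[(⊥ : Subfield L)] L)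
        (MvPolynomial.map ι (X ij)) = g (X ij)
      rw [map_X, aeval_X]
  have h4 : g G = 0 := by
    rw [← h3]
    exact hF
  have h5 : G = 0 := hg (by rw [h4, map_zero])
  rw [h5, map_zero]

/-- Generic points are different. -/
theorem generic_injective {K : Type*} [Field K] {s : ℕ} (P : Fin s → Fin 2 → K)
    (hP : AlgebraicIndependent (⊥ : Subfield K) (fun ij : Fin s × Fin 2 => P ij.1 ij.2)) :
    Function.Injective P := by
  intro i j hij
  have h1 : (i, (0 : Fin 2)) = (j, 0) := hP.injective (by
    show P i 0 = P j 0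
    rw [hij])
  exact congrArg Prod.fst h1

/-- **Vanishing for generic points.** Suppose that `N = (c + 3; μ_i + 1)`, `N² > 0`, is nef for generic points over every
algebraically closed field (of type `Type`) of characteristic `≠ 2`. Then for generic points over any field `k` of
characteristic `≠ 2` the linear system `(c; μ) = K + N` has the expected dimension `χ ≥ 0`.
Proof. Let `p = char k` if this is positive and `p = 3` otherwise; `L, Q` from `exists_generic p s`, `(2 : L) ≠ 0`.
`ram_p` gives the dimension for `Q`, `finrank_LS_le_char` the upper bound for `P` and `le_finrank_LS` the lower bound. -/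
theorem ram_generic {s : ℕ} (c : ℕ) (μ : Fin s → ℕ) (hbig : ∑ i, (μ i + 1) ^ 2 < (c + 3) ^ 2)
    (hnef : ∀ (L : Type) [Field L] [IsAlgClosed L], (2 : L) ≠ 0 → ∀ Q : Fin s → Fin 2 → L,
      AlgebraicIndependent (⊥ : Subfield L) (fun ij : Fin s × Fin 2 => Q ij.1 ij.2) →
      ∀ (f : MvPolynomial (Fin 2) L) (δ : ℕ) (ν : Fin s → ℕ), f ≠ 0 → f.totalDegree ≤ δ →
      (∀ i, f ∈ ptIdeal (Q i 0) (Q i 1) ^ ν i) → ∑ i, (μ i + 1) * ν i ≤ (c + 3) * δ)
    {k : Type*} [Field k] (h2 : (2 : k) ≠ 0) (P : Fin s → Fin 2 → k)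
    (hP : AlgebraicIndependent (⊥ : Subfield k) (fun ij : Fin s × Fin 2 => P ij.1 ij.2)) :
    Module.finrank k (LS c μ P) + ∑ i, (μ i + 1).choose 2 = (c + 2).choose 2 := by
  obtain ⟨p, hpp, hp2, hpk⟩ : ∃ p : ℕ, p.Prime ∧ p ≠ 2 ∧ (ringChar k = 0 ∨ ringChar k = p) := by
    by_cases h0 : ringChar k = 0
    · exact ⟨3, Nat.prime_three, by norm_num, Or.inl h0⟩
    · refine ⟨ringChar k, ?_, ?_, Or.inr rfl⟩
      · exact (CharP.char_is_prime_or_zero k (ringChar k)).resolve_right h0
      · intro h3
        apply h2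
        have h4 := ringChar.spec k 2
        rw [h3] at h4
        exact_mod_cast h4.2 dvd_rfl
  have : Fact p.Prime := ⟨hpp⟩
  obtain ⟨L, hL1, hL2, hL3, Q, hQ⟩ := exists_generic p s
  have h2L : (2 : L) ≠ 0 := by
    intro h0
    have h1 : ((2 : ℕ) : L) = 0 := by exact_mod_cast h0
    rw [CharP.cast_eq_zero_iff L p] at h1
    exact hp2 ((Nat.prime_dvd_prime_iff_eq hpp Nat.prime_two).1 h1)
  have h3 := ram_p p Q (generic_injective Q hQ) c μ (hnef L h2L Q hQ) hbig
  have h4 := finrank_LS_le_char P hP Q (by
    rcases hpk with h | h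
    · exact Or.inl h
    · exact Or.inr (h.trans (ringChar.eq L p).symm)) c μ
  have h5 := le_finrank_LS c μ P
  omega

end ShghV
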