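import Pool.Agent.ShghV.Beta

/-!
# Restriction to lines
-/

namespace ShghV

open Polynomial

variable {k : Type*} [Field k]

/-- Restriction to the line `y = b + c (x - a)`: `p(a + T, b + c T) = Σ_n (beta p)_n(c) T ^ n`. Proof: both sides are
ring homomorphisms in `p` (`mapRingHom`, `evalRingHom`, `compRingHom`), compare on constants, `x` and `y`
(`Polynomial.ringHom_ext`). -/
theorem beta_line (a b c : k) (p : k[X][X]) :
    (beta a b p).map (evalRingHom c) = (p.eval (C b + C c * (X - C a))).comp (X + C a) := by
  have h : (mapRingHom (evalRingHom c)).comp (beta a b) =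
      (compRingHom (X + C a)).comp (evalRingHom (C b + C c * (X - C a))) := by
    refine ringHom_ext' (ringHom_ext' ?_ ?_) ?_
    · ext r
      simp [beta]
    · simp [beta]
      ring
    · simp [beta]
  exact congrArg (fun F : k[X][X] →+* k[X] => F p) h

/-- The intersection multiplicity at `(a, b)` with a line which is not a tangent. Proof: `beta_line`,
`mem_pI_pow_iff`; `r.comp (X + C a)` is divisible by `X ^ n` iff `r` is divisible by `(X - C a) ^ n`
(`le_rootMultiplicity_iff`, `Polynomial.rootMultiplicity_eq_natTrailingDegree`). -/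
theorem line_mult (a b c : k) (μ : ℕ) (f : k[X][X]) (hf : f ∈ pI a b ^ μ)
    (hc : ((beta a b f).coeff μ).eval c ≠ 0) :
    (f.eval (C b + C c * (X - C a))).rootMultiplicity a = μ := by
  rw [rootMultiplicity_eq_rootMultiplicity, ← beta_line, rootMultiplicity_eq_natTrailingDegree']
  have hcoeff : ∀ n, ((beta a b f).map (evalRingHom c)).coeff n = ((beta a b f).coeff n).eval c := by
    intro n
    rw [coeff_map]
    rfl
  have h1 : ((beta a b f).map (evalRingHom c)).coeff μ ≠ 0 := by
    rw [hcoeff]
    exact hc
  refine le_antisymm (natTrailingDegree_le_of_ne_zero h1) (le_natTrailingDegree ?_ ?_)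
  · intro h0
    rw [h0, coeff_zero] at h1
    exact h1 rfl
  · intro m hm
    rw [hcoeff, (mem_pI_pow_iff a b μ f).1 hf m hm, eval_zero]

end ShghV
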