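import Pool.Agent.ShghV.NormA

/-!
# The order of the norm from powers
-/

namespace ShghV

open Polynomial

variable {k : Type*} [Field k]

/-- If `w ^ t s ∈ (g ^ t, f)` for all `t`, with `g = (x - x0) ^ a`, `0 ≠ s ∈ k[x]`, then
`a * natDegree f ≤ rootMultiplicity x0 (norm w)` (`norm w ≠ 0`). Proof: `norm (w ^ t s) = norm (g ^ t z)`
(`Nf_congr`), that is `(norm w) ^ t * s ^ δ = g ^ (t δ) * norm z` (`Nf_mul`, `Nf_pow`, `Nf_C`), so
`t * ord (norm w) + δ * ord s ≥ t a δ` for all `t` (root multiplicities at `x0`); take `t = δ * ord s + 1`. -/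
theorem ord_of_powers (f : k[X][X]) (hf : f.Monic) (x0 : k) (a : ℕ) (w : k[X][X]) (hw : Nf f w ≠ 0)
    (s : k[X]) (hs : s ≠ 0)
    (h : ∀ t : ℕ, ∃ z u, w ^ t * C s = C (((X - C x0) ^ a) ^ t) * z + f * u) :
    a * f.natDegree ≤ (Nf f w).rootMultiplicity x0 := by
  have hs' : s ^ f.natDegree ≠ 0 := pow_ne_zero _ hs
  have key : ∀ t : ℕ, a * t * f.natDegree ≤
      t * (Nf f w).rootMultiplicity x0 + (s ^ f.natDegree).rootMultiplicity x0 := by
    intro t
    obtain ⟨z, u, hzu⟩ := h t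
    have h1 : Nf f (w ^ t * C s) = Nf f (C (((X - C x0) ^ a) ^ t) * z) :=
      Nf_congr f _ _ ⟨u, by rw [hzu]; ring⟩
    rw [Nf_mul, Nf_pow, Nf_C f hf, Nf_mul, Nf_C f hf] at h1
    have h2 : Nf f w ^ t * s ^ f.natDegree ≠ 0 := mul_ne_zero (pow_ne_zero _ hw) hs'
    have h3 : (X - C x0) ^ (a * t * f.natDegree) ∣ Nf f w ^ t * s ^ f.natDegree := by
      rw [h1, pow_mul, pow_mul]
      exact Dvd.intro _ rfl
    have h4 := (le_rootMultiplicity_iff h2).2 h3
    have h7 : (Nf f w ^ t).rootMultiplicity x0 = t * (Nf f w).rootMultiplicity x0 := by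
      classical
      rw [← count_roots, roots_pow, Multiset.count_nsmul, count_roots]
    rwa [rootMultiplicity_mul h2, h7] at h4
  have h5 := key ((s ^ f.natDegree).rootMultiplicity x0 + 1)
  set t := (s ^ f.natDegree).rootMultiplicity x0 with ht
  by_contra hlt
  rw [not_le] at hlt
  have h6 : (t + 1) * ((Nf f w).rootMultiplicity x0 + 1) ≤ (t + 1) * (a * f.natDegree) :=
    Nat.mul_le_mul_left _ hlt
  nlinarith [h5, h6]

end ShghV
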