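import Pool.Agent.ShghV.Loc
import Pool.Agent.ShghV.LocB
import Pool.Agent.ShghV.BetaB

/-!
# The order of the norm at one point
-/

namespace ShghV

open Polynomial

variable {k : Type*} [Field k]

theorem LocN_const (x0 y0 : k) (f : k[X][X]) :
    f - C (C ((f.eval (C y0)).eval x0)) ∈ pI x0 y0 := by
  have h1 : (X - C (C y0) : k[X][X]) ∣ f - C (f.eval (C y0)) := X_sub_C_dvd_sub_C_eval
  have h2 : (X - C x0 : k[X]) ∣ f.eval (C y0) - C ((f.eval (C y0)).eval x0) :=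
    X_sub_C_dvd_sub_C_eval
  obtain ⟨r, hr⟩ := h1
  obtain ⟨q, hq⟩ := h2
  have h3 : f - C (C ((f.eval (C y0)).eval x0)) = r * (X - C (C y0)) + C q * C (X - C x0) := by
    rw [← C_mul, mul_comm q, ← hq, C_sub]
    linear_combination hr
  rw [h3]
  exact Ideal.add_mem _ (Ideal.mul_mem_left _ _ (Ideal.subset_span (Or.inr rfl)))
    (Ideal.mul_mem_left _ _ (Ideal.subset_span (Or.inl rfl)))

/-- The case `μ = 0`. -/
theorem LocN_zero (f : k[X][X]) (hf : f.Monic) (hirr : Irreducible f)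
    (x0 y0 : k) (a : ℕ) (hμ' : f ∉ pI x0 y0) (v : k[X][X])
    (hv : ∀ h ∈ pI x0 y0 ^ a, ∃ z t, v * h = C ((X - C x0) ^ a) * z + f * t) (hfv : ¬ f ∣ v) :
    a * f.natDegree ≤ (Nf f v).rootMultiplicity x0 := by
  have h1 : Ideal.span {f} ⊔ pI x0 y0 = ⊤ := by
    rw [Ideal.eq_top_iff_one]
    set c := (f.eval (C y0)).eval x0 with hc
    have h2 : f - C (C c) ∈ pI x0 y0 := LocN_const x0 y0 f
    have h3 : c ≠ 0 := by
      intro h
      rw [h, C_0, C_0, sub_zero] at h2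
      exact hμ' h2
    have h4 : (C (C c⁻¹) : k[X][X]) * C (C c) = 1 := by
      rw [← C_mul, ← C_mul, inv_mul_cancel₀ h3, C_1, C_1]
    have h5 : (1 : k[X][X]) = C (C c⁻¹) * f - C (C c⁻¹) * (f - C (C c)) := by
      rw [mul_sub, h4]
      ring
    rw [h5]
    exact Ideal.sub_mem _
      (Ideal.mem_sup_left (Ideal.mul_mem_left _ _ (Ideal.mem_span_singleton_self f)))
      (Ideal.mem_sup_right (Ideal.mul_mem_left _ _ h2))
  have h2 : Ideal.span {f} ⊔ pI x0 y0 ^ a = ⊤ := Ideal.sup_pow_eq_top h1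
  have h3 : (1 : k[X][X]) ∈ Ideal.span {f} ⊔ pI x0 y0 ^ a := by
    rw [h2]
    trivial
  obtain ⟨g', hg', h, hh, h4⟩ := Submodule.mem_sup.1 h3
  obtain ⟨g, rfl⟩ := Ideal.mem_span_singleton.1 hg'
  obtain ⟨z, t, hz⟩ := hv h hh
  have h5 : Nf f v = Nf f (C ((X - C x0) ^ a) * z) := by
    refine Nf_congr f _ _ ⟨t + g * v, ?_⟩
    linear_combination hz - v * h4
  rw [Nf_mul, Nf_C f hf, ← pow_mul] at h5
  rw [le_rootMultiplicity_iff (Nf_ne_zero f hf hirr v hfv), h5]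
  exact Dvd.intro _ rfl

/-- **The order of the norm.** If `v I ^ a ⊂ ((x - x0) ^ a, f)` then the norm of `v` vanishes at `x0` to order at least
`a δ - (a + 1 - μ)⁺ μ`, where `μ` is the exact multiplicity of `f` at `(x0, y0)` (`μ = 0` allowed).

Proof. `a = 0` is trivial. If `μ = 0` then `f ∉ I`, so `(f) + I ^ a = 1` (`I` is maximal; or: `f = unit constant + element of I`,
geometric series), `1 = h + f g` with `h ∈ I ^ a`, and `v = v h + f (g v) ∈ ((x - x0) ^ a, f)`, so `Nf f v` is divisible by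
`(x - x0) ^ (a δ)` (`Nf_congr`, `Nf_mul`, `Nf_C`).
If `μ ≥ 1`: let `b = a + 1 - μ` (natural subtraction), choose `c` with `φ(c) ≠ 0` (`k` infinite),
`l = (y - y0) - c (x - x0)`, `w = v l ^ b`. By `loc_stable` and induction on `t`: for every `e ∈ I ^ (μ - 1)`, `w ^ t e ∈
(x - x0) ^ (a t) I ^ (μ - 1) + (f)`; take `e = C ((X - C x0) ^ (μ - 1))`. `ord_of_powers` gives
`a δ ≤ ord (norm w) = ord (norm v) + b * ord (norm l)` (`norm w ≠ 0` since `f ∤ v`, `f ∤ l`: if `f ∣ l` then `δ = 1`,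
and `f = l` up to a unit — in this case `f = l` has the multiplicity `μ = 1`, `φ = Y - c`, contradicting `φ(c) ≠ 0`; or: use
`Nf_linear` directly: `norm l = ± f(x, y0 + c (x - x0)) ≠ 0` because its root multiplicity is computed by `line_mult` from the
nonzero coefficient), and `ord (norm l) = μ` (`Nf_linear`, `line_mult`). -/
theorem locN [Infinite k] (f : k[X][X]) (hf : f.Monic) (hirr : Irreducible f) (hδ : 1 ≤ f.natDegree)
    (x0 y0 : k) (μ a : ℕ) (hμ : f ∈ pI x0 y0 ^ μ) (hμ' : f ∉ pI x0 y0 ^ (μ + 1)) (v : k[X][X])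
    (hv : ∀ h ∈ pI x0 y0 ^ a, ∃ z t, v * h = C ((X - C x0) ^ a) * z + f * t) (hfv : ¬ f ∣ v) :
    a * f.natDegree ≤ (Nf f v).rootMultiplicity x0 + (a + 1 - μ) * μ := by
  rcases Nat.eq_zero_or_pos μ with hμ0 | hμ1
  · subst hμ0
    rw [zero_add] at hμ'
    rw [mul_zero, add_zero]
    refine LocN_zero f hf hirr x0 y0 a (fun h => hμ' ?_) v hv hfv
    exact (pow_one (pI x0 y0)).symm ▸ h
  obtain ⟨c, hc⟩ := (Loc_infinite _ (Loc_phi_ne x0 y0 μ f hμ hμ')).nonempty
  have hc : ((beta x0 y0 f).coeff μ).eval c ≠ 0 := hc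
  set b := a + 1 - μ with hb
  set l : k[X][X] := X - C (C y0 + C c * (X - C x0)) with hl
  have hstab := loc_stable f hf hirr hδ x0 y0 μ a b hμ1 (by omega) hμ hμ' v hv c hc
  have hpow : ∀ t : ℕ, ∀ e ∈ pI x0 y0 ^ (μ - 1), ∃ z ∈ pI x0 y0 ^ (μ - 1), ∃ u,
      (v * l ^ b) ^ t * e = C (((X - C x0) ^ a) ^ t) * z + f * u := by
    intro t
    induction t with
    | zero =>
      intro e he
      exact ⟨e, he, 0, by simp⟩
    | succ t ih =>
      intro e he
      obtain ⟨z, hz, u, h1⟩ := ih e he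
      obtain ⟨z', hz', u', h2⟩ := hstab z hz
      refine ⟨z', hz', C (((X - C x0) ^ a) ^ t) * u' + v * l ^ b * u, ?_⟩
      have h3 : (C (((X - C x0) ^ a) ^ (t + 1)) : k[X][X]) =
          C (((X - C x0) ^ a) ^ t) * C ((X - C x0) ^ a) := by
        rw [← C_mul, pow_succ]
      rw [h3, pow_succ]
      linear_combination (v * l ^ b) * h1 + C (((X - C x0) ^ a) ^ t) * h2
  have hline : (f.eval (C y0 + C c * (X - C x0))).rootMultiplicity x0 = μ :=
    line_mult x0 y0 c μ f hμ hc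
  have hne : f.eval (C y0 + C c * (X - C x0)) ≠ 0 := by
    intro h
    rw [h, rootMultiplicity_zero] at hline
    omega
  have hNl : Nf f l = C ((-1) ^ f.natDegree) * f.eval (C y0 + C c * (X - C x0)) := by
    rw [hl, Nf_linear f hf hirr, C_pow, C_neg, C_1]
  have hCne : (C ((-1) ^ f.natDegree) : k[X]) ≠ 0 := by
    rw [Ne, C_eq_zero]
    exact pow_ne_zero _ (neg_ne_zero.2 one_ne_zero)
  have hNl0 : Nf f l ≠ 0 := by
    rw [hNl]
    exact mul_ne_zero hCne hne
  have hNv := Nf_ne_zero f hf hirr v hfv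
  have hNw : Nf f (v * l ^ b) = Nf f v * Nf f l ^ b := by rw [Nf_mul, Nf_pow]
  have hNw0 : Nf f (v * l ^ b) ≠ 0 := by
    rw [hNw]
    exact mul_ne_zero hNv (pow_ne_zero _ hNl0)
  have hml : (Nf f l).rootMultiplicity x0 = μ := by
    rw [hNl, rootMultiplicity_mul (mul_ne_zero hCne hne), rootMultiplicity_C, hline, zero_add]
  have hpowm : ∀ n : ℕ, (Nf f l ^ n).rootMultiplicity x0 = n * μ := by
    intro n
    induction n with
    | zero => rw [pow_zero, zero_mul, ← C_1, rootMultiplicity_C]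
    | succ n ih =>
      rw [pow_succ, rootMultiplicity_mul (mul_ne_zero (pow_ne_zero _ hNl0) hNl0), ih, hml]
      ring
  have hmain := ord_of_powers f hf x0 a (v * l ^ b) hNw0 ((X - C x0) ^ (μ - 1))
    (pow_ne_zero _ (X_sub_C_ne_zero x0)) (fun t => by
      have he : (C ((X - C x0) ^ (μ - 1)) : k[X][X]) ∈ pI x0 y0 ^ (μ - 1) := by
        rw [C_pow]
        have hx : (C (X - C x0) : k[X][X]) ∈ pI x0 y0 := Ideal.subset_span (Or.inl rfl)
        exact Ideal.pow_mem_pow hx _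
      obtain ⟨z, -, u, h⟩ := hpow t _ he
      exact ⟨z, u, h⟩)
  rwa [hNw, rootMultiplicity_mul (by rwa [hNw] at hNw0), hpowm] at hmain

end ShghV
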