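import Pool.Agent.ShghV.Td

/-!
# The degree of the norm
-/

namespace ShghV

open Polynomial

variable {k : Type*} [Field k]

/-- A determinant with a weighted degree bound: if `M i j = 0` or `deg (M i j) ≤ n + j - i` then
`deg (det M) ≤ n * m` (`m × m` matrix). Proof: `Matrix.det_apply`; every product `∏ M (σ i) i` is zero or all its
factors are nonzero and its degree is `Σ deg (M (σ i) i) ≤ Σ (n + i - σ i) = n m` (`natDegree_prod_le`, or
`natDegree_prod`, `Equiv.sum_comp`). -/
theorem det_natDegree_le (m n : ℕ) (M : Matrix (Fin m) (Fin m) k[X])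
    (h : ∀ i j, M i j ≠ 0 → ((M i j).natDegree : ℤ) + i ≤ n + j) :
    (M.det).natDegree ≤ m * n := by
  rw [Matrix.det_apply]
  refine natDegree_sum_le_of_forall_le _ _ fun σ _ => ?_
  have key : (∏ i, M (σ i) i).natDegree ≤ m * n := by
    by_cases h0 : ∃ i, M (σ i) i = 0
    · obtain ⟨i, hi⟩ := h0
      have h1 : ∏ i, M (σ i) i = 0 := Finset.prod_eq_zero (Finset.mem_univ i) hi
      exact le_of_eq_of_le (congrArg natDegree h1) (by rw [natDegree_zero]; exact Nat.zero_le _)
    · push Not at h0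
      refine le_trans (natDegree_prod_le _ _) ?_
      have h1 : ∑ i, (((M (σ i) i).natDegree : ℤ) + (σ i : ℕ)) ≤ ∑ i : Fin m, ((n : ℤ) + (i : ℕ)) :=
        Finset.sum_le_sum fun i _ => h _ _ (h0 i)
      rw [Finset.sum_add_distrib, Finset.sum_add_distrib,
        Equiv.sum_comp σ (fun i : Fin m => ((i : ℕ) : ℤ))] at h1
      simp only [Finset.sum_const, Finset.card_univ, Fintype.card_fin, nsmul_eq_mul] at h1
      have h2 : ((∑ i, (M (σ i) i).natDegree : ℕ) : ℤ) ≤ ((m * n : ℕ) : ℤ) := by
        push_cast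
        linarith
      exact_mod_cast h2
  rcases Int.units_eq_one_or (Equiv.Perm.sign σ) with hs | hs
  · rw [hs, one_smul]
    exact key
  · rw [hs, Units.neg_smul, one_smul, natDegree_neg]
    exact key

/-- The norm of a polynomial of total degree `≤ n` modulo a monic `f` of total degree `natDegree f` has degree
`≤ natDegree f * n`. Proof: `Algebra.norm_eq_matrix_det` with the basis `(AdjoinRoot.powerBasis' hf).basis`, `y ^ j`. The
entry `(i, j)` of the matrix of multiplication by `v` is the coefficient of `y ^ i` of `(v * y ^ j) %ₘ f`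
(`Algebra.leftMulMatrix_eq_repr_mul`, `AdjoinRoot.powerBasisAux'_repr_apply_to_fun`, `AdjoinRoot.modByMonicHom_mk`), and
`TD (n + j) ((v * y ^ j) %ₘ f)` (`TD.mul`, `TD_X_pow`, `TD.modByMonic`), `TD.coeff_natDegree`. -/
theorem Nf_natDegree_le (f : k[X][X]) (hf : f.Monic) (hfT : TD f.natDegree f) (n : ℕ) (v : k[X][X])
    (hv : TD n v) : (Nf f v).natDegree ≤ f.natDegree * n := by
  unfold Nf
  rw [Algebra.norm_eq_matrix_det (AdjoinRoot.powerBasisAux' hf)]
  refine det_natDegree_le _ _ _ fun i j hij => ?_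
  have hbj : AdjoinRoot.powerBasisAux' hf j = AdjoinRoot.mk f (X ^ (j : ℕ)) := by
    have := (AdjoinRoot.powerBasis' hf).basis_eq_pow j
    rw [map_pow, AdjoinRoot.mk_X]
    exact this
  rw [Algebra.leftMulMatrix_eq_repr_mul, hbj, ← map_mul,
    AdjoinRoot.powerBasisAux'_repr_apply_to_fun, AdjoinRoot.modByMonicHom_mk] at hij ⊢
  have h1 : TD (n + (j : ℕ)) ((v * X ^ (j : ℕ)) %ₘ f) :=
    TD.modByMonic hf hfT (hv.mul (TD_X_pow j))
  exact h1.coeff_natDegree i hij

end ShghV
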