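import Pool.Agent.ShghV.Glob
import Pool.Agent.ShghV.LocN
import Pool.Agent.ShghV.NormB

/-!
# The base lemma in `k[x][y]`
-/

namespace ShghV

open Polynomial

variable {k : Type*} [Field k] {ι : Type*} [Fintype ι]

/-- **Base lemma.** The case `d = δ` with `a_i = 0` or `a_i + 1 ≤ μ_i` for all `i`: then `ψ = 0` (`k` algebraically closed).

Proof. Suppose `ψ ≠ 0`; `v` from `exists_v`: `TD Q v`, `Q = Σ a_i`. Let `q = ∏ (x - x_i) ^ (a_i)`, monic of degree `Q`.
Choose `x0` different from all `x_i` (`k` infinite) and a root `y0` of `f(x0, y)` (monic of degree `δ ≥ 1` in `y`, `k`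
algebraically closed), so `q(x0) ≠ 0`. Put `c = v(x0, y0) / q(x0)`, `w = v - C (C c * q)`. Then `w` vanishes at `(x0, y0)`,
`TD Q w`, the local conditions hold for `w` (`C q * h` is a multiple of `C ((x - x_i) ^ (a_i))`), and `w` is not in `(q, f)`; in
particular `f ∤ w`, `R = Nf f w ≠ 0`. By `locN` (`(a_i + 1 - μ_i) μ_i = 0` if `a_i + 1 ≤ μ_i`; the case `a_i = 0` is trivial)
`a_i δ ≤ rootMultiplicity (x_i) R`, so `q ^ δ` divides `R` (or: `Σ rootMultiplicity (x_i) R ≥ Q δ ≥ natDegree R`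
(`Nf_natDegree_le`), and one more root `x0` would give a contradiction: apply `sum_rootMultiplicity_le` to
`Option ι`, that is to the `x_i` and `x0`). `x0` is a root of `R`: by `Nf_mem` `C R = w z + f t`, evaluate at `(x0, y0)`. So
`Q δ + 1 ≤ natDegree R ≤ δ Q`, contradiction. -/
theorem BL_bi [IsAlgClosed k] (f : k[X][X]) (hf : f.Monic) (hfT : TD f.natDegree f)
    (hirr : Irreducible f) (hδ : 1 ≤ f.natDegree) (x y : ι → k) (hx : Function.Injective x)
    (μ a : ι → ℕ) (hμ : ∀ i, f ∈ pI (x i) (y i) ^ μ i) (hμ' : ∀ i, f ∉ pI (x i) (y i) ^ (μ i + 1))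
    (ha : ∀ i, a i = 0 ∨ a i + 1 ≤ μ i) (ψ : k[X][X] →ₗ[k] k) (hψf : ∀ h, ψ (f * h) = 0)
    (hψd : ∀ h, TD (f.natDegree - 3) h → ψ h = 0)
    (hψJ : ∀ h, (∀ i, h ∈ pI (x i) (y i) ^ a i) → ψ h = 0) : ψ = 0 := by
  by_contra hψ
  haveI : Infinite k := IsAlgClosed.instInfinite
  classical
  obtain ⟨v, hvT, hvloc, hvn⟩ := exists_v f hf hfT hirr hδ x y a f.natDegree ψ hψ hψf hψd hψJ
  set q : k[X] := ∏ i, (X - C (x i)) ^ a i with hq
  have hqm : q.Monic := monic_prod_of_monic _ _ fun i _ => (monic_X_sub_C (x i)).pow (a i)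
  have hqdeg : q.natDegree = ∑ i, a i := by
    rw [hq, natDegree_prod_of_monic _ _ fun i _ => (monic_X_sub_C (x i)).pow (a i)]
    exact Finset.sum_congr rfl fun i _ => by
      rw [(monic_X_sub_C (x i)).natDegree_pow, natDegree_X_sub_C, mul_one]
  obtain ⟨x0, hx0⟩ := Infinite.exists_notMem_finset (Finset.univ.image x)
  have hx0' : ∀ i, x i ≠ x0 := fun i h =>
    hx0 (Finset.mem_image.2 ⟨i, Finset.mem_univ i, h⟩)
  obtain ⟨y0, hy0⟩ : ∃ y0, (f.map (evalRingHom x0)).IsRoot y0 := by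
    apply IsAlgClosed.exists_root
    rw [degree_map_eq_of_leadingCoeff_ne_zero, degree_eq_natDegree hf.ne_zero]
    · exact_mod_cast (by omega : f.natDegree ≠ 0)
    · rw [hf.leadingCoeff, map_one]
      exact one_ne_zero
  rw [IsRoot.def, map_evalRingHom_eval] at hy0
  have hq0 : q.eval x0 ≠ 0 := by
    rw [hq, eval_prod]
    refine Finset.prod_ne_zero_iff.2 fun i _ => ?_
    rw [eval_pow, eval_sub, eval_X, eval_C]
    exact pow_ne_zero _ (sub_ne_zero.2 (hx0' i).symm)
  set c : k := v.evalEval x0 y0 / q.eval x0 with hc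
  set w : k[X][X] := v - C (C c * q) with hw
  have hw0 : w.evalEval x0 y0 = 0 := by
    rw [hw, evalEval_sub, evalEval_C, eval_mul, eval_C, hc, div_mul_cancel₀ _ hq0, sub_self]
  have hwT : TD ((∑ i, a i : ℕ) : ℤ) w := by
    refine TD.sub (hvT.mono (by omega)) (TD_C _ ?_)
    have := natDegree_C_mul_le c q
    rw [hqdeg] at this
    exact_mod_cast this
  have hwn : ¬ ∃ u w', w = C q * u + f * w' := by
    rintro ⟨u, w', h⟩
    refine hvn ⟨u + C (C c), w', ?_⟩
    have : v = w + C (C c * q) := by rw [hw]; ring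
    rw [this, h, C_mul]
    ring
  have hfw : ¬ f ∣ w := by
    rintro ⟨t, ht⟩
    exact hwn ⟨0, t, by rw [ht]; ring⟩
  have hwloc : ∀ i, ∀ h ∈ pI (x i) (y i) ^ a i,
      ∃ z t, w * h = C ((X - C (x i)) ^ a i) * z + f * t := by
    intro i h hh
    obtain ⟨z, t, hzt⟩ := hvloc i h hh
    have hqi : q = (X - C (x i)) ^ a i * ∏ j ∈ Finset.univ.erase i, (X - C (x j)) ^ a j :=
      (Finset.mul_prod_erase Finset.univ (fun j => (X - C (x j)) ^ a j) (Finset.mem_univ i)).symm
    refine ⟨z - C (C c * ∏ j ∈ Finset.univ.erase i, (X - C (x j)) ^ a j) * h, t, ?_⟩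
    rw [hw, sub_mul, hzt, hqi]
    simp only [C_mul]
    ring
  have hR : Nf f w ≠ 0 := Nf_ne_zero f hf hirr w hfw
  have hloc : ∀ i, a i * f.natDegree ≤ (Nf f w).rootMultiplicity (x i) := by
    intro i
    rcases ha i with h | h
    · rw [h, zero_mul]
      exact Nat.zero_le _
    · have := locN f hf hirr hδ (x i) (y i) (μ i) (a i) (hμ i) (hμ' i) w (hwloc i) hfw
      rwa [Nat.sub_eq_zero_of_le h, zero_mul, add_zero] at this
  have hroot : 1 ≤ (Nf f w).rootMultiplicity x0 := by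
    rw [Nat.one_le_iff_ne_zero, ← Nat.pos_iff_ne_zero, rootMultiplicity_pos hR]
    obtain ⟨z, t, hzt⟩ := Nf_mem f hf w
    have h1 := congrArg (evalEval x0 y0) hzt
    rw [evalEval_C, evalEval_add, evalEval_mul, evalEval_mul, hw0, hy0, zero_mul, zero_mul,
      add_zero] at h1
    exact h1
  have hsum := sum_rootMultiplicity_le (fun o : Option ι => o.elim x0 x) (by
    rintro (_ | i) (_ | j) h
    · rfl
    · exact absurd h.symm (hx0' j)
    · exact absurd h (hx0' i)
    · exact congrArg some (hx h)) (Nf f w) hR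
  rw [Fintype.sum_option] at hsum
  simp only [Option.elim_none, Option.elim_some] at hsum
  have hdeg := Nf_natDegree_le f hf hfT (∑ i, a i) w hwT
  have h2 : ∑ i, a i * f.natDegree ≤ ∑ i, (Nf f w).rootMultiplicity (x i) :=
    Finset.sum_le_sum fun i _ => hloc i
  rw [← Finset.sum_mul, mul_comm] at h2
  omega

end ShghV
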