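import Pool.Agent.ShghV.Td

/-!
# The blow-up chart and multiplicities

`beta a b p = p(a + T, b + T Y) ∈ k[Y][T]`.
-/

namespace ShghV

open Polynomial

variable {k : Type*} [Field k]

private theorem Beta_CC (a b c : k) : beta a b (C (C c)) = C (C c) := by
  simp [beta]

private theorem Beta_x (a b : k) : beta a b (C (X - C a)) = X := by
  simp [beta]

private theorem Beta_y (a b : k) : beta a b (X - C (C b)) = X * C X := by
  simp [beta]

private theorem Beta_taylor (a : k) (q : k[X]) (N : ℕ) (hN : (taylor a q).natDegree < N) :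
    q = ∑ i ∈ Finset.range N, C ((taylor a q).coeff i) * (X - C a) ^ i := by
  have h1 := sum_taylor_eq q a
  rw [sum_over_range' _ (fun i => by rw [C_0, zero_mul]) N hN] at h1
  exact h1.symm

/-- Every `p ∈ k[x][y]` is a linear combination of the `(x - a) ^ i (y - b) ^ j` (Taylor expansion: apply
`Polynomial.taylor` in both variables, or prove it by induction on polynomials: it holds for constants, and the set of
these combinations is a ring containing `x` and `y`). The coefficient function has finite support; state it as a sum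
over `j < N`, `i < N` for some `N`. -/
theorem exists_expansion (a b : k) (p : k[X][X]) : ∃ (N : ℕ) (c : ℕ → ℕ → k),
    p = ∑ i ∈ Finset.range N, ∑ j ∈ Finset.range N,
      C (C (c i j)) * C (X - C a) ^ i * (X - C (C b)) ^ j := by
  set P := taylor (C b) p with hP
  set D := P.natDegree with hD
  set N := D + 1 + ∑ j ∈ Finset.range (D + 1), ((taylor a (P.coeff j)).natDegree + 1) with hN
  have hN1 : P.natDegree < N := by omega
  have hN2 : ∀ j, (taylor a (P.coeff j)).natDegree < N := by
    intro j
    by_cases hj : j < D + 1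
    · have h1 := Finset.single_le_sum (f := fun j => (taylor a (P.coeff j)).natDegree + 1)
        (fun _ _ => Nat.zero_le _) (Finset.mem_range.mpr hj)
      have h2 : (taylor a (P.coeff j)).natDegree + 1 ≤
        ∑ j ∈ Finset.range (D + 1), ((taylor a (P.coeff j)).natDegree + 1) := h1
      omega
    · have h1 : P.coeff j = 0 := coeff_eq_zero_of_natDegree_lt (by omega)
      rw [h1, map_zero, natDegree_zero]
      omega
  refine ⟨N, fun i j => (taylor a (P.coeff j)).coeff i, ?_⟩
  have h1 := sum_taylor_eq p (C b)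
  rw [← hP, sum_over_range' _ (fun i => by rw [C_0, zero_mul]) N hN1] at h1
  rw [Finset.sum_comm]
  conv_lhs => rw [← h1]
  refine Finset.sum_congr rfl fun j _ => ?_
  conv_lhs => rw [Beta_taylor a (P.coeff j) N (hN2 j)]
  rw [map_sum, Finset.sum_mul]
  refine Finset.sum_congr rfl fun i _ => ?_
  rw [map_mul, map_pow]

/-- `beta` of the monomials: `T ^ (i + j) Y ^ j`. -/
theorem beta_monomial (a b : k) (i j : ℕ) :
    beta a b (C (X - C a) ^ i * (X - C (C b)) ^ j) = C (X ^ j) * X ^ (i + j) := by
  rw [map_mul, map_pow, map_pow, Beta_x, Beta_y, mul_pow, C_pow]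
  ring

private theorem Beta_term (a b c : k) (i j n m : ℕ) :
    ((beta a b (C (C c) * C (X - C a) ^ i * (X - C (C b)) ^ j)).coeff n).coeff m =
      if n = i + j ∧ m = j then c else 0 := by
  rw [mul_assoc, map_mul, beta_monomial, Beta_CC, ← mul_assoc, ← C_mul, coeff_C_mul, coeff_X_pow]
  by_cases h1 : n = i + j
  · rw [if_pos h1, mul_one, coeff_C_mul, coeff_X_pow]
    by_cases h2 : m = j
    · rw [if_pos h2, if_pos ⟨h1, h2⟩, mul_one]
    · rw [if_neg h2, if_neg (fun h => h2 h.2), mul_zero]
  · rw [if_neg h1, if_neg (fun h => h1 h.1), mul_zero, coeff_zero]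

private theorem Beta_coeff (a b : k) (N : ℕ) (c : ℕ → ℕ → k) (n m : ℕ) :
    ((beta a b (∑ i ∈ Finset.range N, ∑ j ∈ Finset.range N,
      C (C (c i j)) * C (X - C a) ^ i * (X - C (C b)) ^ j)).coeff n).coeff m =
    ∑ i ∈ Finset.range N, ∑ j ∈ Finset.range N, if n = i + j ∧ m = j then c i j else 0 := by
  rw [map_sum, finsetSum_coeff, finsetSum_coeff]
  refine Finset.sum_congr rfl fun i _ => ?_
  rw [map_sum, finsetSum_coeff, finsetSum_coeff]
  exact Finset.sum_congr rfl fun j _ => Beta_term a b (c i j) i j n m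

private theorem Beta_mem (a b : k) (i j : ℕ) :
    C (X - C a) ^ i * (X - C (C b)) ^ j ∈ pI a b ^ (i + j) := by
  have h : pI a b ^ (i + j) = pI a b ^ i * pI a b ^ j := Ideal.IsTwoSided.pow_add _ _
  rw [h]
  exact Ideal.mul_mem_mul (Ideal.pow_mem_pow (Ideal.subset_span (by simp)) i)
    (Ideal.pow_mem_pow (Ideal.subset_span (by simp)) j)

/-- `p ∈ I ^ m` iff `T ^ m` divides `beta a b p`. Proof: `beta` maps `I` into `(T)`, so `I ^ m` into `(T ^ m)`
(`Ideal.pow_le_comap`...). Conversely expand `p = Σ c_ij (x - a) ^ i (y - b) ^ j` (`exists_expansion`);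
`beta p = Σ c_ij Y ^ j T ^ (i + j)`, the coefficient of `T ^ n` is `Σ_{i + j = n} c_ij Y ^ j`, so `c_ij = 0` for
`i + j < m`, and the other terms are in `I ^ m`. -/
theorem mem_pI_pow_iff (a b : k) (m : ℕ) (p : k[X][X]) :
    p ∈ pI a b ^ m ↔ ∀ n < m, (beta a b p).coeff n = 0 := by
  constructor
  · intro hp
    have h1 : pI a b ≤ Ideal.comap (beta a b) (Ideal.span {(X : k[X][X])}) := by
      rw [pI, Ideal.span_le]
      rintro q (rfl | hq)
      · rw [SetLike.mem_coe, Ideal.mem_comap, Beta_x]
        exact Ideal.subset_span rfl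
      · rw [Set.mem_singleton_iff] at hq
        rw [hq, SetLike.mem_coe, Ideal.mem_comap, Beta_y]
        exact Ideal.mul_mem_right _ _ (Ideal.subset_span rfl)
    have h2 : pI a b ^ m ≤ Ideal.comap (beta a b) (Ideal.span {(X : k[X][X])} ^ m) :=
      (Ideal.pow_right_mono h1 m).trans (Ideal.le_comap_pow _ m)
    have h3 := h2 hp
    rw [Ideal.mem_comap, Ideal.span_singleton_pow, Ideal.mem_span_singleton, X_pow_dvd_iff] at h3
    exact h3
  · intro h
    obtain ⟨N, c, hc⟩ := exists_expansion a b p
    rw [hc]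
    refine Ideal.sum_mem _ fun i hi => Ideal.sum_mem _ fun j hj => ?_
    by_cases hij : i + j < m
    · have h1 := h (i + j) hij
      have h2 : ((beta a b p).coeff (i + j)).coeff j = 0 := by rw [h1, coeff_zero]
      rw [hc, Beta_coeff] at h2
      have h3 : ∑ i' ∈ Finset.range N, ∑ j' ∈ Finset.range N,
          (if i + j = i' + j' ∧ j = j' then c i' j' else 0) = c i j := by
        rw [Finset.sum_eq_single_of_mem i hi, Finset.sum_eq_single_of_mem j hj]
        · rw [if_pos ⟨rfl, rfl⟩]
        · intro j' _ hj'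
          rw [if_neg]
          rintro ⟨-, h4⟩
          exact hj' h4.symm
        · intro i' _ hi'
          refine Finset.sum_eq_zero fun j' _ => ?_
          rw [if_neg]
          rintro ⟨h4, h5⟩
          apply hi'
          omega
      rw [h3] at h2
      rw [h2, C_0, C_0, zero_mul, zero_mul]
      exact Ideal.zero_mem _
    · rw [mul_assoc]
      exact Ideal.mul_mem_left _ _ (Ideal.pow_le_pow_right (not_lt.mp hij) (Beta_mem a b i j))

/-- The coefficient of `T ^ n` of `beta p` is a polynomial in `Y` of degree `≤ n`. -/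
theorem beta_coeff_natDegree (a b : k) (p : k[X][X]) (n : ℕ) : ((beta a b p).coeff n).natDegree ≤ n := by
  obtain ⟨N, c, hc⟩ := exists_expansion a b p
  rw [natDegree_le_iff_coeff_eq_zero]
  intro m hm
  rw [hc, Beta_coeff]
  refine Finset.sum_eq_zero fun i _ => Finset.sum_eq_zero fun j _ => ?_
  rw [if_neg]
  rintro ⟨h1, h2⟩
  omega

/-- For `deg G ≤ n` there is an `h ∈ I ^ n` with `beta h = G(Y) T ^ n`: `h = Σ_j G_j (x - a) ^ (n - j) (y - b) ^ j`. -/
theorem beta_surj (a b : k) (n : ℕ) (G : k[X]) (hG : G.natDegree ≤ n) :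
    ∃ h ∈ pI a b ^ n, beta a b h = C G * X ^ n := by
  refine ⟨∑ j ∈ Finset.range (n + 1), C (C (G.coeff j)) *
    (C (X - C a) ^ (n - j) * (X - C (C b)) ^ j), ?_, ?_⟩
  · refine Ideal.sum_mem _ fun j hj => Ideal.mul_mem_left _ _ ?_
    have h1 : n - j + j = n := Nat.sub_add_cancel (by have := Finset.mem_range.mp hj; omega)
    have h2 := Beta_mem a b (n - j) j
    rwa [h1] at h2
  · rw [map_sum]
    conv_rhs => rw [as_sum_range_C_mul_X_pow' G (Nat.lt_succ_of_le hG)]
    rw [map_sum, Finset.sum_mul]
    refine Finset.sum_congr rfl fun j hj => ?_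
    have h1 : n - j + j = n := Nat.sub_add_cancel (by have := Finset.mem_range.mp hj; omega)
    rw [map_mul, beta_monomial, Beta_CC, h1, ← mul_assoc, ← C_mul]

end ShghV
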