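import Pool.Agent.ShghE.CurveDefs

/-!
# The Cartier operator on polynomials in two variables

`k` perfect of characteristic `p`. `car` sends `Σ c_e X ^ e` to `Σ_e (c_(p e + p - 1)) ^ (1/p) X ^ e` (`p e + p - 1` means
`(p e_0 + p - 1, p e_1 + p - 1)`).
-/

namespace ShghV

open MvPolynomial ShghE

variable {k : Type*} [Field k] (p : ℕ) [Fact p.Prime] [CharP k p] [PerfectRing k p]

/-- The exponent `p e + (p - 1)`. -/
noncomputable def upE (e : Fin 2 →₀ ℕ) : Fin 2 →₀ ℕ :=
  Finsupp.equivFunOnFinite.symm fun i => p * e i + (p - 1)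

omit [CharP k p] [PerfectRing k p] [Fact p.Prime] in
theorem Cartier_upE_apply (e : Fin 2 →₀ ℕ) (i : Fin 2) : upE p e i = p * e i + (p - 1) := rfl

omit [CharP k p] [PerfectRing k p] in
theorem Cartier_div (e : Fin 2 →₀ ℕ) : (upE p e).mapRange (fun m => m / p) (Nat.zero_div p) = e := by
  have hp := (Fact.out : p.Prime).pos
  ext i
  rw [Finsupp.mapRange_apply, Cartier_upE_apply, Nat.mul_add_div hp, Nat.div_eq_of_lt (by omega),
    add_zero]

/-- The operator on coefficients. -/
theorem Cartier_op : ∃ car : MvPolynomial (Fin 2) k →+ MvPolynomial (Fin 2) k,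
    ∀ h e, coeff e (car h) = (frobeniusEquiv k p).symm (coeff (upE p e) h) := by
  classical
  have key : ∀ h : MvPolynomial (Fin 2) k, ∃ h' : MvPolynomial (Fin 2) k,
      ∀ e, coeff e h' = (frobeniusEquiv k p).symm (coeff (upE p e) h) := by
    intro h
    refine ⟨∑ e ∈ h.support.image (fun m => m.mapRange (fun m => m / p) (Nat.zero_div p)),
      monomial e ((frobeniusEquiv k p).symm (coeff (upE p e) h)), fun e => ?_⟩
    rw [coeff_sum]
    simp only [coeff_monomial]
    rw [Finset.sum_ite_eq']
    split_ifs with he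
    · rfl
    · have h1 : coeff (upE p e) h = 0 := by
        by_contra h1
        exact he (Finset.mem_image.2 ⟨upE p e, mem_support_iff.2 h1, Cartier_div p e⟩)
      rw [h1, map_zero]
  choose f hf using key
  refine ⟨AddMonoidHom.mk' f fun g h => ?_, fun h e => hf h e⟩
  ext e
  rw [coeff_add, hf, hf, hf, coeff_add, map_add]

theorem Cartier_mul (car : MvPolynomial (Fin 2) k →+ MvPolynomial (Fin 2) k)
    (hcar : ∀ h e, coeff e (car h) = (frobeniusEquiv k p).symm (coeff (upE p e) h))
    (g h : MvPolynomial (Fin 2) k) : car (g ^ p * h) = g * car h := by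
  classical
  have hp := (Fact.out : p.Prime).pos
  induction g using MvPolynomial.induction_on' with
  | monomial u a =>
    ext e
    rw [hcar, monomial_pow, coeff_monomial_mul', coeff_monomial_mul']
    have h1 : p • u ≤ upE p e ↔ u ≤ e := by
      rw [Finsupp.le_def, Finsupp.le_def]
      refine forall_congr' fun i => ?_
      rw [Finsupp.smul_apply, smul_eq_mul, Cartier_upE_apply]
      constructor
      · intro h
        by_contra hlt
        have h2 : p * (e i + 1) ≤ p * u i := Nat.mul_le_mul_left p (by omega)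
        rw [mul_add, mul_one] at h2
        omega
      · intro h
        exact le_trans (Nat.mul_le_mul_left p h) (Nat.le_add_right _ _)
    by_cases h2 : u ≤ e
    · rw [if_pos (h1.2 h2), if_pos h2, map_mul, frobeniusEquiv_symm_pow, hcar]
      have h3 : upE p e - p • u = upE p (e - u) := by
        ext i
        have h4 := Finsupp.le_def.1 h2 i
        rw [Finsupp.tsub_apply, Finsupp.smul_apply, smul_eq_mul, Cartier_upE_apply,
          Cartier_upE_apply, Finsupp.tsub_apply, Nat.mul_sub]
        have h5 : p * u i ≤ p * e i := Nat.mul_le_mul_left p h4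
        omega
      rw [h3]
    · rw [if_neg (fun h => h2 (h1.1 h)), if_neg h2, map_zero]
  | add g g' hg hg' =>
    rw [add_pow_char, add_mul, map_add, hg, hg', add_mul]

theorem Cartier_one (car : MvPolynomial (Fin 2) k →+ MvPolynomial (Fin 2) k)
    (hcar : ∀ h e, coeff e (car h) = (frobeniusEquiv k p).symm (coeff (upE p e) h)) :
    car ((X 0 * X 1) ^ (p - 1)) = 1 := by
  classical
  have hp := (Fact.out : p.Prime).pos
  have h1 : ((X 0 * X 1) ^ (p - 1) : MvPolynomial (Fin 2) k) = monomial (upE p 0) 1 := by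
    rw [X, X, monomial_mul, one_mul, monomial_pow, one_pow]
    have h2 : (p - 1) • (Finsupp.single (0 : Fin 2) 1 + Finsupp.single (1 : Fin 2) 1) =
        upE p 0 := by
      ext i
      rw [Cartier_upE_apply]
      fin_cases i <;> simp
    rw [h2]
  ext e
  rw [hcar, h1, coeff_monomial]
  have h3 : upE p 0 = upE p e ↔ 0 = e := by
    constructor
    · intro h
      have h4 := congrArg
        (fun m : Fin 2 →₀ ℕ => m.mapRange (fun m => m / p) (Nat.zero_div p)) h
      simp only [Cartier_div] at h4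
      exact h4
    · intro h
      rw [h]
  rw [coeff_one]
  by_cases h : 0 = e
  · rw [if_pos (h3.2 h), if_pos h, map_one]
  · rw [if_neg (fun h' => h (h3.1 h')), if_neg h, map_zero]

/-- Powers of an ideal with two generators. -/
theorem Cartier_pow_le {R : Type*} [CommRing R] (u v : R) (m : ℕ) :
    Ideal.span {u, v} ^ m ≤ Ideal.span {x | ∃ i j, i + j = m ∧ x = u ^ i * v ^ j} := by
  induction m with
  | zero =>
    have h1 : (1 : R) ∈ Ideal.span {x : R | ∃ i j, i + j = 0 ∧ x = u ^ i * v ^ j} :=
      Ideal.subset_span ⟨0, 0, rfl, by rw [pow_zero, pow_zero, one_mul]⟩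
    rw [(Ideal.eq_top_iff_one _).2 h1]
    exact le_top
  | succ m ih =>
    rw [pow_succ]
    refine le_trans (Ideal.mul_mono_left ih) ?_
    rw [Ideal.span_mul_span', Ideal.span_le]
    rintro _ ⟨_, ⟨i, j, hij, rfl⟩, y, hy, rfl⟩
    rcases hy with hy | hy
    · exact Ideal.subset_span ⟨i + 1, j, by omega, by
        change u ^ i * v ^ j * y = _
        rw [hy]
        ring⟩
    · exact Ideal.subset_span ⟨i, j + 1, by omega, by
        change u ^ i * v ^ j * y = _
        rw [Set.mem_singleton_iff.1 hy]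
        ring⟩

theorem Cartier_pow_le' {R : Type*} [CommRing R] (u v : R) (n q : ℕ) (hq : 1 ≤ q) :
    Ideal.span {u, v} ^ (q * n + q - 1) ≤ Ideal.span {u ^ q, v ^ q} ^ n := by
  refine le_trans (Cartier_pow_le u v _) ?_
  rw [Ideal.span_le]
  rintro _ ⟨i, j, hij, rfl⟩
  have hi := Nat.div_add_mod i q
  have hj := Nat.div_add_mod j q
  have hi' := Nat.mod_lt i hq
  have hj' := Nat.mod_lt j hq
  have h1 : n ≤ i / q + j / q := by
    by_contra hlt
    have h2 : q * (i / q + j / q + 1) ≤ q * n := Nat.mul_le_mul_left q (by omega)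
    rw [mul_add, mul_add, mul_one] at h2
    omega
  have h2 : u ^ i * v ^ j = (u ^ (i % q) * v ^ (j % q)) * ((u ^ q) ^ (i / q) * (v ^ q) ^ (j / q)) := by
    rw [← pow_mul, ← pow_mul]
    nth_rewrite 1 [← hi]
    nth_rewrite 1 [← hj]
    rw [pow_add, pow_add]
    ring
  have h3 : (u ^ q) ^ (i / q) * (v ^ q) ^ (j / q) ∈
      Ideal.span {u ^ q, v ^ q} ^ (i / q + j / q) := by
    rw [pow_add]
    have h4 : u ^ q ∈ Ideal.span {u ^ q, v ^ q} := Ideal.subset_span (Or.inl rfl)
    have h5 : v ^ q ∈ Ideal.span {u ^ q, v ^ q} := Ideal.subset_span (Or.inr rfl)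
    exact Ideal.mul_mem_mul (Ideal.pow_mem_pow h4 _) (Ideal.pow_mem_pow h5 _)
  change u ^ i * v ^ j ∈ _
  rw [h2]
  exact Ideal.mul_mem_left _ _ (Ideal.pow_le_pow_right h1 h3)

theorem Cartier_ideal (car : MvPolynomial (Fin 2) k →+ MvPolynomial (Fin 2) k)
    (hcar : ∀ g h, car (g ^ p * h) = g * car h) (u v : MvPolynomial (Fin 2) k) (n : ℕ) :
    ∀ h ∈ Ideal.span {u ^ p, v ^ p} ^ n, car h ∈ Ideal.span {u, v} ^ n := by
  induction n with
  | zero =>
    intro h _
    rw [pow_zero, Ideal.one_eq_top]
    trivial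
  | succ n ih =>
    intro h hh
    rw [pow_succ'] at hh ⊢
    refine Submodule.mul_induction_on hh ?_ ?_
    · intro s hs t ht
      obtain ⟨α, β, rfl⟩ := Ideal.mem_span_pair.1 hs
      have h1 : (α * u ^ p + β * v ^ p) * t = u ^ p * (α * t) + v ^ p * (β * t) := by ring
      rw [h1, map_add, hcar, hcar]
      exact Ideal.add_mem _
        (Ideal.mul_mem_mul (Ideal.subset_span (Or.inl rfl)) (ih _ (Ideal.mul_mem_left _ _ ht)))
        (Ideal.mul_mem_mul (Ideal.subset_span (Or.inr rfl)) (ih _ (Ideal.mul_mem_left _ _ ht)))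
    · intro x y hx hy
      rw [map_add]
      exact Ideal.add_mem _ hx hy

/-- **The Cartier operator.** There is a map `car` with the following properties: additive, `p⁻¹`-linear over
`p`-th powers, surjective in the precise sense of the last property, of the right effect on degrees.
Proof: define `car h = Σ_{e ∈ S} monomial e ((frobeniusEquiv k p).symm (h.coeff (upE p e)))` where `S` is any finite set
containing all `e` with `h.coeff (upE p e) ≠ 0` (for example as a `Finsupp` through `Finsupp.comapDomain` with the injective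
map `upE p` and `Finsupp.mapRange`); so `(car h).coeff e = (h.coeff (upE p e)) ^ (1/p)`, which gives additivity.
`car (g ^ p * h) = g * car h`: both sides are additive in `h` and in `g` (`add_pow_char`), so `g`, `h` may be monomials
(`MvPolynomial.induction_on'`), where it is a comparison of exponents: `upE p e = p e₁ + e₂` iff `e = e₁ + e'` with
`upE p e' = e₂` (if `e₂ i ≥ 0`; note `p e_i + p - 1 ≥ p e₁ i + e₂ i`... compare modulo `p` and divide).
`car (g ^ p * (X 0 * X 1) ^ (p - 1)) = g`: `car ((X 0 * X 1) ^ (p - 1)) = 1`.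
Degrees: if `h.coeff (upE p e) ≠ 0` then `p |e| + 2 (p - 1) ≤ deg h ≤ p c + 3 p - 3`, so `p |e| ≤ p c + p - 1`, `|e| ≤ c`.
`I ^ (p n + p - 1)` is mapped into `I ^ n`: `I ^ (p n + p - 1)`, `I = (u, v)`, is the set of sums of `u ^ i v ^ j h` with
`i + j = p n + p - 1`; write `i = p i' + i''`, `j = p j' + j''` with `i'', j'' < p`; then `p (i' + j') ≥ p n + p - 1 - 2 (p - 1) >
p (n - 1)`, so `i' + j' ≥ n` and `car (u ^ i v ^ j h) = u ^ i' v ^ j' car (u ^ i'' v ^ j'' h) ∈ I ^ n`. -/
theorem exists_cartier : ∃ car : MvPolynomial (Fin 2) k →+ MvPolynomial (Fin 2) k,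
    (∀ g h, car (g ^ p * h) = g * car h) ∧
    (∀ g, car (g ^ p * (X 0 * X 1) ^ (p - 1)) = g) ∧
    (∀ h (c : ℕ), h.totalDegree ≤ p * c + 3 * p - 3 → (car h).totalDegree ≤ c) ∧
    (∀ (a b : k) (n : ℕ) h, h ∈ ptIdeal a b ^ (p * n + p - 1) → car h ∈ ptIdeal a b ^ n) := by
  have hp := (Fact.out : p.Prime).pos
  obtain ⟨car, hcar⟩ := Cartier_op (k := k) p
  have h1 := Cartier_mul p car hcar
  refine ⟨car, h1, fun g => ?_, fun h c hc => ?_, fun a b n h hh => ?_⟩
  · rw [h1, Cartier_one p car hcar, mul_one]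
  · rw [totalDegree]
    refine Finset.sup_le fun e he => ?_
    rw [mem_support_iff, hcar] at he
    have h2 : upE p e ∈ h.support := by
      rw [mem_support_iff]
      intro h3
      rw [h3, map_zero] at he
      exact he rfl
    have h3 := le_totalDegree h2
    rw [Finsupp.sum_fintype _ _ (fun _ => rfl), Fin.sum_univ_two, Cartier_upE_apply,
      Cartier_upE_apply] at h3
    rw [Finsupp.sum_fintype _ _ (fun _ => rfl), Fin.sum_univ_two]
    by_contra hlt
    have h4 : p * (c + 1) ≤ p * (e 0 + e 1) := Nat.mul_le_mul_left p (by omega)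
    rw [mul_add, mul_add, mul_one] at h4
    omega
  · exact Cartier_ideal p car h1 _ _ n h (Cartier_pow_le' _ _ n p hp hh)

end ShghV
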