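import Pool.Agent.ShghR.MultS

/-!
# The order of vanishing at a point
-/

namespace ShghV

open MvPolynomial ShghE

variable {k : Type*} [Field k]

/-- The order of vanishing of `f` at the point `P`. -/
noncomputable def ordAt (P : Fin 2 → k) (f : MvPolynomial (Fin 2) k) : ℕ :=
  ((tfShift (P 0) (P 1) f : MvPolynomial (Fin 2) k) : MvPowerSeries (Fin 2) k).order.toNat

theorem order_ne_top (P : Fin 2 → k) {f : MvPolynomial (Fin 2) k} (hf : f ≠ 0) :
    ((tfShift (P 0) (P 1) f : MvPolynomial (Fin 2) k) : MvPowerSeries (Fin 2) k).order ≠ ⊤ := by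
  rw [Ne, MvPowerSeries.order_eq_top_iff, MvPolynomial.coe_eq_zero_iff]
  intro h
  apply hf
  have h1 := tfShift_neg (P 0) (P 1) f
  rw [h, map_zero] at h1
  exact h1.symm

/-- `ShghR.MultS_iff`; the order is not `⊤` because `tfShift` is injective (`tfShift_neg`). -/
theorem mem_iff_le_ordAt (P : Fin 2 → k) {f : MvPolynomial (Fin 2) k} (hf : f ≠ 0) (m : ℕ) :
    f ∈ ptIdeal (P 0) (P 1) ^ m ↔ m ≤ ordAt P f := by
  rw [ShghR.MultS_iff]
  unfold ordAt
  have h := order_ne_top P hf
  generalize ((tfShift (P 0) (P 1) f : MvPolynomial (Fin 2) k) : MvPowerSeries (Fin 2) k).order = o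
    at h ⊢
  obtain ⟨n, rfl⟩ := ENat.ne_top_iff_exists.1 h
  rw [ENat.toNat_natCast, Nat.cast_le]

/-- `MvPowerSeries.order_mul` (see `ShghR.mem_split`). -/
theorem ordAt_mul (P : Fin 2 → k) {f g : MvPolynomial (Fin 2) k} (hf : f ≠ 0) (hg : g ≠ 0) :
    ordAt P (f * g) = ordAt P f + ordAt P g := by
  unfold ordAt
  rw [map_mul, MvPolynomial.coe_mul, MvPowerSeries.order_mul]
  exact ENat.toNat_add (order_ne_top P hf) (order_ne_top P hg)

/-- A unit is a nonzero constant; or: `ordAt u + ordAt u⁻¹ = ordAt 1 = 0`. -/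
theorem ordAt_unit (P : Fin 2 → k) {f : MvPolynomial (Fin 2) k} (hf : IsUnit f) : ordAt P f = 0 := by
  obtain ⟨u, rfl⟩ := hf
  have h1 : ordAt P (1 : MvPolynomial (Fin 2) k) = 0 := by
    have := ordAt_mul P (one_ne_zero (α := MvPolynomial (Fin 2) k)) one_ne_zero
    rw [mul_one] at this
    omega
  have h2 := ordAt_mul P (u.ne_zero) (u⁻¹.ne_zero)
  rw [Units.mul_inv, h1] at h2
  omega

/-- Bezout-type inequalities add up over the factorization: if `D * deg f ≤ Σ B_i ord_i f` for all irreducible factors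
`f` of `g` then the same holds for `g`. Proof: `UniqueFactorizationMonoid.induction_on_prime` (for the divisors of `g`), `ordAt_mul`,
`MvPolynomial.totalDegree_mul_of_isDomain`, `ordAt_unit`, a unit has total degree `0`. -/
theorem sum_factors {ι : Type*} [Fintype ι] (P : ι → Fin 2 → k) (D : ℤ) (B : ι → ℤ)
    (g : MvPolynomial (Fin 2) k) (hg : g ≠ 0)
    (h : ∀ f, Irreducible f → f ∣ g → D * f.totalDegree ≤ ∑ i, B i * ordAt (P i) f) :
    D * g.totalDegree ≤ ∑ i, B i * ordAt (P i) g := by
  have key : ∀ e : MvPolynomial (Fin 2) k, e ∣ g → e ≠ 0 →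
      D * e.totalDegree ≤ ∑ i, B i * ordAt (P i) e := by
    intro e
    refine UniqueFactorizationMonoid.induction_on_prime e ?_ ?_ ?_
    · intro _ h0
      exact absurd rfl h0
    · intro u hu _ _
      have h1 : u.totalDegree = 0 := by
        obtain ⟨v, hv⟩ := hu.exists_right_inv
        have hv0 : v ≠ 0 := by
          rintro rfl
          rw [mul_zero] at hv
          exact zero_ne_one hv
        have h2 := totalDegree_mul_of_isDomain hu.ne_zero hv0
        rw [hv, totalDegree_one] at h2
        omega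
      rw [h1, Finset.sum_congr rfl fun i _ => by rw [ordAt_unit (P i) hu]]
      simp
    · intro a p ha hp ih hdvd _
      have h1 := ih (dvd_trans (Dvd.intro_left _ rfl) hdvd) ha
      have h2 := h p hp.irreducible (dvd_trans (Dvd.intro _ rfl) hdvd)
      rw [totalDegree_mul_of_isDomain hp.ne_zero ha,
        Finset.sum_congr rfl fun i _ => by rw [ordAt_mul (P i) hp.ne_zero ha]]
      have h3 : ∑ i, B i * ((ordAt (P i) p + ordAt (P i) a : ℕ) : ℤ) =
          ∑ i, B i * ordAt (P i) p + ∑ i, B i * ordAt (P i) a := by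
        rw [← Finset.sum_add_distrib]
        exact Finset.sum_congr rfl fun i _ => by push_cast; ring
      rw [h3]
      push_cast
      linarith
  exact key g dvd_rfl hg

end ShghV
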