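import Pool.Agent.ShghV.KLmv
import Pool.Agent.ShghV.OrdV

/-!
# Second step
-/

namespace ShghV

open MvPolynomial ShghE

variable {k : Type*} [Field k] {ι : Type*} [Fintype ι]

/-- Second step: let `g ≠ 0`, `g φ = 0`, and `h φ ≠ 0` for all divisors `h` of `g` of smaller degree. Then
`(c + 3 - γ) deg f ≤ Σ (μ_i + 1 - γ_i)⁺ ord_i f` for all irreducible factors `f` of `g`, where `γ = deg g`,
`γ_i = ord_i g`. Proof: `g = f h`, `ψ = φ (h ·) ≠ 0`, `ψ (f u) = 0`; `KL_mv` with `d = c + 3 - γ + deg f` (`ψ u = 0` if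
`deg u ≤ d - 3 = c - deg h`) and `a_i = μ_i - ord_i h` (natural subtraction). `(a_i + 1 - ord_i f) ord_i f ≤
(μ_i + 1 - γ_i)⁺ ord_i f`: equality if `ord_i h ≤ μ_i`, and if `ord_i h > μ_i` then `a_i = 0` and the left side is `0`. -/
theorem second_step [Infinite k] (P : ι → Fin 2 → k) (hP : Function.Injective P) (c : ℕ)
    (μ : ι → ℕ) (g : MvPolynomial (Fin 2) k) (hg : g ≠ 0) (φ : MvPolynomial (Fin 2) k →ₗ[k] k)
    (hφg : ∀ u, φ (g * u) = 0) (hmin : ∀ h, h ∣ g → h.totalDegree < g.totalDegree →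
      ¬ ∀ u, φ (h * u) = 0) (hφd : ∀ h, h.totalDegree ≤ c → φ h = 0)
    (hφJ : ∀ h, (∀ i, h ∈ ptIdeal (P i 0) (P i 1) ^ μ i) → φ h = 0)
    (f : MvPolynomial (Fin 2) k) (hf : Irreducible f) (hfg : f ∣ g) :
    ((c : ℤ) + 3 - g.totalDegree) * f.totalDegree ≤
      ∑ i, ((μ i + 1 - ordAt (P i) g : ℕ) : ℤ) * ordAt (P i) f := by
  obtain ⟨h, rfl⟩ := hfg
  have hf0 : f ≠ 0 := hf.ne_zero
  have hh0 : h ≠ 0 := right_ne_zero_of_mul hg
  have hdeg := totalDegree_mul_of_isDomain hf0 hh0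
  have hfd : 1 ≤ f.totalDegree := by
    rw [Nat.one_le_iff_ne_zero]
    intro h0
    have h1 := totalDegree_eq_zero_iff_eq_C.1 h0
    apply hf.not_isUnit
    rw [h1]
    refine IsUnit.map C (isUnit_iff_ne_zero.2 ?_)
    intro h2
    apply hf0
    rw [h1, h2, C_0]
  have hψ : φ ∘ₗ LinearMap.mulLeft k h ≠ 0 := by
    intro h0
    refine hmin h (Dvd.intro_left _ rfl) (by omega) fun u => ?_
    have := congrArg (fun G : MvPolynomial (Fin 2) k →ₗ[k] k => G u) h0
    simpa using this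
  have key := KL_mv f hf P hP (fun i => ordAt (P i) f) (fun i => μ i - ordAt (P i) h)
    (fun i => (mem_iff_le_ordAt (P i) hf0 _).2 le_rfl)
    (fun i hi => by
      have := (mem_iff_le_ordAt (P i) hf0 _).1 hi
      omega)
    ((c : ℤ) + 3 - (f * h).totalDegree + f.totalDegree)
    (φ ∘ₗ LinearMap.mulLeft k h) hψ ?_ ?_ ?_
  · refine le_trans (le_of_eq ?_) (le_trans key (Finset.sum_le_sum fun i _ => ?_))
    · ring
    · rw [← Nat.cast_mul]
      refine Int.ofNat_le.2 ?_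
      rw [ordAt_mul (P i) hf0 hh0]
      rcases Nat.eq_zero_or_pos (ordAt (P i) f) with h0 | h0
      · rw [h0, mul_zero, mul_zero]
      · refine Nat.mul_le_mul_right _ ?_
        omega
  · intro u
    rw [LinearMap.comp_apply, LinearMap.mulLeft_apply,
      show h * (f * u) = f * h * u by ring]
    exact hφg u
  · intro u hu
    rw [LinearMap.comp_apply, LinearMap.mulLeft_apply]
    refine hφd _ (le_trans (totalDegree_mul _ _) ?_)
    rw [hdeg] at hu
    push_cast at hu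
    omega
  · intro u hu
    rw [LinearMap.comp_apply, LinearMap.mulLeft_apply]
    refine hφJ _ fun i => ?_
    by_cases hu0 : u = 0
    · rw [hu0, mul_zero]
      exact Ideal.zero_mem _
    · rw [mem_iff_le_ordAt (P i) (mul_ne_zero hh0 hu0), ordAt_mul (P i) hh0 hu0]
      have h1 := (mem_iff_le_ordAt (P i) hu0 _).1 (hu i)
      omega

end ShghV
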