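import Mathlib

/-!
# The numerical lemma (Hodge index)
-/

namespace ShghV

/-- There are no classes `A = (α; a)`, `B = (β; b)` with `α, β > 0`, `A · B ≤ 0`, `(A + B) · A ≥ 0`, `(A + B) · B ≥ 0` and
`(A + B)² > 0`. Proof: let `x = A² = α² - Σ a_i²`, `z = B²`, `y = A · B = αβ - Σ a_i b_i ≤ 0`. Then `x + y ≥ 0`,
`y + z ≥ 0`, so `x, z ≥ 0`, and `x + 2 y + z > 0`. Cauchy-Schwarz: `(αβ - y)² = (Σ a_i b_i)² ≤ (α² - x)(β² - z)`, that is
`- 2 αβ y + y² + α² z + β² x ≤ x z`. Since `α² - x = Σ a_i² ≥ 0`, `x z ≤ α² z`, so `- 2 αβ y + y² + β² x ≤ 0`, and all terms are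
`≥ 0`: `y = 0`, `x = 0`. Symmetrically `z = 0`. Contradiction to `x + 2 y + z > 0`. -/
theorem hodge {ι : Type*} [Fintype ι] (α β : ℤ) (a b : ι → ℤ) (hα : 0 < α) (hβ : 0 < β)
    (h1 : ∑ i, (a i + b i) * a i ≤ (α + β) * α) (h2 : ∑ i, (a i + b i) * b i ≤ (α + β) * β)
    (h3 : α * β ≤ ∑ i, a i * b i) (h4 : ∑ i, (a i + b i) ^ 2 < (α + β) ^ 2) : False := by
  have cs := Finset.sum_mul_sq_le_sq_mul_sq (Finset.univ : Finset ι) a b
  have hA : 0 ≤ ∑ i, a i ^ 2 := Finset.sum_nonneg fun i _ => sq_nonneg _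
  have hB : 0 ≤ ∑ i, b i ^ 2 := Finset.sum_nonneg fun i _ => sq_nonneg _
  have e1 : ∑ i, (a i + b i) * a i = ∑ i, a i ^ 2 + ∑ i, a i * b i := by
    rw [← Finset.sum_add_distrib]
    exact Finset.sum_congr rfl fun i _ => by ring
  have e2 : ∑ i, (a i + b i) * b i = ∑ i, a i * b i + ∑ i, b i ^ 2 := by
    rw [← Finset.sum_add_distrib]
    exact Finset.sum_congr rfl fun i _ => by ring
  have e4 : ∑ i, (a i + b i) ^ 2 = ∑ i, a i ^ 2 + 2 * ∑ i, a i * b i + ∑ i, b i ^ 2 := by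
    rw [Finset.mul_sum, ← Finset.sum_add_distrib, ← Finset.sum_add_distrib]
    exact Finset.sum_congr rfl fun i _ => by ring
  rw [e1] at h1
  rw [e2] at h2
  rw [e4] at h4
  generalize ∑ i, a i ^ 2 = A at *
  generalize ∑ i, b i ^ 2 = B at *
  generalize ∑ i, a i * b i = S at *
  obtain ⟨x, hx⟩ : ∃ x, x = α ^ 2 - A := ⟨_, rfl⟩
  obtain ⟨z, hz⟩ : ∃ z, z = β ^ 2 - B := ⟨_, rfl⟩
  obtain ⟨y, hy⟩ : ∃ y, y = α * β - S := ⟨_, rfl⟩
  obtain rfl : A = α ^ 2 - x := by rw [hx]; ring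
  obtain rfl : B = β ^ 2 - z := by rw [hz]; ring
  obtain rfl : S = α * β - y := by rw [hy]; ring
  have hy0 : y ≤ 0 := by linarith
  have hxy : 0 ≤ x + y := by nlinarith
  have hyz : 0 ≤ y + z := by nlinarith
  have hs : 0 < x + 2 * y + z := by nlinarith
  have hx0 : 0 ≤ x := by linarith
  have hz0 : 0 ≤ z := by linarith
  have k1 : -2 * (α * β) * y + y ^ 2 + α ^ 2 * z + β ^ 2 * x ≤ x * z := by nlinarith [cs]
  have k2 : x * z ≤ α ^ 2 * z := by nlinarith [mul_nonneg hA hz0]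
  have k3 : x * z ≤ β ^ 2 * x := by nlinarith [mul_nonneg hB hx0]
  have hab : 0 < α * β := mul_pos hα hβ
  have k4 : 0 ≤ -2 * (α * β) * y := by nlinarith [mul_nonneg hab.le (neg_nonneg.2 hy0)]
  have hβ2 : 0 < β ^ 2 := by positivity
  have hα2 : 0 < α ^ 2 := by positivity
  have k5 : y ^ 2 + β ^ 2 * x ≤ 0 := by linarith
  have k6 : y ^ 2 + α ^ 2 * z ≤ 0 := by linarith
  have hx1 : x = 0 := by
    by_contra hne
    have : 0 < x := lt_of_le_of_ne hx0 (Ne.symm hne)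
    nlinarith [mul_pos hβ2 this, sq_nonneg y]
  have hz1 : z = 0 := by
    by_contra hne
    have : 0 < z := lt_of_le_of_ne hz0 (Ne.symm hne)
    nlinarith [mul_pos hα2 this, sq_nonneg y]
  linarith

end ShghV
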