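import Pool.Agent.ShghV.ChainA
import Pool.Agent.ShghV.ChainB
import Pool.Agent.ShghV.Hodge

/-!
# Ramanujam vanishing, dual form
-/

namespace ShghV

open MvPolynomial ShghE

variable {k : Type*} [Field k] {ι : Type*} [Fintype ι]

/-- **Ramanujam vanishing, dual form.** Let `N = (c + 3; μ_i + 1)` be nef with `N² > 0`, and `F ≠ 0` of degree
`≤ c + 3` with multiplicities `≥ μ_i + 1`. A functional which vanishes on the polynomials of degree `≤ c` and on
`∩ I_i ^ (μ_i)` is zero.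

Proof. `F u ∈ ∩ I_i ^ (μ_i)`, so `φ (F u) = 0`. Suppose `φ ≠ 0`. Among the divisors `g` of `F` with `φ (g ·) = 0` choose
one of minimal degree `γ` (`Nat.find`); by `first_step` (if `deg F = c + 3`) `γ < c + 3`, and `γ ≥ 1` since otherwise `g` is a unit.
The divisors of `g` are divisors of `F`, so `second_step` applies to all irreducible factors of `g`, and `sum_factors` gives
`(c + 3 - γ) γ ≤ Σ (μ_i + 1 - γ_i)⁺ γ_i`, `γ_i = ord_i g`. Put `m_i = μ_i + 1`, `a_i = min γ_i m_i`,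
`b_i = (m_i - γ_i)⁺` (`a_i + b_i = m_i`, `b_i γ_i = b_i a_i`), `α = γ`, `β = c + 3 - γ > 0`. `g` has degree `α` and multiplicities
`≥ a_i`: `Σ m_i a_i ≤ (c + 3) α` by nefness. `F = g F'`, `deg F' ≤ β`, `ord_i F' = ord_i F - γ_i ≥ b_i`:
`Σ m_i b_i ≤ (c + 3) β`. Now `hodge` gives a contradiction. -/
theorem vanish [IsAlgClosed k] (P : ι → Fin 2 → k) (hP : Function.Injective P) (c : ℕ) (μ : ι → ℕ)
    (hnef : ∀ (f : MvPolynomial (Fin 2) k) (δ : ℕ) (ν : ι → ℕ), f ≠ 0 → f.totalDegree ≤ δ →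
      (∀ i, f ∈ ptIdeal (P i 0) (P i 1) ^ ν i) → ∑ i, (μ i + 1) * ν i ≤ (c + 3) * δ)
    (hbig : ∑ i, (μ i + 1) ^ 2 < (c + 3) ^ 2) (F : MvPolynomial (Fin 2) k) (hF : F ≠ 0)
    (hFd : F.totalDegree ≤ c + 3) (hFm : ∀ i, F ∈ ptIdeal (P i 0) (P i 1) ^ (μ i + 1))
    (φ : MvPolynomial (Fin 2) k →ₗ[k] k) (hφd : ∀ h, h.totalDegree ≤ c → φ h = 0)
    (hφJ : ∀ h, (∀ i, h ∈ ptIdeal (P i 0) (P i 1) ^ μ i) → φ h = 0) : φ = 0 := by
  classical
  by_contra hφ
  have hFu : ∀ u, φ (F * u) = 0 := by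
    intro u
    apply hφJ
    intro i
    exact Ideal.mul_mem_right u _ (Ideal.pow_le_pow_right (Nat.le_succ _) (hFm i))
  have hex : ∃ γ, ∃ g : MvPolynomial (Fin 2) k, g ∣ F ∧ g.totalDegree = γ ∧
      ∀ u, φ (g * u) = 0 := ⟨_, F, dvd_rfl, rfl, hFu⟩
  obtain ⟨g, hgF, hgd, hgu⟩ := Nat.find_spec hex
  have hmin : ∀ h, h ∣ F → (∀ u, φ (h * u) = 0) → g.totalDegree ≤ h.totalDegree := by
    intro h hh hu
    rw [hgd]
    exact Nat.find_min' hex ⟨h, hh, rfl, hu⟩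
  have hg0 : g ≠ 0 := by
    rintro rfl
    exact hF (zero_dvd_iff.mp hgF)
  have hlt : g.totalDegree < c + 3 := by
    rcases hFd.lt_or_eq with hlt | heq
    · exact (hmin F dvd_rfl hFu).trans_lt hlt
    · obtain ⟨h, hh, hhd, hhu⟩ := first_step P hP c μ F heq hFm φ hFu hφd hφJ
      exact (hmin h hh hhu).trans_lt hhd
  have hpos : 0 < g.totalDegree := by
    rw [Nat.pos_iff_ne_zero]
    intro h0
    apply hφ
    have hC := MvPolynomial.totalDegree_eq_zero_iff_eq_C.mp h0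
    have ha : coeff 0 g ≠ 0 := by
      intro ha
      rw [ha, C_0] at hC
      exact hg0 hC
    refine LinearMap.ext fun x => ?_
    have h1 := hgu (C (coeff 0 g)⁻¹ * x)
    rw [← mul_assoc] at h1
    nth_rewrite 1 [hC] at h1
    rw [← C_mul, mul_inv_cancel₀ ha, C_1, one_mul] at h1
    rw [h1, LinearMap.zero_apply]
  obtain ⟨F', hF'⟩ := hgF
  have hF'0 : F' ≠ 0 := by
    rintro rfl
    exact hF (by rw [hF', mul_zero])
  have hsum := sum_factors P ((c : ℤ) + 3 - g.totalDegree)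
    (fun i => ((μ i + 1 - ordAt (P i) g : ℕ) : ℤ)) g hg0 (by
      intro f hf hfg
      refine second_step P hP c μ g hg0 φ hgu ?_ hφd hφJ f hf hfg
      intro h hh hhd hu
      have := hmin h (hh.trans ⟨F', hF'⟩) hu
      omega)
  have hm1 : ∀ i, g ∈ ptIdeal (P i 0) (P i 1) ^ min (ordAt (P i) g) (μ i + 1) := by
    intro i
    rw [mem_iff_le_ordAt (P i) hg0]
    exact min_le_left _ _
  have hm2 : ∀ i, F' ∈ ptIdeal (P i 0) (P i 1) ^ (μ i + 1 - ordAt (P i) g) := by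
    intro i
    rw [mem_iff_le_ordAt (P i) hF'0]
    have h1 := (mem_iff_le_ordAt (P i) hF _).mp (hFm i)
    rw [hF', ordAt_mul (P i) hg0 hF'0] at h1
    omega
  have hn1 := hnef g g.totalDegree _ hg0 le_rfl hm1
  have hn2 := hnef F' (c + 3 - g.totalDegree) _ hF'0 (by
    have h1 := MvPolynomial.totalDegree_mul_of_isDomain hg0 hF'0
    rw [← hF'] at h1
    omega) hm2
  have hab : ∀ i, min (ordAt (P i) g) (μ i + 1) + (μ i + 1 - ordAt (P i) g) = μ i + 1 := by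
    intro i
    omega
  have hcg : ((c + 3 - g.totalDegree : ℕ) : ℤ) = (c : ℤ) + 3 - g.totalDegree := by
    rw [Nat.cast_sub hlt.le]
    push_cast
    ring
  refine hodge (g.totalDegree : ℤ) ((c : ℤ) + 3 - g.totalDegree)
    (fun i => ((min (ordAt (P i) g) (μ i + 1) : ℕ) : ℤ))
    (fun i => ((μ i + 1 - ordAt (P i) g : ℕ) : ℤ)) (by exact_mod_cast hpos) (by omega) ?_ ?_ ?_ ?_
  · have h1 : ∀ i, (((min (ordAt (P i) g) (μ i + 1) : ℕ) : ℤ) +
        ((μ i + 1 - ordAt (P i) g : ℕ) : ℤ)) * ((min (ordAt (P i) g) (μ i + 1) : ℕ) : ℤ) =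
        (((μ i + 1) * min (ordAt (P i) g) (μ i + 1) : ℕ) : ℤ) := by
      intro i
      rw [← Nat.cast_add, hab, ← Nat.cast_mul]
    simp only [h1]
    rw [← Nat.cast_sum]
    calc ((∑ i, (μ i + 1) * min (ordAt (P i) g) (μ i + 1) : ℕ) : ℤ) ≤
          (((c + 3) * g.totalDegree : ℕ) : ℤ) := by exact_mod_cast hn1
      _ = _ := by
          push_cast
          ring
  · have h1 : ∀ i, (((min (ordAt (P i) g) (μ i + 1) : ℕ) : ℤ) +
        ((μ i + 1 - ordAt (P i) g : ℕ) : ℤ)) * ((μ i + 1 - ordAt (P i) g : ℕ) : ℤ) =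
        (((μ i + 1) * (μ i + 1 - ordAt (P i) g) : ℕ) : ℤ) := by
      intro i
      rw [← Nat.cast_add, hab, ← Nat.cast_mul]
    simp only [h1]
    rw [← Nat.cast_sum]
    calc ((∑ i, (μ i + 1) * (μ i + 1 - ordAt (P i) g) : ℕ) : ℤ) ≤
          (((c + 3) * (c + 3 - g.totalDegree) : ℕ) : ℤ) := by exact_mod_cast hn2
      _ = _ := by
          rw [Nat.cast_mul, hcg]
          push_cast
          ring
  · have h1 : ∀ i, ((min (ordAt (P i) g) (μ i + 1) : ℕ) : ℤ) *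
        ((μ i + 1 - ordAt (P i) g : ℕ) : ℤ) =
        ((μ i + 1 - ordAt (P i) g : ℕ) : ℤ) * (ordAt (P i) g : ℤ) := by
      intro i
      rcases le_total (ordAt (P i) g) (μ i + 1) with h | h
      · rw [min_eq_left h, mul_comm]
      · rw [Nat.sub_eq_zero_of_le h, Nat.cast_zero, mul_zero, zero_mul]
    simp only [h1]
    rw [mul_comm]
    exact hsum
  · have h1 : ∀ i, (((min (ordAt (P i) g) (μ i + 1) : ℕ) : ℤ) +
        ((μ i + 1 - ordAt (P i) g : ℕ) : ℤ)) ^ 2 = (((μ i + 1) ^ 2 : ℕ) : ℤ) := by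
      intro i
      rw [← Nat.cast_add, hab, ← Nat.cast_pow]
    simp only [h1]
    rw [← Nat.cast_sum]
    calc ((∑ i, (μ i + 1) ^ 2 : ℕ) : ℤ) < (((c + 3) ^ 2 : ℕ) : ℤ) := by exact_mod_cast hbig
      _ = _ := by
          push_cast
          ring

end ShghV
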