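import Pool.Agent.ShghV.KLmv
import Pool.Agent.ShghV.OrdV

/-!
# First step
-/

namespace ShghV

open MvPolynomial ShghE

variable {k : Type*} [Field k] {ι : Type*} [Fintype ι]

/-- First step: if `F φ = 0`, `F ≠ 0` of degree exactly `c + 3` with multiplicities `≥ μ_i + 1`, then there is a divisor
`h` of `F` with `h φ = 0` and smaller degree. Proof: let `f` be an irreducible factor of `F` (`F` is not a unit), `F = f h`,
`ψ = φ (h ·)`. `ψ (f u) = φ (F u) = 0`. If `deg u ≤ deg f - 3` then `deg (h u) ≤ deg h + deg f - 3 = c`, so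
`ψ u = 0`. With `a_i = μ_i - ordAt (P i) h` (natural subtraction): `u ∈ ∩ I_i ^ (a_i)` implies `h u ∈ ∩ I_i ^ (μ_i)`, `ψ u = 0`.
`ord_i f + ord_i h = ord_i F ≥ μ_i + 1`, so `a_i = 0` or `a_i + 1 ≤ ord_i f`. `BL_mv`: `ψ = 0`. -/
theorem first_step [IsAlgClosed k] (P : ι → Fin 2 → k) (hP : Function.Injective P) (c : ℕ)
    (μ : ι → ℕ) (F : MvPolynomial (Fin 2) k) (hFd : F.totalDegree = c + 3)
    (hFm : ∀ i, F ∈ ptIdeal (P i 0) (P i 1) ^ (μ i + 1)) (φ : MvPolynomial (Fin 2) k →ₗ[k] k)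
    (hφF : ∀ u, φ (F * u) = 0) (hφd : ∀ h, h.totalDegree ≤ c → φ h = 0)
    (hφJ : ∀ h, (∀ i, h ∈ ptIdeal (P i 0) (P i 1) ^ μ i) → φ h = 0) :
    ∃ h, h ∣ F ∧ h.totalDegree < c + 3 ∧ ∀ u, φ (h * u) = 0 := by
  have hF0 : F ≠ 0 := by
    rintro rfl
    rw [totalDegree_zero] at hFd
    omega
  have hFu : ¬ IsUnit F := by
    intro hu
    obtain ⟨v, hv⟩ := hu.exists_right_inv
    have hv0 : v ≠ 0 := by
      rintro rfl
      rw [mul_zero] at hv
      exact zero_ne_one hv
    have h2 := totalDegree_mul_of_isDomain hF0 hv0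
    rw [hv, totalDegree_one] at h2
    omega
  obtain ⟨f, hf, h, rfl⟩ := WfDvdMonoid.exists_irreducible_factor hFu hF0
  have hf0 : f ≠ 0 := hf.ne_zero
  have hh0 : h ≠ 0 := right_ne_zero_of_mul hF0
  have hdeg := totalDegree_mul_of_isDomain hf0 hh0
  have hfd : 1 ≤ f.totalDegree := by
    rw [Nat.one_le_iff_ne_zero]
    intro h0
    have h1 := totalDegree_eq_zero_iff_eq_C.1 h0
    apply hf.not_isUnit
    rw [h1]
    refine IsUnit.map C (isUnit_iff_ne_zero.2 ?_)
    intro h2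
    apply hf0
    rw [h1, h2, C_0]
  refine ⟨h, Dvd.intro_left _ rfl, by omega, ?_⟩
  have key := BL_mv f hf P hP (fun i => ordAt (P i) f) (fun i => μ i - ordAt (P i) h)
    (fun i => (mem_iff_le_ordAt (P i) hf0 _).2 le_rfl)
    (fun i hi => by
      have := (mem_iff_le_ordAt (P i) hf0 _).1 hi
      omega)
    (fun i => by
      have h1 := (mem_iff_le_ordAt (P i) hF0 _).1 (hFm i)
      rw [ordAt_mul (P i) hf0 hh0] at h1
      show μ i - ordAt (P i) h = 0 ∨ μ i - ordAt (P i) h + 1 ≤ ordAt (P i) f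
      omega)
    (φ ∘ₗ LinearMap.mulLeft k h) ?_ ?_ ?_
  · intro u
    have := congrArg (fun G : MvPolynomial (Fin 2) k →ₗ[k] k => G u) key
    simpa using this
  · intro u
    rw [LinearMap.comp_apply, LinearMap.mulLeft_apply,
      show h * (f * u) = f * h * u by ring]
    exact hφF u
  · intro u hu
    rw [LinearMap.comp_apply, LinearMap.mulLeft_apply]
    refine hφd _ (le_trans (totalDegree_mul _ _) ?_)
    omega
  · intro u hu
    rw [LinearMap.comp_apply, LinearMap.mulLeft_apply]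
    refine hφJ _ fun i => ?_
    by_cases hu0 : u = 0
    · rw [hu0, mul_zero]
      exact Ideal.zero_mem _
    · rw [mem_iff_le_ordAt (P i) (mul_ne_zero hh0 hu0), ordAt_mul (P i) hh0 hu0]
      have h1 := (mem_iff_le_ordAt (P i) hu0 _).1 (hu i)
      omega

end ShghV
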