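import Pool.Agent.ShghV.Td
import Pool.Agent.ShghE.CurveDefs

/-!
# Change of coordinates: from `k[x][y]` to `MvPolynomial (Fin 2) k`
-/

namespace ShghV

open ShghE

open Polynomial

variable {k : Type*} [Field k]

/-- `X 0 ↦ x + t y`, `X 1 ↦ y`. -/
noncomputable def Phi (t : k) : MvPolynomial (Fin 2) k →ₐ[k] k[X][X] :=
  MvPolynomial.aeval ![C X + C (C t) * X, X]

/-- `x ↦ X 0 - t X 1`, `y ↦ X 1`. -/
noncomputable def Psi (t : k) : k[X][X] →ₐ[k] MvPolynomial (Fin 2) k :=
  aevalTower (aeval (MvPolynomial.X 0 - MvPolynomial.C t * MvPolynomial.X 1)) (MvPolynomial.X 1)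

theorem Phi_C (t r : k) : Phi t (MvPolynomial.C r) = C (C r) := by
  unfold Phi
  rw [MvPolynomial.aeval_C]
  rfl

theorem Phi_X0 (t : k) : Phi t (MvPolynomial.X 0) = C X + C (C t) * X := by
  unfold Phi
  rw [MvPolynomial.aeval_X]
  rfl

theorem Phi_X1 (t : k) : Phi t (MvPolynomial.X 1) = X := by
  unfold Phi
  rw [MvPolynomial.aeval_X]
  rfl

theorem Psi_CC (t r : k) : Psi t (C (C r)) = MvPolynomial.C r := by
  unfold Psi
  rw [aevalTower_C, aeval_C]
  rfl

theorem Psi_CX (t : k) :
    Psi t (C X) = MvPolynomial.X 0 - MvPolynomial.C t * MvPolynomial.X 1 := by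
  unfold Psi
  rw [aevalTower_C, aeval_X]

theorem Psi_X (t : k) : Psi t X = MvPolynomial.X 1 := by
  unfold Psi
  rw [aevalTower_X]

/-- Compare on `C`, `x`, `y`. -/
theorem Phi_Psi (t : k) (p : k[X][X]) : Phi t (Psi t p) = p := by
  have h : ((Phi t).comp (Psi t)).toRingHom = RingHom.id k[X][X] := by
    refine ringHom_ext' (ringHom_ext' ?_ ?_) ?_
    · ext1 r
      show Phi t (Psi t (C (C r))) = C (C r)
      rw [Psi_CC, Phi_C]
    · show Phi t (Psi t (C X)) = C X
      rw [Psi_CX, map_sub, map_mul, Phi_X0, Phi_X1, Phi_C]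
      ring
    · show Phi t (Psi t X) = X
      rw [Psi_X, Phi_X1]
  exact congrArg (fun F : k[X][X] →+* k[X][X] => F p) h

/-- Compare on `X 0`, `X 1` (`MvPolynomial.algHom_ext`). -/
theorem Psi_Phi (t : k) (f : MvPolynomial (Fin 2) k) : Psi t (Phi t f) = f := by
  have h : (Psi t).comp (Phi t) = AlgHom.id k (MvPolynomial (Fin 2) k) := by
    refine MvPolynomial.algHom_ext fun i => ?_
    fin_cases i
    · show Psi t (Phi t (MvPolynomial.X 0)) = MvPolynomial.X 0
      rw [Phi_X0, map_add, map_mul, Psi_CX, Psi_CC, Psi_X]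
      ring
    · show Psi t (Phi t (MvPolynomial.X 1)) = MvPolynomial.X 1
      rw [Phi_X1, Psi_X]
  exact congrArg (fun F : MvPolynomial (Fin 2) k →ₐ[k] MvPolynomial (Fin 2) k => F f) h

theorem TD_pow {m : ℤ} {p : k[X][X]} (hp : TD m p) (j : ℕ) : TD (j * m) (p ^ j) := by
  induction j with
  | zero =>
    rw [pow_zero, Nat.cast_zero, zero_mul]
    exact TD_C 1 (by simp)
  | succ j ih =>
    rw [pow_succ]
    refine (ih.mul hp).mono (le_of_eq ?_)
    push_cast
    ring

/-- Expand in monomials: `(x + t y) ^ i y ^ j` has total degree `≤ i + j` (`TD.mul`, `TD.add`). -/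
theorem TD_Phi (t : k) (f : MvPolynomial (Fin 2) k) (n : ℕ) (h : f.totalDegree ≤ n) :
    TD n (Phi t f) := by
  have hlin : TD 1 (C X + C (C t) * X : k[X][X]) := by
    refine TD.add (TD_C X (by simp)) ?_
    exact ((TD_C (C t) (n := 0) (by simp)).mul TD_X).mono (by norm_num)
  rw [f.as_sum, map_sum]
  refine TD.sum _ _ fun v hv => ?_
  have hv1 : v 0 + v 1 ≤ n := by
    have h1 := MvPolynomial.le_totalDegree hv
    rw [Finsupp.sum_fintype _ _ (fun _ => rfl), Fin.sum_univ_two] at h1
    omega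
  have h2 : Phi t (MvPolynomial.monomial v (MvPolynomial.coeff v f)) =
      C (C (MvPolynomial.coeff v f)) * ((C X + C (C t) * X) ^ v 0 * X ^ v 1) := by
    rw [MvPolynomial.monomial_eq, Finsupp.prod_fintype _ _ (fun _ => pow_zero _),
      Fin.prod_univ_two, map_mul, map_mul, map_pow, map_pow, Phi_C, Phi_X0, Phi_X1]
  rw [h2]
  refine ((TD_C _ (n := 0) (by simp)).mul ((TD_pow hlin (v 0)).mul (TD_X_pow (v 1)))).mono ?_
  have : (v 0 : ℤ) + v 1 ≤ n := by exact_mod_cast hv1
  linarith

/-- Expand in monomials: `(X 0 - t X 1) ^ a X 1 ^ b` has total degree `≤ a + b`. -/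
theorem totalDegree_Psi (t : k) (p : k[X][X]) (n : ℕ) (h : TD n p) : (Psi t p).totalDegree ≤ n := by
  rw [← MvPolynomial.mem_restrictTotalDegree]
  have h1 : p = ∑ b ∈ Finset.range (p.natDegree + 1),
      ∑ a ∈ Finset.range ((p.coeff b).natDegree + 1),
        C (C ((p.coeff b).coeff a)) * (C X ^ a * X ^ b) := by
    conv_lhs => rw [as_sum_range_C_mul_X_pow p]
    refine Finset.sum_congr rfl fun b _ => ?_
    conv_lhs => rw [as_sum_range_C_mul_X_pow (p.coeff b)]
    rw [map_sum, Finset.sum_mul]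
    refine Finset.sum_congr rfl fun a _ => ?_
    rw [C_mul, C_pow, mul_assoc]
  rw [h1, map_sum]
  refine Submodule.sum_mem _ fun b _ => ?_
  rw [map_sum]
  refine Submodule.sum_mem _ fun a _ => ?_
  by_cases h0 : (p.coeff b).coeff a = 0
  · rw [h0, C_0, C_0, zero_mul, map_zero]
    exact Submodule.zero_mem _
  have hab : a + b ≤ n := by
    by_contra hlt
    exact h0 (h a b (by exact_mod_cast not_le.1 hlt))
  rw [MvPolynomial.mem_restrictTotalDegree, map_mul, map_mul, map_pow, map_pow, Psi_CC, Psi_CX,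
    Psi_X]
  refine le_trans (MvPolynomial.totalDegree_mul _ _) ?_
  rw [MvPolynomial.totalDegree_C, zero_add]
  refine le_trans (MvPolynomial.totalDegree_mul _ _) ?_
  have h3 : (MvPolynomial.X 0 - MvPolynomial.C t * MvPolynomial.X 1 :
      MvPolynomial (Fin 2) k).totalDegree ≤ 1 := by
    refine le_trans (MvPolynomial.totalDegree_sub _ _) (max_le ?_ ?_)
    · rw [MvPolynomial.totalDegree_X]
    · refine le_trans (MvPolynomial.totalDegree_mul _ _) ?_
      rw [MvPolynomial.totalDegree_C, MvPolynomial.totalDegree_X]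
  have h4 := MvPolynomial.totalDegree_pow
    (MvPolynomial.X 0 - MvPolynomial.C t * MvPolynomial.X 1 : MvPolynomial (Fin 2) k) a
  have h5 := MvPolynomial.totalDegree_pow (MvPolynomial.X 1 : MvPolynomial (Fin 2) k) b
  rw [MvPolynomial.totalDegree_X] at h5
  have h6 := Nat.mul_le_mul_left a h3
  omega

/-- `Phi t` maps the ideal of the point `(a, b)` onto the ideal of the point `(a - t b, b)`
(`Ideal.map_pow`, `Ideal.map_span`; `X 0 - a ↦ (x - (a - t b)) + t (y - b)`), `Phi_Psi`, `Psi_Phi`. -/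
theorem mem_Phi (t a b : k) (m : ℕ) (f : MvPolynomial (Fin 2) k) :
    f ∈ ptIdeal a b ^ m ↔ Phi t f ∈ pI (a - t * b) b ^ m := by
  have hx : (C (X - C (a - t * b)) : k[X][X]) ∈ pI (a - t * b) b := Ideal.subset_span (by simp)
  have hy : (X - C (C b) : k[X][X]) ∈ pI (a - t * b) b := Ideal.subset_span (by simp)
  have hX : (MvPolynomial.X 0 - MvPolynomial.C a : MvPolynomial (Fin 2) k) ∈ ptIdeal a b :=
    Ideal.subset_span (by simp)
  have hY : (MvPolynomial.X 1 - MvPolynomial.C b : MvPolynomial (Fin 2) k) ∈ ptIdeal a b :=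
    Ideal.subset_span (by simp)
  constructor
  · intro hf
    have h1 : Ideal.map (Phi t) (ptIdeal a b) ≤ pI (a - t * b) b := by
      rw [ptIdeal, Ideal.map_span, Ideal.span_le]
      rintro _ ⟨g, hg, rfl⟩
      rcases hg with rfl | hg
      · have h2 : Phi t (MvPolynomial.X 0 - MvPolynomial.C a) =
            C (X - C (a - t * b)) + C (C t) * (X - C (C b)) := by
          rw [map_sub, Phi_X0, Phi_C]
          simp only [C_sub, C_mul]
          ring
        show Phi t (MvPolynomial.X 0 - MvPolynomial.C a) ∈ _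
        rw [h2]
        exact Ideal.add_mem _ hx (Ideal.mul_mem_left _ _ hy)
      · rw [Set.mem_singleton_iff] at hg
        subst hg
        show Phi t (MvPolynomial.X 1 - MvPolynomial.C b) ∈ _
        rw [map_sub, Phi_X1, Phi_C]
        exact hy
    have h3 := Ideal.mem_map_of_mem (Phi t) hf
    rw [Ideal.map_pow] at h3
    exact Ideal.pow_right_mono h1 m h3
  · intro hf
    have h1 : Ideal.map (Psi t) (pI (a - t * b) b) ≤ ptIdeal a b := by
      rw [pI, Ideal.map_span, Ideal.span_le]
      rintro _ ⟨g, hg, rfl⟩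
      rcases hg with rfl | hg
      · have h2 : Psi t (C (X - C (a - t * b))) =
            (MvPolynomial.X 0 - MvPolynomial.C a) -
              MvPolynomial.C t * (MvPolynomial.X 1 - MvPolynomial.C b) := by
          rw [C_sub, map_sub, Psi_CX, Psi_CC]
          simp only [MvPolynomial.C_sub, MvPolynomial.C_mul]
          ring
        show Psi t (C (X - C (a - t * b))) ∈ _
        rw [h2]
        exact Ideal.sub_mem _ hX (Ideal.mul_mem_left _ _ hY)
      · rw [Set.mem_singleton_iff] at hg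
        subst hg
        show Psi t (X - C (C b)) ∈ _
        rw [map_sub, Psi_X, Psi_CC]
        exact hY
    have h3 := Ideal.mem_map_of_mem (Psi t) hf
    rw [Ideal.map_pow, Psi_Phi] at h3
    exact Ideal.pow_right_mono h1 m h3

end ShghV
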