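import Pool.Agent.ShghV.Coord

/-!
# Good coordinates
-/

namespace ShghV

open ShghE

open Polynomial

variable {k : Type*} [Field k]

/-- The leading form of `f`, evaluated at `(T, 1)`. -/
noncomputable def tauP (f : MvPolynomial (Fin 2) k) : k[X] :=
  ∑ v ∈ f.support.filter (fun v => v 0 + v 1 = f.totalDegree),
    C (MvPolynomial.coeff v f) * X ^ v 0

theorem sum_le_totalDegree (f : MvPolynomial (Fin 2) k) (v : Fin 2 →₀ ℕ) (hv : v ∈ f.support) :
    v 0 + v 1 ≤ f.totalDegree := by
  have h1 := MvPolynomial.le_totalDegree hv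
  rwa [Finsupp.sum_fintype _ _ (fun _ => rfl), Fin.sum_univ_two] at h1

theorem Phi_coeff (t : k) (f : MvPolynomial (Fin 2) k) :
    (Phi t f).coeff f.totalDegree = C ((tauP f).eval t) := by
  set q : k[X][X] := C X + C (C t) * X with hq
  have hqd : q.natDegree ≤ 1 := by
    rw [hq]
    compute_degree
  have hq1 : q.coeff 1 = C t := by
    rw [hq]
    simp [coeff_C]
  have hlead : ∀ i : ℕ, (q ^ i).coeff i = C (t ^ i) := by
    intro i
    have := coeff_pow_of_natDegree_le (m := i) hqd
    rw [mul_one] at this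
    rw [this, hq1, C_pow]
  have hhigh : ∀ i j : ℕ, i < j → (q ^ i).coeff j = 0 := by
    intro i j hij
    refine coeff_eq_zero_of_natDegree_lt (lt_of_le_of_lt natDegree_pow_le ?_)
    have := Nat.mul_le_mul_left i hqd
    omega
  conv_lhs => rw [f.as_sum, map_sum, finsetSum_coeff]
  unfold tauP
  rw [eval_finsetSum, map_sum, Finset.sum_filter]
  refine Finset.sum_congr rfl fun v hv => ?_
  have hv1 := sum_le_totalDegree f v hv
  have h2 : Phi t (MvPolynomial.monomial v (MvPolynomial.coeff v f)) =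
      C (C (MvPolynomial.coeff v f)) * (q ^ v 0 * X ^ v 1) := by
    rw [MvPolynomial.monomial_eq, Finsupp.prod_fintype _ _ (fun _ => pow_zero _),
      Fin.prod_univ_two, map_mul, map_mul, map_pow, map_pow, Phi_C, Phi_X0, Phi_X1]
  rw [← f.as_sum, h2, coeff_C_mul, coeff_mul_X_pow', if_pos (by omega)]
  split_ifs with h3
  · rw [show f.totalDegree - v 1 = v 0 by omega, hlead, eval_mul, eval_C, eval_pow, eval_X, C_mul]
  · rw [hhigh _ _ (by omega), mul_zero]

theorem tauP_ne_zero (f : MvPolynomial (Fin 2) k) (hf : f ≠ 0) : tauP f ≠ 0 := by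
  classical
  obtain ⟨v, hv, hvd⟩ : ∃ v ∈ f.support, v 0 + v 1 = f.totalDegree := by
    obtain ⟨v, hv, h⟩ := Finset.exists_mem_eq_sup f.support
      (MvPolynomial.support_nonempty.2 hf) (fun s => s.sum fun _ e => e)
    refine ⟨v, hv, ?_⟩
    have h1 : f.totalDegree = v.sum fun _ e => e := h
    rw [h1, Finsupp.sum_fintype _ _ (fun _ => rfl), Fin.sum_univ_two]
  intro h0
  have h1 := congrArg (fun p => coeff p (v 0)) h0
  unfold tauP at h1
  simp only [finsetSum_coeff, coeff_C_mul, coeff_X_pow, coeff_zero, mul_ite, mul_one,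
    mul_zero] at h1
  rw [Finset.sum_eq_single v] at h1
  · rw [if_pos rfl] at h1
    exact (MvPolynomial.mem_support_iff.1 hv) h1
  · intro w hw hwv
    rw [if_neg]
    intro h2
    apply hwv
    rw [Finset.mem_filter] at hw
    ext i
    fin_cases i
    · exact h2.symm
    · show w 1 = v 1
      omega
  · intro h2
    exact absurd (Finset.mem_filter.2 ⟨hv, hvd⟩) h2

/-- Good coordinates: for all but finitely many `t` the polynomial `Phi t f` has the full degree
`δ = totalDegree f` in `y`, and the points have different `x`-coordinates. Proof: the coefficient of `y ^ δ` in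
`Phi t f` is the constant `τ(t) = Σ_{a + b = δ} f_ab t ^ a`, and `τ` is a nonzero polynomial in `t` (a monomial
`(a, b)` with `a + b = δ` is determined by `a`, and some `f_ab ≠ 0` with `a + b = δ`,
`MvPolynomial.exists_degree_eq...` or `totalDegree` as a supremum over the support); for each pair
`i ≠ j` there is at most one `t` with `P i 0 - t * P i 1 = P j 0 - t * P j 1`. `k` is infinite. -/
theorem exists_good [Infinite k] {ι : Type*} [Fintype ι] (P : ι → Fin 2 → k)
    (hP : Function.Injective P) (f : MvPolynomial (Fin 2) k) (hf : f ≠ 0) :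
    ∃ t : k, (∃ c : k, c ≠ 0 ∧ (Phi t f).coeff f.totalDegree = C c) ∧
      Function.Injective (fun i => P i 0 - t * P i 1) := by
  classical
  let ρ : ι × ι → k[X] := fun q => C (P q.1 0 - P q.2 0) - C (P q.1 1 - P q.2 1) * X
  have hρ : ∀ q ∈ Finset.univ.filter (fun q : ι × ι => q.1 ≠ q.2), ρ q ≠ 0 := by
    intro q hq h0
    rw [Finset.mem_filter] at hq
    apply hq.2
    apply hP
    have h1 := congrArg (fun p => coeff p 0) h0
    have h2 := congrArg (fun p => coeff p 1) h0
    simp only [ρ, coeff_sub, coeff_C_mul, coeff_C_zero, coeff_X_zero, mul_zero, sub_zero,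
      coeff_zero] at h1
    simp only [ρ, coeff_sub, coeff_C_mul, coeff_X_one, mul_one, coeff_zero, coeff_C,
      one_ne_zero, if_false, zero_sub, neg_eq_zero] at h2
    ext i
    fin_cases i
    · exact sub_eq_zero.1 h1
    · exact sub_eq_zero.1 h2
  have hne : tauP f * ∏ q ∈ Finset.univ.filter (fun q : ι × ι => q.1 ≠ q.2), ρ q ≠ 0 :=
    mul_ne_zero (tauP_ne_zero f hf) (Finset.prod_ne_zero_iff.2 hρ)
  obtain ⟨t, ht⟩ : ∃ t : k,
      (tauP f * ∏ q ∈ Finset.univ.filter (fun q : ι × ι => q.1 ≠ q.2), ρ q).eval t ≠ 0 := by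
    by_contra hcon
    push Not at hcon
    exact hne (Polynomial.funext fun t => by rw [hcon t, eval_zero])
  rw [eval_mul, eval_prod] at ht
  refine ⟨t, ⟨(tauP f).eval t, left_ne_zero_of_mul ht, Phi_coeff t f⟩, ?_⟩
  intro i j hij
  by_contra hne'
  have h1 := Finset.prod_ne_zero_iff.1 (right_ne_zero_of_mul ht) (i, j)
    (Finset.mem_filter.2 ⟨Finset.mem_univ _, hne'⟩)
  apply h1
  simp only [ρ, eval_sub, eval_mul, eval_C, eval_X]
  have h2 : P i 0 - t * P i 1 = P j 0 - t * P j 1 := hij
  linear_combination h2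

end ShghV
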