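import Mathlib

/-!
# Elementary Ramanujam vanishing: definitions

`k[X][X]` is the ring `k[x][y]` (inner variable `x`, outer variable `y`).
-/

namespace ShghV

open Polynomial

variable {k : Type*} [Field k]

/-- `p ∈ k[x][y]` has total degree at most `n` (`n` an integer; `p = 0` if `n < 0`). -/
def TD (n : ℤ) (p : k[X][X]) : Prop := ∀ a b : ℕ, n < a + b → (p.coeff b).coeff a = 0

/-- The ideal `(x - a, y - b)` of `k[x][y]`. -/
noncomputable def pI (a b : k) : Ideal k[X][X] := Ideal.span {C (X - C a), X - C (C b)}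

/-- The coefficient of `T ^ (n - 1)` of `p mod g`, where `g` is monic of degree `n`. -/
noncomputable def lam {R : Type*} [CommRing R] (g p : R[X]) : R := (p %ₘ g).coeff (g.natDegree - 1)

/-- The dual basis of `1, T, ..., T ^ (n - 1)` with respect to `lam g`:
`dualb g j = Σ_i g_(i + j + 1) T ^ i`. -/
noncomputable def dualb {R : Type*} [CommRing R] (g : R[X]) (j : ℕ) : R[X] :=
  ∑ i ∈ Finset.range (g.natDegree - j), C (g.coeff (i + j + 1)) * X ^ i

/-- The norm of `v` modulo `f` (from `k[x][y] / f` to `k[x]`). -/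
noncomputable def Nf (f v : k[X][X]) : k[X] := Algebra.norm k[X] (AdjoinRoot.mk f v)

/-- The chart `y - b = (x - a) Y` of the blow-up: `p ↦ p(a + T, b + T Y) ∈ k[Y][T]`
(in the target the inner variable is `Y`, the outer variable is `T`). -/
noncomputable def beta (a b : k) : k[X][X] →+* k[X][X] :=
  eval₂RingHom (eval₂RingHom ((C : k[X] →+* k[X][X]).comp C) (C (C a) + X)) (C (C b) + X * C X)

end ShghV
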