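import Pool.Agent.ShghV.DualA

/-!
# Functionals on `k[x][y] / (q, f)`
-/

namespace ShghV

open Polynomial

variable {k : Type*} [Field k]

section
variable {R : Type*} [CommRing R]

/-- `lam g` as a linear map. -/
noncomputable def Dual_L (g : R[X]) : R[X] →ₗ[R] R :=
  (lcoeff R (g.natDegree - 1)).comp (modByMonicHom g)

theorem Dual_L_apply (g p : R[X]) : Dual_L g p = lam g p := rfl

theorem Dual_C_mul (g : R[X]) (r : R) (p : R[X]) : lam g (C r * p) = r * lam g p := by
  rw [← smul_eq_C_mul, ← Dual_L_apply, map_smul, smul_eq_mul, Dual_L_apply]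

theorem Dual_add (g p p' : R[X]) : lam g (p + p') = lam g p + lam g p' := by
  rw [← Dual_L_apply, map_add, Dual_L_apply, Dual_L_apply]

theorem Dual_sum {ι : Type*} (g : R[X]) (s : Finset ι) (p : ι → R[X]) :
    lam g (∑ i ∈ s, p i) = ∑ i ∈ s, lam g (p i) := by
  rw [← Dual_L_apply, map_sum]
  rfl

theorem Dual_zero (g : R[X]) : lam g 0 = 0 := by
  rw [← Dual_L_apply, map_zero]

theorem Dual_self_mul (g : R[X]) (hg : g.Monic) (p : R[X]) : lam g (g * p) = 0 := by
  rw [lam, self_mul_modByMonic hg, coeff_zero]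

/-- Expansion of a polynomial of small degree. -/
theorem Dual_expand [Nontrivial R] (g : R[X]) (hg : g.Monic) (hg0 : g.natDegree ≠ 0) (p : R[X]) :
    p = g * (p /ₘ g) + ∑ i ∈ Finset.range g.natDegree, C ((p %ₘ g).coeff i) * X ^ i := by
  have h1 : (p %ₘ g).natDegree < g.natDegree :=
    natDegree_modByMonic_lt p hg (fun h => hg0 (by rw [h, natDegree_one]))
  have h2 := as_sum_range_C_mul_X_pow' (p %ₘ g) h1
  rw [← h2, add_comm]
  exact (modByMonic_add_div p g).symm

end

/-- Degree of the dual basis. -/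
theorem Dual_natDegree (q : k[X]) (a : ℕ) (ha : a < q.natDegree) :
    ((dualb q a).natDegree : ℤ) ≤ q.natDegree - 1 - a := by
  have h1 : (dualb q a).natDegree ≤ q.natDegree - 1 - a := by
    rw [dualb]
    refine natDegree_sum_le_of_forall_le _ _ fun i hi => ?_
    refine (natDegree_C_mul_X_pow_le _ _).trans ?_
    have := Finset.mem_range.1 hi
    omega
  omega

theorem Dual_TD (f : k[X][X]) (hfT : TD f.natDegree f) (j : ℕ) :
    TD (f.natDegree - 1 - j) (dualb f j) := by
  rw [dualb]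
  refine TD.sum _ _ fun i _ => ?_
  by_cases h : f.coeff (i + j + 1) = 0
  · rw [h, C_0, zero_mul]
    exact TD_zero _
  · have h1 := hfT.coeff_natDegree (i + j + 1) h
    refine ((TD_C _ (n := (f.natDegree : ℤ) - 1 - j - i) ?_).mul (TD_X_pow i)).mono (by omega)
    push_cast at h1
    omega

/-- The element representing the functional. -/
noncomputable def Dual_v (f : k[X][X]) (q : k[X]) (ψ : k[X][X] →ₗ[k] k) : k[X][X] :=
  ∑ a ∈ Finset.range q.natDegree, ∑ j ∈ Finset.range f.natDegree,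
    C (C (ψ (C (X ^ a) * X ^ j))) * (C (dualb q a) * dualb f j)

theorem Dual_v_TD (f : k[X][X]) (hfT : TD f.natDegree f) (q : k[X])
    (ψ : k[X][X] →ₗ[k] k) (N : ℤ) (hN : ∀ h, TD N h → ψ h = 0) :
    TD (q.natDegree + f.natDegree - 3 - N) (Dual_v f q ψ) := by
  rw [Dual_v]
  refine TD.sum _ _ fun a ha => TD.sum _ _ fun j hj => ?_
  by_cases h : (a : ℤ) + j ≤ N
  · rw [hN _ ((TD_monomial a j).mono h), C_0, C_0, zero_mul]
    exact TD_zero _
  · have h1 : TD 0 (C (C (ψ (C (X ^ a) * X ^ j))) : k[X][X]) := TD_C _ (by simp)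
    have h2 : TD (q.natDegree - 1 - a) (C (dualb q a) : k[X][X]) :=
      TD_C _ (Dual_natDegree q a (Finset.mem_range.1 ha))
    exact (h1.mul (h2.mul (Dual_TD f hfT j))).mono (by omega)

theorem Dual_formula0 (f : k[X][X]) (hf : f.Monic) (q : k[X]) (hq : q.Monic)
    (ψ : k[X][X] →ₗ[k] k) (b l : ℕ) (hb : b < q.natDegree) (hl : l < f.natDegree) :
    lam q (lam f (Dual_v f q ψ * (C (X ^ b) * X ^ l))) = ψ (C (X ^ b) * X ^ l) := by
  have h1 : Dual_v f q ψ * (C (X ^ b) * X ^ l) = ∑ a ∈ Finset.range q.natDegree,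
      ∑ j ∈ Finset.range f.natDegree, C (C (ψ (C (X ^ a) * X ^ j)) * (X ^ b * dualb q a)) *
        (X ^ l * dualb f j) := by
    rw [Dual_v, Finset.sum_mul]
    refine Finset.sum_congr rfl fun a _ => ?_
    rw [Finset.sum_mul]
    refine Finset.sum_congr rfl fun j _ => ?_
    rw [C_mul, C_mul]
    ring
  rw [h1, Dual_sum]
  have h2 : ∀ a ∈ Finset.range q.natDegree, lam f (∑ j ∈ Finset.range f.natDegree,
      C (C (ψ (C (X ^ a) * X ^ j)) * (X ^ b * dualb q a)) * (X ^ l * dualb f j)) =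
      C (ψ (C (X ^ a) * X ^ l)) * (X ^ b * dualb q a) := by
    intro a _
    rw [Dual_sum, Finset.sum_eq_single l]
    · rw [Dual_C_mul, lam_dualb f hf l l hl hl, if_pos rfl, mul_one]
    · intro j hj hjl
      rw [Dual_C_mul, lam_dualb f hf j l (Finset.mem_range.1 hj) hl, if_neg hjl, mul_zero]
    · intro h
      exact absurd (Finset.mem_range.2 hl) h
  rw [Finset.sum_congr rfl h2, Dual_sum, Finset.sum_eq_single b]
  · rw [Dual_C_mul, lam_dualb q hq b b hb hb, if_pos rfl, mul_one]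
  · intro a ha hab
    rw [Dual_C_mul, lam_dualb q hq a b (Finset.mem_range.1 ha) hb, if_neg hab, mul_zero]
  · intro h
    exact absurd (Finset.mem_range.2 hb) h

theorem Dual_psi_C (ψ : k[X][X] →ₗ[k] k) (c : k) (h : k[X][X]) : ψ (C (C c) * h) = c * ψ h := by
  have h1 : C (C c) * h = c • h := by
    ext i j
    simp
  rw [h1, map_smul, smul_eq_mul]

theorem Dual_formula (f : k[X][X]) (hf : f.Monic) (q : k[X]) (hq : q.Monic)
    (ψ : k[X][X] →ₗ[k] k) (hψf : ∀ h, ψ (f * h) = 0) (hψq : ∀ h, ψ (C q * h) = 0)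
    (hf0 : f.natDegree ≠ 0) (hq0 : q.natDegree ≠ 0) (h : k[X][X]) :
    lam q (lam f (Dual_v f q ψ * h)) = ψ h := by
  set v := Dual_v f q ψ with hv
  -- powers of `y` with coefficients
  have h1 : ∀ (c : k[X]) (l : ℕ), l < f.natDegree →
      lam q (lam f (v * (C c * X ^ l))) = ψ (C c * X ^ l) := by
    intro c l hl
    conv_lhs => rw [Dual_expand q hq hq0 c]
    conv_rhs => rw [Dual_expand q hq hq0 c]
    have e1 : ∀ c' : k[X], v * (C (q * (c /ₘ q) + c') * X ^ l) =
        C q * (v * (C (c /ₘ q) * X ^ l)) + v * (C c' * X ^ l) := by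
      intro c'
      rw [C_add, C_mul]
      ring
    have e2 : ∀ c' : k[X], C (q * (c /ₘ q) + c') * X ^ l =
        C q * (C (c /ₘ q) * X ^ l) + C c' * X ^ l := by
      intro c'
      rw [C_add, C_mul]
      ring
    rw [e1, e2, Dual_add, Dual_C_mul, Dual_add, Dual_self_mul q hq, zero_add, map_add, hψq,
      zero_add]
    have e3 : C (∑ i ∈ Finset.range q.natDegree, C ((c %ₘ q).coeff i) * X ^ i) * X ^ l =
        ∑ i ∈ Finset.range q.natDegree, C (C ((c %ₘ q).coeff i)) * (C (X ^ i) * X ^ l) := by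
      rw [map_sum, Finset.sum_mul]
      refine Finset.sum_congr rfl fun i _ => ?_
      rw [C_mul, mul_assoc]
    rw [e3, Finset.mul_sum, Dual_sum, Dual_sum, map_sum]
    refine Finset.sum_congr rfl fun i hi => ?_
    rw [mul_left_comm, Dual_C_mul, Dual_C_mul, Dual_psi_C,
      Dual_formula0 f hf q hq ψ i l (Finset.mem_range.1 hi) hl]
  conv_lhs => rw [Dual_expand f hf hf0 h]
  conv_rhs => rw [Dual_expand f hf hf0 h]
  rw [mul_add, mul_left_comm, Dual_add, Dual_self_mul f hf, zero_add, map_add, hψf, zero_add,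
    Finset.mul_sum, Dual_sum, Dual_sum, map_sum]
  exact Finset.sum_congr rfl fun i hi => h1 _ i (Finset.mem_range.1 hi)

/-- **Representation of functionals.** Let `f` be monic in `y` of degree `δ` and of total degree `δ`, `q ∈ k[x]`
monic, `ψ : k[x][y] → k` linear, zero on the multiples of `f`, on the multiples of `q` and on the polynomials of
total degree `≤ N`. Then there is a `v` of total degree `≤ deg q + δ - 3 - N` such that
(i) if `ψ` vanishes on all multiples of `h` then `v h ∈ (q, f)`; (ii) if `v ∈ (q, f)` then `ψ = 0`.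

Proof. If `natDegree q = 0` then `q = 1`, `ψ = 0`, take `v = 0`. Similarly if `δ = 0`, `f = 1`. Otherwise let
`Q = natDegree q` and `v = Σ_{a < Q, j < δ} ψ (x ^ a y ^ j) · C (dualb q a) · dualb f j`.
Degrees: `C (dualb q a)` has total degree `≤ Q - 1 - a`, `dualb f j` has total degree `≤ δ - 1 - j` (its coefficient
of `y ^ i` is `f_(i+j+1)`, of degree `≤ δ - (i + j + 1)` because of `TD δ f`), and `ψ (x ^ a y ^ j) = 0` if
`a + j ≤ N`. So all terms have total degree `≤ Q + δ - 2 - (N + 1)`.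
Formula: `ψ h = lam q (lam f (v h))` for all `h`. Both sides are linear in `h` and vanish on the multiples of `f` and of
`C q` (`lam f (C q * p) = q * lam f p`; `lam q (q * r) = 0`). Modulo `(q, f)` every `h` is a linear combination of the
`x ^ b y ^ l`, `b < Q`, `l < δ` (`h - h %ₘ f ∈ (f)`, the coefficients of `h %ₘ f` may be reduced modulo `q`), and for these
`lam f (x ^ b * C (dualb q a) * dualb f j * y ^ l) = x ^ b * dualb q a` if `j = l`, otherwise `0` (`lam_dualb` over
`R = k[x]`), and `lam q (x ^ b * dualb q a) = 1` if `a = b`, otherwise `0` (`lam_dualb` over `k`).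
(i) Let `ψ (h g) = 0` for all `g`. For all `a, j`: `lam q (x ^ a * lam f (y ^ j * (v h))) = ψ (h * x ^ a y ^ j) = 0`, so
`q ∣ lam f (y ^ j * (v h))` (`coeff_mem_of_lam` for `q` with `I = 0`), hence all coefficients of `(v h) %ₘ f` are
divisible by `q` (`coeff_mem_of_lam` for `f` with `I = (q)`), and `v h = f * (v h /ₘ f) + (v h) %ₘ f`.
(ii) If `v = C q * u + f * w` then `ψ h = lam q (lam f (C q * (u h) + f * (w h))) = lam q (q * lam f (u h)) = 0`. -/
theorem dual_exists (f : k[X][X]) (hf : f.Monic) (hfT : TD f.natDegree f) (q : k[X]) (hq : q.Monic)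
    (ψ : k[X][X] →ₗ[k] k) (hψf : ∀ h, ψ (f * h) = 0) (hψq : ∀ h, ψ (C q * h) = 0) (N : ℤ)
    (hN : ∀ h, TD N h → ψ h = 0) :
    ∃ v : k[X][X], TD (q.natDegree + f.natDegree - 3 - N) v ∧
      (∀ h, (∀ g, ψ (h * g) = 0) → ∃ u w, v * h = C q * u + f * w) ∧
      ((∃ u w, v = C q * u + f * w) → ψ = 0) := by
  by_cases hq0 : q.natDegree = 0
  · have h1 : q = 1 := hq.natDegree_eq_zero.1 hq0
    have h2 : ψ = 0 := by
      ext h
      have h3 := hψq h
      rw [h1, C_1, one_mul] at h3
      simpa using h3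
    exact ⟨0, TD_zero _, fun h _ => ⟨0, 0, by simp⟩, fun _ => h2⟩
  by_cases hf0 : f.natDegree = 0
  · have h1 : f = 1 := hf.natDegree_eq_zero.1 hf0
    have h2 : ψ = 0 := by
      ext h
      have h3 := hψf h
      rw [h1, one_mul] at h3
      simpa using h3
    exact ⟨0, TD_zero _, fun h _ => ⟨0, 0, by simp⟩, fun _ => h2⟩
  have hform := Dual_formula f hf q hq ψ hψf hψq hf0 hq0
  refine ⟨Dual_v f q ψ, Dual_v_TD f hfT q ψ N hN, ?_, ?_⟩
  · intro h hh
    set v := Dual_v f q ψ with hv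
    have h1 : ∀ j, lam f (X ^ j * (v * h)) ∈ Ideal.span {q} := by
      intro j
      rw [Ideal.mem_span_singleton, ← modByMonic_eq_zero_iff_dvd hq]
      ext a
      rw [coeff_zero, ← Ideal.mem_bot]
      refine coeff_mem_of_lam q hq _ ⊥ (fun i => ?_) a
      have e : C (X ^ i) * (X ^ j * (v * h)) = v * (h * (C (X ^ i) * X ^ j)) := by ring
      rw [Ideal.mem_bot, ← Dual_C_mul f, e, hform, hh]
    have h2 : C q ∣ (v * h) %ₘ f := by
      rw [C_dvd_iff_dvd_coeff]
      intro i
      rw [← Ideal.mem_span_singleton]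
      exact coeff_mem_of_lam f hf _ _ h1 i
    obtain ⟨u, hu⟩ := h2
    exact ⟨u, (v * h) /ₘ f, by rw [← hu]; exact (modByMonic_add_div _ f).symm⟩
  · rintro ⟨u, w, huw⟩
    refine LinearMap.ext fun h => ?_
    rw [LinearMap.zero_apply, ← hform h, huw]
    have e1 : (C q * u + f * w) * h = C q * (u * h) + f * (w * h) := by ring
    rw [e1, Dual_add, Dual_self_mul f hf, add_zero, Dual_C_mul, Dual_self_mul q hq]

end ShghV
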