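import Pool.Agent.ShghV.Td

/-!
# The dual basis of `1, T, ..., T ^ (n - 1)` modulo a monic polynomial
-/

namespace ShghV

open Polynomial

section
variable {R : Type*} [CommRing R] [Nontrivial R]

omit [Nontrivial R] in
theorem dualb_coeff (g : R[X]) (a i : ℕ) : (dualb g a).coeff i = g.coeff (i + a + 1) := by
  unfold dualb
  rw [finsetSum_coeff]
  simp only [coeff_C_mul, coeff_X_pow, mul_ite, mul_one, mul_zero]
  rw [Finset.sum_ite_eq]
  split_ifs with h
  · rfl
  · rw [Finset.mem_range] at h
    exact (coeff_eq_zero_of_natDegree_lt (by omega)).symm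

omit [Nontrivial R] in
theorem lam_congr (g : R[X]) (hg : g.Monic) (p q : R[X]) (h : g ∣ p - q) : lam g p = lam g q := by
  unfold lam
  rw [modByMonic_eq_of_dvd_sub hg h]

omit [Nontrivial R] in
theorem lam_sum {ι : Type*} (s : Finset ι) (g : R[X]) (c : ι → R) (p : ι → R[X]) :
    lam g (∑ i ∈ s, C (c i) * p i) = ∑ i ∈ s, c i * lam g (p i) := by
  unfold lam
  have h : (∑ i ∈ s, C (c i) * p i) %ₘ g = ∑ i ∈ s, C (c i) * (p i %ₘ g) := by
    have h1 := map_sum (modByMonicHom g) (fun i => c i • p i) s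
    rw [Finset.sum_congr rfl fun i _ => (modByMonicHom g).map_smul (c i) (p i)] at h1
    simp only [modByMonicHom_apply, smul_eq_C_mul] at h1
    exact h1
  rw [h, finsetSum_coeff]
  exact Finset.sum_congr rfl fun i _ => coeff_C_mul _

/-- For `a, b < n = natDegree g`: `lam g (T ^ b * dualb g a) = 1` if `a = b` and `0` otherwise.
Proof. `D = dualb g a` has degree `n - 1 - a` and leading coefficient `g_n = 1`, and
`T ^ (a + 1) * D = g - Σ_{i ≤ a} g_i T ^ i`. If `b ≤ a` then `T ^ b * D` has degree `n - 1 - a + b ≤ n - 1`, so it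
equals its remainder, and its coefficient of `T ^ (n - 1)` is the coefficient of `T ^ (n - 1 - b)` of `D`, that is
`1` if `a = b` and `0` otherwise. If `b > a` then `T ^ b * D = T ^ (b - a - 1) * (g - Σ_{i ≤ a} g_i T ^ i)` has the
remainder `- T ^ (b - a - 1) * Σ_{i ≤ a} g_i T ^ i` of degree `≤ b - 1 < n - 1`. -/
theorem lam_dualb (g : R[X]) (hg : g.Monic) (a b : ℕ) (ha : a < g.natDegree) (hb : b < g.natDegree) :
    lam g (X ^ b * dualb g a) = if a = b then 1 else 0 := by
  have hdeg : ∀ p : R[X], (∀ m, g.natDegree ≤ m → p.coeff m = 0) → p %ₘ g = p := by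
    intro p hp
    rw [modByMonic_eq_self_iff hg, degree_eq_natDegree hg.ne_zero, degree_lt_iff_coeff_zero]
    exact hp
  rcases Nat.lt_or_ge a b with hab | hab
  · rw [if_neg (by omega)]
    have h1 : ∀ m, b ≤ m → (X ^ b * dualb g a - X ^ (b - a - 1) * g).coeff m = 0 := by
      intro m hm
      rw [coeff_sub, coeff_X_pow_mul', if_pos hm, coeff_X_pow_mul', if_pos (by omega), dualb_coeff,
        show m - b + a + 1 = m - (b - a - 1) by omega, sub_self]
    rw [lam_congr g hg (X ^ b * dualb g a) (X ^ b * dualb g a - X ^ (b - a - 1) * g)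
      ⟨X ^ (b - a - 1), by ring⟩]
    unfold lam
    rw [hdeg _ fun m hm => h1 m (by omega)]
    exact h1 _ (by omega)
  · unfold lam
    rw [hdeg, coeff_X_pow_mul', if_pos (by omega), dualb_coeff]
    · split_ifs with h
      · subst h
        rw [show g.natDegree - 1 - a + a + 1 = g.natDegree by omega]
        exact hg.coeff_natDegree
      · exact coeff_eq_zero_of_natDegree_lt (by omega)
    · intro m hm
      rw [coeff_X_pow_mul', if_pos (by omega), dualb_coeff]
      exact coeff_eq_zero_of_natDegree_lt (by omega)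

/-- `lam g (p * dualb g a)` is the coefficient of `T ^ a` of `p mod g` (`a < natDegree g`).
Proof: `lam g (p * r) = lam g ((p %ₘ g) * r)`, expand `p %ₘ g = Σ_{b < n} c_b T ^ b`, `lam_dualb`. -/
theorem lam_mul_dualb (g : R[X]) (hg : g.Monic) (p : R[X]) (a : ℕ) (ha : a < g.natDegree) :
    lam g (p * dualb g a) = (p %ₘ g).coeff a := by
  have h1 : lam g (p * dualb g a) = lam g ((p %ₘ g) * dualb g a) := by
    refine lam_congr g hg _ _ ⟨(p /ₘ g) * dualb g a, ?_⟩
    have := modByMonic_add_div p g
    calc p * dualb g a - (p %ₘ g) * dualb g a = (p - p %ₘ g) * dualb g a := by ring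
      _ = (g * (p /ₘ g)) * dualb g a := by
        congr 1
        nth_rewrite 1 [← this]
        ring
      _ = _ := by ring
  have hg1 : g ≠ 1 := by
    intro h
    rw [h, natDegree_one] at ha
    omega
  have h2 : (p %ₘ g).natDegree < g.natDegree := natDegree_modByMonic_lt p hg hg1
  have h3 : (p %ₘ g) * dualb g a =
      ∑ b ∈ Finset.range g.natDegree, C ((p %ₘ g).coeff b) * (X ^ b * dualb g a) := by
    conv_lhs => rw [as_sum_range_C_mul_X_pow' (p %ₘ g) h2]
    rw [Finset.sum_mul]
    exact Finset.sum_congr rfl fun b _ => by ring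
  rw [h1, h3, lam_sum]
  rw [Finset.sum_congr rfl fun b hb => by
    rw [lam_dualb g hg a b ha (Finset.mem_range.1 hb)]]
  simp only [mul_ite, mul_one, mul_zero]
  rw [Finset.sum_ite_eq, if_pos (Finset.mem_range.2 ha)]

/-- If all `lam g (T ^ j * p)` lie in an ideal `I` of `R` then all coefficients of `p mod g` do.
Proof: `lam_mul_dualb`, `p * dualb g a = Σ_i C (g_(i+a+1)) * (X ^ i * p)` and `R`-linearity of `lam g`. For
`natDegree g ≤ a` the coefficient is `0`. -/
theorem coeff_mem_of_lam (g : R[X]) (hg : g.Monic) (p : R[X]) (I : Ideal R)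
    (h : ∀ j, lam g (X ^ j * p) ∈ I) (a : ℕ) : (p %ₘ g).coeff a ∈ I := by
  by_cases ha : a < g.natDegree
  · rw [← lam_mul_dualb g hg p a ha]
    have h1 : p * dualb g a =
        ∑ i ∈ Finset.range (g.natDegree - a), C (g.coeff (i + a + 1)) * (X ^ i * p) := by
      unfold dualb
      rw [Finset.mul_sum]
      exact Finset.sum_congr rfl fun i _ => by ring
    rw [h1, lam_sum]
    exact Ideal.sum_mem _ fun i _ => Ideal.mul_mem_left _ _ (h i)
  · have h1 : (p %ₘ g).degree < g.degree := degree_modByMonic_lt p hg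
    have h2 : (p %ₘ g).coeff a = 0 := by
      rw [degree_eq_natDegree hg.ne_zero, degree_lt_iff_coeff_zero] at h1
      exact h1 a (not_lt.1 ha)
    rw [h2]
    exact I.zero_mem

end

end ShghV
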