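import Pool.Agent.ShghV.Dual

/-!
# From the functional to local conditions
-/

namespace ShghV

open Polynomial

variable {k : Type*} [Field k] {ι : Type*} [Fintype ι]

/-- From the functional to the local conditions. Let `q = ∏ (x - x_i) ^ (a_i)` (the `x_i` distinct), `f` prime, monic in
`y` of degree `≥ 1`, and `v h ∈ (q, f)` for all `h ∈ J = ∩ I_i ^ (a_i)`. Then `v h ∈ ((x - x_i) ^ (a_i), f)` for all
`h ∈ I_i ^ (a_i)`. Proof: `s = ∏_{l ≠ i} (x - x_l) ^ (a_l)`, `C s * h ∈ J`, `v (C s) h = C q u + f w`,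
`C q = C ((x - x_i) ^ (a_i)) * C s`, so `C s (v h - C ((x - x_i) ^ (a_i)) u) ∈ (f)`; `f` is prime and does not divide `C s`
(degree in `y`). -/
theorem glob (f : k[X][X]) (hf : f.Monic) (hirr : Irreducible f) (hδ : 1 ≤ f.natDegree)
    (x y : ι → k) (a : ι → ℕ) (v : k[X][X])
    (hv : ∀ h, (∀ i, h ∈ pI (x i) (y i) ^ a i) →
      ∃ u w, v * h = C (∏ i, (X - C (x i)) ^ a i) * u + f * w) (i : ι) (h : k[X][X])
    (hh : h ∈ pI (x i) (y i) ^ a i) : ∃ z t, v * h = C ((X - C (x i)) ^ a i) * z + f * t := by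
  classical
  set s : k[X] := ∏ j ∈ Finset.univ.erase i, (X - C (x j)) ^ a j with hs
  have hqs : ∏ j, (X - C (x j)) ^ a j = (X - C (x i)) ^ a i * s :=
    (Finset.mul_prod_erase Finset.univ (fun j => (X - C (x j)) ^ a j) (Finset.mem_univ i)).symm
  have hmem : ∀ j, C s * h ∈ pI (x j) (y j) ^ a j := by
    intro j
    by_cases hj : j = i
    · subst hj
      exact Ideal.mul_mem_left _ _ hh
    · refine Ideal.mul_mem_right _ _ ?_
      have h1 : s = (X - C (x j)) ^ a j * ∏ l ∈ (Finset.univ.erase i).erase j, (X - C (x l)) ^ a l :=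
        (Finset.mul_prod_erase (Finset.univ.erase i) (fun l => (X - C (x l)) ^ a l)
          (Finset.mem_erase.2 ⟨hj, Finset.mem_univ j⟩)).symm
      rw [h1, C_mul, C_pow]
      refine Ideal.mul_mem_right _ _ (Ideal.pow_mem_pow ?_ _)
      exact Ideal.subset_span (by simp)
  obtain ⟨u, w, huw⟩ := hv _ hmem
  rw [hqs] at huw
  have hsne : s ≠ 0 := by
    rw [hs]
    exact (monic_prod_of_monic _ _ fun j _ => (monic_X_sub_C (x j)).pow (a j)).ne_zero
  have hprime : Prime f := hirr.prime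
  have hdvd : f ∣ C s * (v * h - C ((X - C (x i)) ^ a i) * u) := by
    refine ⟨w, ?_⟩
    have h2 : C ((X - C (x i)) ^ a i * s) = C ((X - C (x i)) ^ a i) * (C s : k[X][X]) := C_mul
    rw [h2] at huw
    linear_combination huw
  rcases hprime.dvd_or_dvd hdvd with h3 | h3
  · exfalso
    have h4 := natDegree_le_of_dvd h3 (C_ne_zero.2 hsne)
    rw [natDegree_C] at h4
    omega
  · obtain ⟨t, ht⟩ := h3
    exact ⟨u, t, by linear_combination ht⟩

/-- The root multiplicities at distinct points add up to at most the degree. -/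
theorem sum_rootMultiplicity_le (x : ι → k) (hx : Function.Injective x) (r : k[X]) (hr : r ≠ 0) :
    ∑ i, r.rootMultiplicity (x i) ≤ r.natDegree := by
  classical
  have h1 : ∑ i, r.rootMultiplicity (x i) = ∑ c ∈ Finset.univ.image x, r.roots.count c := by
    rw [Finset.sum_image fun a _ b _ h => hx h]
    exact Finset.sum_congr rfl fun i _ => (count_roots r).symm
  rw [h1]
  refine le_trans ?_ (card_roots' r)
  have h2 : ∑ c ∈ Finset.univ.image x, r.roots.count c ≤
      ∑ c ∈ Finset.univ.image x ∪ r.roots.toFinset, r.roots.count c :=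
    Finset.sum_le_sum_of_subset Finset.subset_union_left
  refine le_trans h2 (le_of_eq ?_)
  exact Multiset.sum_count_eq_card fun c hc =>
    Finset.mem_union_right _ (Multiset.mem_toFinset.2 hc)

/-- The functional of the key lemma gives `v` (`dual_exists` with `q = ∏ (x - x_i) ^ (a_i)`, `N = d - 3`): total degree
`≤ Σ a_i + δ - d`, local conditions at every point (`glob`; if `h ∈ J` then all `h g ∈ J`, so `ψ (h g) = 0`), and
`v ∉ (q, f)` if `ψ ≠ 0`. `C q * h ∈ J` because `C (x - x_i) ^ (a_i) ∈ I_i ^ (a_i)`. -/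
theorem exists_v (f : k[X][X]) (hf : f.Monic) (hfT : TD f.natDegree f) (hirr : Irreducible f)
    (hδ : 1 ≤ f.natDegree) (x y : ι → k) (a : ι → ℕ) (d : ℤ)
    (ψ : k[X][X] →ₗ[k] k) (hψ : ψ ≠ 0) (hψf : ∀ h, ψ (f * h) = 0)
    (hψd : ∀ h, TD (d - 3) h → ψ h = 0) (hψJ : ∀ h, (∀ i, h ∈ pI (x i) (y i) ^ a i) → ψ h = 0) :
    ∃ v : k[X][X], TD ((∑ i, a i : ℕ) + f.natDegree - d) v ∧
      (∀ i, ∀ h ∈ pI (x i) (y i) ^ a i, ∃ z t, v * h = C ((X - C (x i)) ^ a i) * z + f * t) ∧
      ¬ ∃ u w, v = C (∏ i, (X - C (x i)) ^ a i) * u + f * w := by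
  classical
  set q : k[X] := ∏ i, (X - C (x i)) ^ a i with hq
  have hqm : q.Monic := monic_prod_of_monic _ _ fun i _ => (monic_X_sub_C (x i)).pow (a i)
  have hqdeg : q.natDegree = ∑ i, a i := by
    rw [hq, natDegree_prod_of_monic _ _ fun i _ => (monic_X_sub_C (x i)).pow (a i)]
    exact Finset.sum_congr rfl fun i _ => by
      rw [(monic_X_sub_C (x i)).natDegree_pow, natDegree_X_sub_C, mul_one]
  have hψq : ∀ h, ψ (C q * h) = 0 := by
    intro h
    refine hψJ _ fun i => Ideal.mul_mem_right _ _ ?_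
    have h1 : q = (X - C (x i)) ^ a i * ∏ l ∈ Finset.univ.erase i, (X - C (x l)) ^ a l :=
      (Finset.mul_prod_erase Finset.univ (fun l => (X - C (x l)) ^ a l) (Finset.mem_univ i)).symm
    rw [h1, C_mul, C_pow]
    exact Ideal.mul_mem_right _ _ (Ideal.pow_mem_pow (Ideal.subset_span (by simp)) _)
  obtain ⟨v, hvT, hv1, hv2⟩ := dual_exists f hf hfT q hqm ψ hψf hψq (d - 3) hψd
  refine ⟨v, hvT.mono (by rw [hqdeg]; omega), ?_, fun h => hψ (hv2 h)⟩
  intro i h hh
  refine glob f hf hirr hδ x y a v (fun h' hh' => ?_) i h hh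
  exact hv1 h' fun g => hψJ _ fun j => Ideal.mul_mem_right _ _ (hh' j)

end ShghV
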