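import Pool.Agent.ShghV.CoordB

/-!
# An irreducible polynomial in good coordinates
-/

namespace ShghV

open MvPolynomial ShghE

variable {k : Type*} [Field k] {ι : Type*} [Fintype ι]

/-- The data of `f` in good coordinates (`exists_good`): `g = C (C c⁻¹) * Phi t f` is monic in `y` of degree
`δ = totalDegree f ≥ 1` (an irreducible polynomial is not constant; `natDegree g = δ` because the coefficient of
`y ^ δ` is `1` and `TD δ g`, `TD.natDegree_le`), of total degree `δ`, irreducible (`Phi t` is bijective: `Phi_Psi`, `Psi_Phi`; a unit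
times an irreducible), and membership in the powers of the ideals of the points corresponds (`mem_Phi`). -/
theorem good_form [Infinite k] (f : MvPolynomial (Fin 2) k) (hirr : Irreducible f)
    (P : ι → Fin 2 → k) (hP : Function.Injective P) :
    ∃ (t c : k) (g : Polynomial (Polynomial k)), c ≠ 0 ∧
      Phi t f = Polynomial.C (Polynomial.C c) * g ∧ g.Monic ∧ g.natDegree = f.totalDegree ∧
      1 ≤ g.natDegree ∧ TD g.natDegree g ∧ Irreducible g ∧
      Function.Injective (fun i => P i 0 - t * P i 1) ∧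
      ∀ (i : ι) (m : ℕ), f ∈ ptIdeal (P i 0) (P i 1) ^ m ↔ g ∈ pI (P i 0 - t * P i 1) (P i 1) ^ m := by
  obtain ⟨t, ⟨c, hc, hcoeff⟩, hinj⟩ := exists_good P hP f hirr.ne_zero
  have hdeg : 1 ≤ f.totalDegree := by
    rw [Nat.one_le_iff_ne_zero]
    intro h0
    rw [totalDegree_eq_zero_iff_eq_C] at h0
    apply hirr.not_isUnit
    rw [h0]
    refine IsUnit.map C (isUnit_iff_ne_zero.2 ?_)
    intro h1
    apply hirr.ne_zero
    rw [h0, h1, C_0]
  set g : Polynomial (Polynomial k) := Polynomial.C (Polynomial.C c⁻¹) * Phi t f with hg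
  have hcu : Polynomial.C (Polynomial.C c) * Polynomial.C (Polynomial.C c⁻¹) =
      (1 : Polynomial (Polynomial k)) := by
    rw [← Polynomial.C_mul, ← Polynomial.C_mul, mul_inv_cancel₀ hc, Polynomial.C_1,
      Polynomial.C_1]
  have hfg : Phi t f = Polynomial.C (Polynomial.C c) * g := by
    rw [hg, ← mul_assoc, hcu, one_mul]
  have hTD : TD f.totalDegree g := by
    have h1 := (TD_C (Polynomial.C c⁻¹) (n := 0) (by simp)).mul (TD_Phi t f f.totalDegree le_rfl)
    rwa [zero_add] at h1
  have hg1 : g.coeff f.totalDegree = 1 := by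
    rw [hg, Polynomial.coeff_C_mul, hcoeff, ← Polynomial.C_mul, inv_mul_cancel₀ hc,
      Polynomial.C_1]
  have hgd : g.natDegree = f.totalDegree := by
    refine le_antisymm ?_ ?_
    · exact_mod_cast TD.natDegree_le (by exact_mod_cast Nat.zero_le _) hTD
    · refine Polynomial.le_natDegree_of_ne_zero ?_
      rw [hg1]
      exact one_ne_zero
  have hunit : IsUnit (Polynomial.C (Polynomial.C c) : Polynomial (Polynomial k)) :=
    IsUnit.of_mul_eq_one _ hcu
  have hgm : g.Monic := by
    rw [Polynomial.Monic, Polynomial.leadingCoeff, hgd, hg1]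
  refine ⟨t, c, g, hc, hfg, hgm, hgd, by rw [hgd]; exact hdeg, by rw [hgd]; exact hTD, ?_, hinj, ?_⟩
  · let e : MvPolynomial (Fin 2) k ≃ₐ[k] Polynomial (Polynomial k) :=
      AlgEquiv.ofAlgHom (Phi t) (Psi t) (AlgHom.ext fun p => Phi_Psi t p)
        (AlgHom.ext fun p => Psi_Phi t p)
    have h1 : Irreducible (Phi t f) := (MulEquiv.irreducible_iff e).2 hirr
    rw [hfg] at h1
    exact (irreducible_isUnit_mul hunit).1 h1
  · intro i m
    rw [mem_Phi t, hfg, Ideal.unit_mul_mem_iff_mem _ hunit]

end ShghV
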