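import Pool.Agent.ShghV.Glob
import Pool.Agent.ShghV.LocN
import Pool.Agent.ShghV.NormB

/-!
# The key lemma in `k[x][y]`
-/

namespace ShghV

open Polynomial

variable {k : Type*} [Field k] {ι : Type*} [Fintype ι]

/-- **Key lemma.** `f` irreducible, monic in `y`, of degree and total degree `δ`, exact multiplicities `μ_i` at the
points `(x_i, y_i)` (distinct `x_i`); `ψ ≠ 0` a functional which is zero on the multiples of `f`, on polynomials of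
total degree `≤ d - 3` and on `∩ I_i ^ (a_i)`. Then `(d - δ) δ ≤ Σ (a_i + 1 - μ_i)⁺ μ_i`.

Proof. `v` from `exists_v`, `n = Σ a_i + δ - d`. `f ∤ v` by the last property, so `v ≠ 0`, `n ≥ 0` (`TD_eq_zero`) and
`Nf f v ≠ 0`. `Σ (a_i δ) ≤ Σ (rootMultiplicity (x_i) (Nf f v) + (a_i + 1 - μ_i) μ_i) ≤ natDegree (Nf f v) + Σ ... ≤ δ n + Σ ...`
(`locN`, `sum_rootMultiplicity_le`, `Nf_natDegree_le`). -/
theorem KL_bi [Infinite k] (f : k[X][X]) (hf : f.Monic) (hfT : TD f.natDegree f)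
    (hirr : Irreducible f) (hδ : 1 ≤ f.natDegree) (x y : ι → k) (hx : Function.Injective x)
    (μ a : ι → ℕ) (hμ : ∀ i, f ∈ pI (x i) (y i) ^ μ i) (hμ' : ∀ i, f ∉ pI (x i) (y i) ^ (μ i + 1))
    (d : ℤ) (ψ : k[X][X] →ₗ[k] k) (hψ : ψ ≠ 0) (hψf : ∀ h, ψ (f * h) = 0)
    (hψd : ∀ h, TD (d - 3) h → ψ h = 0) (hψJ : ∀ h, (∀ i, h ∈ pI (x i) (y i) ^ a i) → ψ h = 0) :
    (d - f.natDegree) * f.natDegree ≤ ∑ i, (((a i + 1 - μ i) * μ i : ℕ) : ℤ) := by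
  obtain ⟨v, hvT, hvloc, hvn⟩ := exists_v f hf hfT hirr hδ x y a d ψ hψ hψf hψd hψJ
  have hfv : ¬ f ∣ v := by
    rintro ⟨t, ht⟩
    exact hvn ⟨0, t, by rw [ht]; ring⟩
  have hv0 : v ≠ 0 := fun h => hfv (h ▸ dvd_zero f)
  have hn : 0 ≤ ((∑ i, a i : ℕ) : ℤ) + f.natDegree - d := by
    by_contra hlt
    exact hv0 (TD_eq_zero (not_le.1 hlt) hvT)
  obtain ⟨n, hnn⟩ := Int.eq_ofNat_of_zero_le hn
  rw [hnn] at hvT
  have hR : Nf f v ≠ 0 := Nf_ne_zero f hf hirr v hfv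
  have h1 : ∑ i, a i * f.natDegree ≤
      ∑ i, ((Nf f v).rootMultiplicity (x i) + (a i + 1 - μ i) * μ i) :=
    Finset.sum_le_sum fun i _ =>
      locN f hf hirr hδ (x i) (y i) (μ i) (a i) (hμ i) (hμ' i) v (hvloc i) hfv
  have h2 := sum_rootMultiplicity_le x hx (Nf f v) hR
  have h3 := Nf_natDegree_le f hf hfT n v hvT
  rw [← Finset.sum_mul, Finset.sum_add_distrib] at h1
  have h4 : (∑ i, a i) * f.natDegree ≤ f.natDegree * n + ∑ i, (a i + 1 - μ i) * μ i := by omega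
  have h5 : (((∑ i, a i) * f.natDegree : ℕ) : ℤ) ≤
      ((f.natDegree * n + ∑ i, (a i + 1 - μ i) * μ i : ℕ) : ℤ) := by exact_mod_cast h4
  rw [Nat.cast_mul, Nat.cast_add, Nat.cast_mul, Nat.cast_sum Finset.univ fun i =>
    (a i + 1 - μ i) * μ i] at h5
  have h6 : (n : ℤ) = ((∑ i, a i : ℕ) : ℤ) + f.natDegree - d := by rw [hnn]
  rw [h6] at h5
  nlinarith [h5]

end ShghV
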