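import Pool.Agent.ShghV.Good
import Pool.Agent.ShghV.KLbi
import Pool.Agent.ShghV.BLbi

/-!
# The key lemma and the base lemma for `MvPolynomial (Fin 2) k`
-/

namespace ShghV

open MvPolynomial ShghE

variable {k : Type*} [Field k] {ι : Type*} [Fintype ι]

/-- **Key lemma.** Transport `KL_bi` with `good_form`: `ψ = φ ∘ Psi t`. `ψ ≠ 0` since `Psi t` is surjective;
`ψ (g * h) = 0` since `g = C (C c⁻¹) * Phi t f`, `Psi t (g * h) = f * (...)`; `TD (d - 3) h` implies
`totalDegree (Psi t h) ≤ d - 3` (`totalDegree_Psi` if `d - 3 ≥ 0`, otherwise `h = 0` by `TD_eq_zero`); membership: `mem_Phi` for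
`Psi t h`. -/
theorem KL_mv [Infinite k] (f : MvPolynomial (Fin 2) k) (hirr : Irreducible f)
    (P : ι → Fin 2 → k) (hP : Function.Injective P) (μ a : ι → ℕ)
    (hμ : ∀ i, f ∈ ptIdeal (P i 0) (P i 1) ^ μ i)
    (hμ' : ∀ i, f ∉ ptIdeal (P i 0) (P i 1) ^ (μ i + 1)) (d : ℤ)
    (φ : MvPolynomial (Fin 2) k →ₗ[k] k) (hφ : φ ≠ 0) (hφf : ∀ h, φ (f * h) = 0)
    (hφd : ∀ h, (h.totalDegree : ℤ) ≤ d - 3 → φ h = 0)
    (hφJ : ∀ h, (∀ i, h ∈ ptIdeal (P i 0) (P i 1) ^ a i) → φ h = 0) :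
    (d - f.totalDegree) * f.totalDegree ≤ ∑ i, (((a i + 1 - μ i) * μ i : ℕ) : ℤ) := by
  obtain ⟨t, c, g, hc, hfg, hgm, hgd, hg1, hgT, hgi, hinj, hmem⟩ := good_form f hirr P hP
  have hψ : φ ∘ₗ (Psi t).toLinearMap ≠ 0 := by
    intro h0
    apply hφ
    refine LinearMap.ext fun u => ?_
    have := congrArg (fun F : Polynomial (Polynomial k) →ₗ[k] k => F (Phi t u)) h0
    simp only [LinearMap.comp_apply, AlgHom.toLinearMap_apply, Psi_Phi] at this
    exact this
  have key := KL_bi g hgm hgT hgi hg1 (fun i => P i 0 - t * P i 1) (fun i => P i 1) hinj μ a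
    (fun i => (hmem i (μ i)).1 (hμ i)) (fun i h => hμ' i ((hmem i (μ i + 1)).2 h)) d
    (φ ∘ₗ (Psi t).toLinearMap) hψ ?_ ?_ ?_
  · rwa [hgd] at key
  · intro h
    rw [LinearMap.comp_apply, AlgHom.toLinearMap_apply]
    have h1 : g * h = Phi t f * (Polynomial.C (Polynomial.C c⁻¹) * h) := by
      rw [hfg]
      have h2 : Polynomial.C (Polynomial.C c) * Polynomial.C (Polynomial.C c⁻¹) =
          (1 : Polynomial (Polynomial k)) := by
        rw [← Polynomial.C_mul, ← Polynomial.C_mul, mul_inv_cancel₀ hc, Polynomial.C_1,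
          Polynomial.C_1]
      linear_combination (-g * h) * h2
    rw [h1, map_mul, Psi_Phi]
    exact hφf _
  · intro h hh
    rw [LinearMap.comp_apply, AlgHom.toLinearMap_apply]
    by_cases h0 : d - 3 < 0
    · rw [TD_eq_zero h0 hh, map_zero, map_zero]
    · obtain ⟨n, hn⟩ := Int.eq_ofNat_of_zero_le (not_lt.1 h0)
      refine hφd _ ?_
      rw [hn] at hh ⊢
      exact_mod_cast totalDegree_Psi t h n hh
  · intro h hh
    rw [LinearMap.comp_apply, AlgHom.toLinearMap_apply]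
    refine hφJ _ fun i => ?_
    rw [mem_Phi t, Phi_Psi]
    exact hh i

/-- **Base lemma.** Transport `BL_bi` in the same way. -/
theorem BL_mv [IsAlgClosed k] (f : MvPolynomial (Fin 2) k) (hirr : Irreducible f)
    (P : ι → Fin 2 → k) (hP : Function.Injective P) (μ a : ι → ℕ)
    (hμ : ∀ i, f ∈ ptIdeal (P i 0) (P i 1) ^ μ i)
    (hμ' : ∀ i, f ∉ ptIdeal (P i 0) (P i 1) ^ (μ i + 1)) (ha : ∀ i, a i = 0 ∨ a i + 1 ≤ μ i)
    (φ : MvPolynomial (Fin 2) k →ₗ[k] k) (hφf : ∀ h, φ (f * h) = 0)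
    (hφd : ∀ h, (h.totalDegree : ℤ) ≤ f.totalDegree - 3 → φ h = 0)
    (hφJ : ∀ h, (∀ i, h ∈ ptIdeal (P i 0) (P i 1) ^ a i) → φ h = 0) : φ = 0 := by
  have : Infinite k := IsAlgClosed.instInfinite
  obtain ⟨t, c, g, hc, hfg, hgm, hgd, hg1, hgT, hgi, hinj, hmem⟩ := good_form f hirr P hP
  have key := BL_bi g hgm hgT hgi hg1 (fun i => P i 0 - t * P i 1) (fun i => P i 1) hinj μ a
    (fun i => (hmem i (μ i)).1 (hμ i)) (fun i h => hμ' i ((hmem i (μ i + 1)).2 h)) ha
    (φ ∘ₗ (Psi t).toLinearMap) ?_ ?_ ?_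
  · refine LinearMap.ext fun u => ?_
    have := congrArg (fun F : Polynomial (Polynomial k) →ₗ[k] k => F (Phi t u)) key
    simp only [LinearMap.comp_apply, AlgHom.toLinearMap_apply, Psi_Phi] at this
    exact this
  · intro h
    rw [LinearMap.comp_apply, AlgHom.toLinearMap_apply]
    have h1 : g * h = Phi t f * (Polynomial.C (Polynomial.C c⁻¹) * h) := by
      rw [hfg]
      have h2 : Polynomial.C (Polynomial.C c) * Polynomial.C (Polynomial.C c⁻¹) =
          (1 : Polynomial (Polynomial k)) := by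
        rw [← Polynomial.C_mul, ← Polynomial.C_mul, mul_inv_cancel₀ hc, Polynomial.C_1,
          Polynomial.C_1]
      linear_combination (-g * h) * h2
    rw [h1, map_mul, Psi_Phi]
    exact hφf _
  · intro h hh
    rw [LinearMap.comp_apply, AlgHom.toLinearMap_apply]
    rw [hgd] at hh
    by_cases h0 : (f.totalDegree : ℤ) - 3 < 0
    · rw [TD_eq_zero h0 hh, map_zero, map_zero]
    · obtain ⟨n, hn⟩ := Int.eq_ofNat_of_zero_le (not_lt.1 h0)
      refine hφd _ ?_
      rw [hn] at hh ⊢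
      exact_mod_cast totalDegree_Psi t h n hh
  · intro h hh
    rw [LinearMap.comp_apply, AlgHom.toLinearMap_apply]
    refine hφJ _ fun i => ?_
    rw [mem_Phi t, Phi_Psi]
    exact hh i

end ShghV
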