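import Pool.Agent.ShghV.Beta

/-!
# The local lemma (Gorenstein duality for a complete intersection of two binary forms, made elementary)
-/

namespace ShghV

open Polynomial

variable {k : Type*} [Field k]

/-- `X` is coprime to a polynomial with invertible constant term. -/
theorem isCoprime_X_of_isUnit_coeff {A : Type*} [CommRing A] (Q : A[X]) (h : IsUnit (Q.coeff 0)) :
    IsCoprime (X : A[X]) Q := by
  obtain ⟨u, hu⟩ := h
  refine ⟨-C (↑u⁻¹ : A) * divX Q, C (↑u⁻¹ : A), ?_⟩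
  have h1 : Q = divX Q * X + C (Q.coeff 0) := (divX_mul_X_add Q).symm
  have h2 : C (↑u⁻¹ : A) * C (Q.coeff 0) = 1 := by
    rw [← C_mul, ← hu, Units.inv_mul, C_1]
  calc -C (↑u⁻¹ : A) * divX Q * X + C (↑u⁻¹ : A) * Q
      = -C (↑u⁻¹ : A) * divX Q * X + C (↑u⁻¹ : A) * (divX Q * X + C (Q.coeff 0)) := by
        rw [← h1]
    _ = C (↑u⁻¹ : A) * C (Q.coeff 0) := by ring
    _ = 1 := h2

/-- The algebraic core: comparison of the lowest coefficients modulo `Λ`. -/
theorem LL_core {A : Type*} [CommRing A] (μ r n : ℕ) (hrn : r + n = 2 * μ - 3) (hμ : 2 ≤ μ)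
    (E F a : A[X]) (g : A) (hF : IsUnit (F.coeff 0))
    (h : X ^ (r + n) * (E * C g) = X ^ μ * (a * F)) :
    ∃ s : A, E.coeff 0 * g = s * F.coeff 0 ∧ (μ = 2 → s = 0) ∧ (3 ≤ μ → s = a.coeff (μ - 3)) := by
  rcases Nat.lt_or_ge μ 3 with h3 | h3
  · have hμ2 : μ = 2 := by omega
    subst hμ2
    have h1 := congrArg (fun p => Polynomial.coeff p 1) h
    simp only [hrn] at h1
    rw [show 2 * 2 - 3 = 1 from rfl] at h1
    rw [coeff_X_pow_mul', coeff_X_pow_mul', if_pos (le_refl 1), if_neg (by omega)] at h1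
    rw [Nat.sub_self, coeff_mul_C] at h1
    exact ⟨0, by rw [h1, zero_mul], fun _ => rfl, fun h => absurd h (by omega)⟩
  · have hreg : IsRegular ((X : A[X]) ^ μ) := (monic_X_pow μ).isRegular
    have h1 : X ^ (μ - 3) * (E * C g) = a * F := by
      apply hreg.left
      show X ^ μ * (X ^ (μ - 3) * (E * C g)) = X ^ μ * (a * F)
      rw [← h, ← mul_assoc, ← pow_add, hrn]
      congr 2
      omega
    have hcop : IsCoprime ((X : A[X]) ^ (μ - 3)) F :=
      (isCoprime_X_of_isUnit_coeff F hF).pow_left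
    have hdvd : (X : A[X]) ^ (μ - 3) ∣ a * F := ⟨_, h1.symm⟩
    obtain ⟨a', ha'⟩ := hcop.dvd_of_dvd_mul_right hdvd
    have hreg' : IsRegular ((X : A[X]) ^ (μ - 3)) := (monic_X_pow (μ - 3)).isRegular
    have h2 : E * C g = a' * F := by
      apply hreg'.left
      show X ^ (μ - 3) * (E * C g) = X ^ (μ - 3) * (a' * F)
      rw [h1, ha', mul_assoc]
    have h3' := congrArg (fun p => Polynomial.coeff p 0) h2
    simp only [mul_coeff_zero, coeff_C_zero] at h3'
    refine ⟨a'.coeff 0, h3', fun h => absurd h (by omega), fun _ => ?_⟩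
    rw [ha', coeff_X_pow_mul', if_pos (le_refl _), Nat.sub_self]

/-- Let `f ∈ I ^ μ` with leading form `φ = (beta f)_μ`, `L` a product of linear forms with `beta L = Λ(Y) T ^ (μ - 1)`,
`Λ` monic of degree `μ - 1` and coprime to `φ`. If `H · I ^ (μ - 1) ⊂ (f, L)` then `H ∈ I ^ (μ - 1)`.

Proof. Suppose not; by `mem_pI_pow_iff` there is a least `r` with `η = (beta H)_r ≠ 0`, and `r ≤ μ - 2` (so `μ ≥ 2`).
`deg η = r' ≤ r` (`beta_coeff_natDegree`). Let `g = (φ * X ^ (μ - 2 - r')) %ₘ Λ`, `deg g ≤ μ - 2`, and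
`n = 2 μ - 3 - r ≥ μ - 1 > deg g`. By `beta_surj` there is `h ∈ I ^ n ⊂ I ^ (μ - 1)` with `beta h = C g * X ^ n`.
By assumption `H h = α f + γ L`. Apply `beta` and reduce all coefficients modulo `Λ` (compare coefficients of powers of
`T`; a congruence modulo `Λ` means divisibility of the difference by `Λ`): with `A_i = (beta α)_i`, `φ_j = (beta f)_(μ + j)`,
`φ_0 = φ`, `(beta f)_i = 0` for `i < μ`, and `(beta L)` is `0` modulo `Λ`:
for every `N`: `(beta (H h))_N ≡ Σ_{i + j = N - μ} A_i φ_j` (the sum is `0` if `N < μ`).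
The left side is `g * (beta H)_(N - n)`: it is `0` for `N < n + r = 2 μ - 3` and `g η` for `N = 2 μ - 3`.
Case `μ = 2` (`r = r' = 0`, `N = 1 < μ`): `g η ≡ 0`, `η` is a nonzero constant, `g ≡ φ` modulo `Λ`, so `Λ ∣ φ`, impossible because
`Λ` has degree `1` and is coprime to `φ`.
Case `μ ≥ 3`: by induction `A_i ≡ 0` for `i < μ - 3` (`A_i φ ≡ 0` and `φ` is invertible modulo `Λ`), and then
`g η ≡ A_(μ-3) φ`. As `g ≡ φ Y ^ (μ - 2 - r')`: `φ (η Y ^ (μ - 2 - r') - A_(μ - 3)) ≡ 0`, so `Λ` divides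
`η Y ^ (μ - 2 - r') - A_(μ-3)`. But `η Y ^ (μ - 2 - r')` has degree exactly `μ - 2` and `deg A_(μ - 3) ≤ μ - 3`
(`beta_coeff_natDegree`), so this difference is nonzero of degree `μ - 2 < deg Λ = μ - 1`: contradiction. -/
theorem LL (a b : k) (μ : ℕ) (f : k[X][X]) (hf : f ∈ pI a b ^ μ) (Λ : k[X]) (hΛ : Λ.Monic)
    (hdeg : Λ.natDegree + 1 = μ) (hcop : IsCoprime Λ ((beta a b f).coeff μ)) (L : k[X][X])
    (hL : beta a b L = C Λ * X ^ (μ - 1)) (H : k[X][X])
    (hH : ∀ h ∈ pI a b ^ (μ - 1), ∃ α γ, H * h = α * f + γ * L) : H ∈ pI a b ^ (μ - 1) := by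
  by_contra hcon
  rw [mem_pI_pow_iff] at hcon
  push Not at hcon
  classical
  obtain ⟨r, hr, hη, hmin⟩ : ∃ r, r < μ - 1 ∧ (beta a b H).coeff r ≠ 0 ∧
      ∀ s, s < r → (beta a b H).coeff s = 0 := by
    refine ⟨Nat.find hcon, (Nat.find_spec hcon).1, (Nat.find_spec hcon).2, ?_⟩
    intro s hs
    have := Nat.find_min hcon hs
    push Not at this
    exact this (lt_trans hs (Nat.find_spec hcon).1)
  rw [mem_pI_pow_iff] at hf
  set η := (beta a b H).coeff r with hηdef
  set φ := (beta a b f).coeff μ with hφdef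
  have hr' : η.natDegree ≤ r := beta_coeff_natDegree a b H r
  have hμ2 : 2 ≤ μ := by omega
  set g : k[X] := (φ * X ^ (μ - 2 - η.natDegree)) %ₘ Λ with hgdef
  have hΛ1 : Λ ≠ 1 := by
    intro h
    rw [h, natDegree_one] at hdeg
    omega
  have hg : g.natDegree < Λ.natDegree := natDegree_modByMonic_lt _ hΛ hΛ1
  obtain ⟨h, hh, hbh⟩ := beta_surj a b (2 * μ - 3 - r) g (by omega)
  obtain ⟨α, γ, hαγ⟩ := hH h (Ideal.pow_le_pow_right (by omega) hh)
  have hb := congrArg (beta a b) hαγ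
  rw [map_mul, map_add, map_mul, map_mul, hbh, hL] at hb
  obtain ⟨E, hE⟩ : X ^ r ∣ beta a b H := X_pow_dvd_iff.2 hmin
  obtain ⟨F, hF⟩ : X ^ μ ∣ beta a b f := X_pow_dvd_iff.2 hf
  have hE0 : E.coeff 0 = η := by
    rw [hηdef, hE, coeff_X_pow_mul', if_pos (le_refl _), Nat.sub_self]
  have hF0 : F.coeff 0 = φ := by
    rw [hφdef, hF, coeff_X_pow_mul', if_pos (le_refl _), Nat.sub_self]
  -- reduction modulo `Λ`
  let π : k[X] →+* (k[X] ⧸ Ideal.span {Λ}) := Ideal.Quotient.mk _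
  have hπΛ : π Λ = 0 := Ideal.Quotient.eq_zero_iff_mem.2 (Ideal.mem_span_singleton_self Λ)
  have hπφ : IsUnit (π φ) := by
    obtain ⟨s, t, hst⟩ := hcop
    have h1 := congrArg π hst
    rw [map_add, map_mul, map_mul, hπΛ, mul_zero, zero_add, map_one] at h1
    exact IsUnit.of_mul_eq_one_right _ h1
  have hP := congrArg (Polynomial.map π) hb
  rw [hE, hF] at hP
  simp only [Polynomial.map_mul, Polynomial.map_add, Polynomial.map_pow, Polynomial.map_X,
    Polynomial.map_C, hπΛ, C_0, zero_mul, mul_zero, add_zero] at hP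
  obtain ⟨s, hs, hs2, hs3⟩ := LL_core μ r (2 * μ - 3 - r) (by omega) hμ2
    (E.map π) (F.map π) ((beta a b α).map π) (π g)
    (by rw [coeff_map, hF0]; exact hπφ)
    (by
      rw [pow_add]
      calc X ^ r * X ^ (2 * μ - 3 - r) * (E.map π * C (π g))
          = X ^ r * E.map π * (C (π g) * X ^ (2 * μ - 3 - r)) := by ring
        _ = _ := by rw [hP]; ring)
  rw [coeff_map, coeff_map, hE0, hF0] at hs
  obtain ⟨A, hA, hAs⟩ : ∃ A : k[X], A.degree < ((μ - 2 : ℕ) : WithBot ℕ) ∧ s = π A := by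
    rcases Nat.lt_or_ge μ 3 with h3 | h3
    · exact ⟨0, by rw [degree_zero]; exact WithBot.bot_lt_coe _, by rw [hs2 (by omega), map_zero]⟩
    · refine ⟨(beta a b α).coeff (μ - 3), ?_, by rw [hs3 h3, coeff_map]⟩
      refine lt_of_le_of_lt degree_le_natDegree ?_
      have := beta_coeff_natDegree a b α (μ - 3)
      exact_mod_cast (by omega : ((beta a b α).coeff (μ - 3)).natDegree < μ - 2)
  have hπg : π g = π (φ * X ^ (μ - 2 - η.natDegree)) := by
    rw [Ideal.Quotient.eq, Ideal.mem_span_singleton, hgdef]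
    have := modByMonic_add_div (φ * X ^ (μ - 2 - η.natDegree)) Λ
    exact ⟨-((φ * X ^ (μ - 2 - η.natDegree)) /ₘ Λ), by linear_combination this⟩
  have hdvd : Λ ∣ η * X ^ (μ - 2 - η.natDegree) - A := by
    rw [← Ideal.mem_span_singleton, ← Ideal.Quotient.eq]
    show π _ = π _
    apply hπφ.mul_right_cancel
    rw [← hAs, ← hs, hπg, map_mul, map_mul]
    ring
  have hdegη : (η * X ^ (μ - 2 - η.natDegree)).degree = ((μ - 2 : ℕ) : WithBot ℕ) := by
    rw [degree_mul, degree_X_pow, degree_eq_natDegree hη]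
    norm_cast
    omega
  have hdiff : (η * X ^ (μ - 2 - η.natDegree) - A).degree = ((μ - 2 : ℕ) : WithBot ℕ) := by
    rw [degree_sub_eq_left_of_degree_lt (by rw [hdegη]; exact hA), hdegη]
  have hne : η * X ^ (μ - 2 - η.natDegree) - A ≠ 0 := by
    intro h0
    rw [h0, degree_zero] at hdiff
    exact WithBot.bot_ne_coe hdiff
  have hle := natDegree_le_of_dvd hdvd hne
  rw [natDegree_eq_of_degree_eq_some hdiff] at hle
  omega

end ShghV
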