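import Pool.Agent.ShghV.Beta

/-!
# Products of linear forms span
-/

namespace ShghV

open Polynomial

variable {k : Type*} [Field k]

/-- Let `Z ⊂ k` have at least two elements. A subspace of `k[Y]` which contains all products `∏_{i < m} (Y - c_i)` with
`c_i ∈ Z` contains all polynomials of degree `≤ m`. Proof: (1) it contains all products of `r ≤ m` factors, by
induction on `m - r`: for `r < m` and a product `Π` of `r` factors take `c ≠ c'` in `Z`, then
`Π (Y - c) - Π (Y - c') = (c' - c) Π`. (2) In particular it contains `(Y - c) ^ r`, `r ≤ m`, `c ∈ Z`, and these span the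
polynomials of degree `≤ m` (Taylor expansion at `c`: `Polynomial.sum_taylor_eq`). -/
theorem span_products (m : ℕ) (Z : Set k) (hZ : Z.Nontrivial) (S : Submodule k k[X])
    (h : ∀ c : Fin m → k, (∀ i, c i ∈ Z) → ∏ i, (X - C (c i)) ∈ S) (G : k[X]) (hG : G.natDegree ≤ m) :
    G ∈ S := by
  obtain ⟨z, hz, z', hz', hne⟩ := hZ
  -- all products of `r ≤ m` factors
  have step : ∀ r, (∀ c : Fin (r + 1) → k, (∀ i, c i ∈ Z) → ∏ i, (X - C (c i)) ∈ S) →
      ∀ c : Fin r → k, (∀ i, c i ∈ Z) → ∏ i, (X - C (c i)) ∈ S := by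
    intro r hr c hc
    have h1 := hr (Fin.cons z c) (by
      intro i
      refine Fin.cases ?_ (fun j => ?_) i
      · exact hz
      · exact hc j)
    have h2 := hr (Fin.cons z' c) (by
      intro i
      refine Fin.cases ?_ (fun j => ?_) i
      · exact hz'
      · exact hc j)
    rw [Fin.prod_univ_succ] at h1 h2
    simp only [Fin.cons_zero, Fin.cons_succ] at h1 h2
    have h3 := S.smul_mem (z' - z)⁻¹ (S.sub_mem h1 h2)
    have h4 : (z' - z)⁻¹ • ((X - C z) * ∏ i, (X - C (c i)) - (X - C z') * ∏ i, (X - C (c i))) =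
        ∏ i, (X - C (c i)) := by
      rw [← sub_mul, smul_eq_C_mul, ← mul_assoc,
        show (X - C z - (X - C z') : k[X]) = C (z' - z) by rw [C_sub]; ring, ← C_mul,
        inv_mul_cancel₀ (sub_ne_zero.2 hne.symm), C_1, one_mul]
    rwa [h4] at h3
  have all : ∀ r ≤ m, ∀ c : Fin r → k, (∀ i, c i ∈ Z) → ∏ i, (X - C (c i)) ∈ S := by
    intro r hr
    exact Nat.decreasingInduction (fun n _ ih => step n ih) h hr
  have hpow : ∀ r ≤ m, (X - C z) ^ r ∈ S := by
    intro r hr
    have := all r hr (fun _ => z) fun _ => hz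
    rwa [Finset.prod_const, Finset.card_univ, Fintype.card_fin] at this
  rw [← sum_taylor_eq G z]
  refine Submodule.sum_mem _ fun i hi => ?_
  show C ((taylor z G).coeff i) * (X - C z) ^ i ∈ S
  rw [← smul_eq_C_mul]
  refine S.smul_mem _ (hpow i ?_)
  have h5 := le_natDegree_of_mem_supp i hi
  rw [natDegree_taylor] at h5
  omega

/-- The powers of an ideal generated by two elements are generated by the monomials. -/
theorem span_pair_pow_le {A : Type*} [CommRing A] (u v : A) (m : ℕ) : ∀ (S : Ideal A),
    (∀ j ≤ m, u ^ (m - j) * v ^ j ∈ S) → Ideal.span {u, v} ^ m ≤ S := by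
  induction m with
  | zero =>
    intro S h
    have h0 := h 0 (le_refl 0)
    simp only [Nat.sub_self, pow_zero, mul_one] at h0
    rw [(Ideal.eq_top_iff_one S).2 h0]
    exact le_top
  | succ m ih =>
    intro S h
    have hu : Ideal.span {u, v} ^ m ≤ Submodule.comap (LinearMap.lsmul A A u) S := by
      refine ih _ fun j hj => ?_
      rw [Submodule.mem_comap, LinearMap.lsmul_apply, smul_eq_mul]
      have := h j (by omega)
      rw [show m + 1 - j = (m - j) + 1 by omega, pow_succ] at this
      convert this using 1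
      ring
    have hv : Ideal.span {u, v} ^ m ≤ Submodule.comap (LinearMap.lsmul A A v) S := by
      refine ih _ fun j hj => ?_
      rw [Submodule.mem_comap, LinearMap.lsmul_apply, smul_eq_mul]
      have := h (j + 1) (by omega)
      rw [show m + 1 - (j + 1) = m - j by omega, pow_succ] at this
      convert this using 1
      ring
    rw [pow_succ, Ideal.mul_le]
    intro x hx y hy
    obtain ⟨α, β, rfl⟩ := Ideal.mem_span_pair.1 hy
    have h1 := hu hx
    have h2 := hv hx
    rw [Submodule.mem_comap, LinearMap.lsmul_apply, smul_eq_mul] at h1 h2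
    have h3 : x * (α * u + β * v) = α * (u * x) + β * (v * x) := by ring
    rw [h3]
    exact S.add_mem (S.mul_mem_left _ h1) (S.mul_mem_left _ h2)

/-- The form of degree `m` with the dehomogenization `G`. -/
noncomputable def formL (a b : k) (m : ℕ) : k[X] →ₗ[k] k[X][X] where
  toFun G := ∑ j ∈ Finset.range (m + 1),
    C (C (G.coeff j)) * (C (X - C a) ^ (m - j) * (X - C (C b)) ^ j)
  map_add' G G' := by
    rw [← Finset.sum_add_distrib]
    exact Finset.sum_congr rfl fun j _ => by rw [coeff_add, C_add, C_add]; ring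
  map_smul' r G := by
    rw [RingHom.id_apply, Finset.smul_sum]
    refine Finset.sum_congr rfl fun j _ => ?_
    rw [coeff_smul, smul_eq_mul, C_mul, C_mul, mul_assoc, Algebra.smul_def]
    rfl

/-- Let `S` be an ideal of `k[x][y]`, `Z ⊂ k` with at least two elements, and suppose that `S` contains every
`L ∈ I ^ m` with `beta L = Λ(Y) T ^ m`, `Λ = ∏_{i < m} (Y - c_i)`, `c_i ∈ Z`. Then `I ^ m ⊂ S`.
Proof: let `form G = Σ_{j ≤ m} C (C G_j) * C (X - C a) ^ (m - j) * (X - C (C b)) ^ j`, `k`-linear in `G`, in `I ^ m`, with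
`beta (form G) = C G * X ^ m` if `natDegree G ≤ m` (`beta_monomial`). `span_products` for the subspace of all `G` with
`form G ∈ S` gives `form (Y ^ j) = (x - a) ^ (m - j) (y - b) ^ j ∈ S` for `j ≤ m`, and these generate the ideal `I ^ m`
(`Ideal.span_pair_pow`, or `mem_pI_pow_iff` and `exists_expansion`, or induction on `m`). -/
theorem pI_pow_le_of_products (a b : k) (m : ℕ) (Z : Set k) (hZ : Z.Nontrivial) (S : Ideal k[X][X])
    (h : ∀ (c : Fin m → k), (∀ i, c i ∈ Z) → ∀ L ∈ pI a b ^ m,
      beta a b L = C (∏ i, (X - C (c i))) * X ^ m → L ∈ S) : pI a b ^ m ≤ S := by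
  have hmono : ∀ j ≤ m, C (X - C a) ^ (m - j) * (X - C (C b)) ^ j ∈ pI a b ^ m := by
    intro j hj
    have h1 := Ideal.mul_mem_mul
      (Ideal.pow_mem_pow (show C (X - C a) ∈ pI a b from Ideal.subset_span (by simp)) (m - j))
      (Ideal.pow_mem_pow (show X - C (C b) ∈ pI a b from Ideal.subset_span (by simp)) j)
    have h2 : pI a b ^ (m - j) * pI a b ^ j = pI a b ^ (m - j + j) :=
      (pow_add (pI a b) (m - j) j).symm
    rw [h2, Nat.sub_add_cancel hj] at h1
    exact h1
  have hform : ∀ G, formL a b m G ∈ pI a b ^ m := by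
    intro G
    show ∑ j ∈ Finset.range (m + 1),
      C (C (G.coeff j)) * (C (X - C a) ^ (m - j) * (X - C (C b)) ^ j) ∈ pI a b ^ m
    refine Ideal.sum_mem _ fun j hj => Ideal.mul_mem_left _ _ (hmono j ?_)
    have := Finset.mem_range.1 hj
    omega
  have hbeta : ∀ G : k[X], G.natDegree ≤ m → beta a b (formL a b m G) = C G * X ^ m := by
    intro G hG
    have h1 : formL a b m G = ∑ j ∈ Finset.range (m + 1),
      C (C (G.coeff j)) * (C (X - C a) ^ (m - j) * (X - C (C b)) ^ j) := rfl
    rw [h1, map_sum]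
    conv_rhs => rw [as_sum_range_C_mul_X_pow' G (Nat.lt_succ_of_le hG), map_sum, Finset.sum_mul]
    refine Finset.sum_congr rfl fun j hj => ?_
    have hj' := Finset.mem_range.1 hj
    rw [map_mul, beta_monomial, show m - j + j = m by omega, C_mul, mul_assoc]
    congr 1
    simp [beta]
  have hS : ∀ G : k[X], G.natDegree ≤ m → formL a b m G ∈ S := by
    intro G hG
    refine span_products m Z hZ ((Submodule.restrictScalars k S).comap (formL a b m)) ?_ G hG
    intro c hc
    rw [Submodule.mem_comap, Submodule.restrictScalars_mem]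
    refine h c hc _ (hform _) (hbeta _ ?_)
    refine le_trans (natDegree_prod_le _ _) ?_
    rw [Finset.sum_congr rfl fun i _ => natDegree_X_sub_C (c i)]
    simp
  refine span_pair_pow_le _ _ m S fun j hj => ?_
  have h1 := hS (X ^ j) (by rw [natDegree_X_pow]; exact hj)
  have h2 : formL a b m (X ^ j) = C (X - C a) ^ (m - j) * (X - C (C b)) ^ j := by
    show ∑ i ∈ Finset.range (m + 1),
      C (C ((X ^ j : k[X]).coeff i)) * (C (X - C a) ^ (m - i) * (X - C (C b)) ^ i) = _
    rw [Finset.sum_eq_single j]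
    · rw [coeff_X_pow, if_pos rfl, C_1, C_1, one_mul]
    · intro i _ hi
      rw [coeff_X_pow, if_neg hi, C_0, C_0, zero_mul]
    · intro hj'
      exact absurd (Finset.mem_range.2 (by omega)) hj'
  rwa [h2] at h1

end ShghV
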