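import Pool.Agent.ShghV.LL
import Pool.Agent.ShghV.Span

/-!
# Stability of the powers of the ideal of a point
-/

namespace ShghV

open Polynomial

variable {k : Type*} [Field k]

/-- The line is in the ideal of the point. -/
theorem Loc_line_mem (x0 y0 c : k) :
    (X - C (C y0 + C c * (X - C x0)) : k[X][X]) ∈ pI x0 y0 := by
  have h1 : (X - C (C y0 + C c * (X - C x0)) : k[X][X]) =
      (X - C (C y0)) - C (C c) * C (X - C x0) := by
    rw [C_add, C_mul]
    ring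
  rw [h1]
  exact Ideal.sub_mem _ (Ideal.subset_span (Or.inr rfl))
    (Ideal.mul_mem_left _ _ (Ideal.subset_span (Or.inl rfl)))

theorem Loc_not_dvd (f : k[X][X]) (hδ : 1 ≤ f.natDegree) (r : k[X]) (hr : r ≠ 0) : ¬ f ∣ C r := by
  intro h
  have h1 := natDegree_le_of_dvd h (by rwa [Ne, C_eq_zero])
  rw [natDegree_C] at h1
  omega

theorem Loc_phi_ne (x0 y0 : k) (μ : ℕ) (f : k[X][X]) (hμ : f ∈ pI x0 y0 ^ μ)
    (hμ' : f ∉ pI x0 y0 ^ (μ + 1)) : (beta x0 y0 f).coeff μ ≠ 0 := by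
  intro h
  apply hμ'
  rw [mem_pI_pow_iff] at hμ ⊢
  intro n hn
  rcases Nat.lt_succ_iff_lt_or_eq.1 hn with h1 | rfl
  · exact hμ n h1
  · exact h

theorem Loc_infinite [Infinite k] (φ : k[X]) (hφ : φ ≠ 0) : {c : k | φ.eval c ≠ 0}.Infinite := by
  have h1 : {c : k | φ.eval c ≠ 0} = {c : k | φ.IsRoot c}ᶜ := rfl
  rw [h1]
  exact (finite_setOfPred_isRoot hφ).infinite_compl

/-- Let `f` be irreducible and monic of degree `≥ 1` in `y`, of multiplicity exactly `μ ≥ 1` at the point `(x0, y0)`,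
`I = pI x0 y0`, and `v I ^ a ⊂ ((x - x0) ^ a, f)`. Let `l = (y - y0) - c (x - x0)` be a line which is not tangent
(`φ(c) ≠ 0`, `φ = (beta f)_μ`), `a + 1 ≤ b + μ`. Then `v l ^ b e ∈ (x - x0) ^ a I ^ (μ - 1) + (f)` for `e ∈ I ^ (μ - 1)`.

Proof. Let `S` be the set of all `e` with this property; it is an ideal. Let `Z = {c | φ(c) ≠ 0}` (infinite, since
`φ ≠ 0` by `mem_pI_pow_iff`). By `pI_pow_le_of_products` it suffices to show `L ∈ S` for `L ∈ I ^ (μ - 1)` with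
`beta L = C Λ * X ^ (μ - 1)`, `Λ = ∏_{i < μ - 1} (Y - c_i)`, `c_i ∈ Z` (so `Λ` is coprime to `φ`: `IsCoprime.prod_left`,
`Y - c_i` is irreducible and does not divide `φ`). `l ^ b L ∈ I ^ (b + μ - 1) ⊂ I ^ a`, so `v l ^ b L = (x - x0) ^ a H + f t`.
For every `h ∈ I ^ (μ - 1)`: `l ^ b h ∈ I ^ a`, so `v l ^ b h = (x - x0) ^ a H' + f t'`, and
`(x - x0) ^ a (H h - L H') = (v l ^ b L - f t) h - L (v l ^ b h - f t') ∈ (f)`. `f` is prime and does not divide
`C ((X - C x0) ^ a)` (degree in `y`), so `f ∣ H h - L H'`. Hence `H h ∈ (f, L)` for all these `h`, and `H ∈ I ^ (μ - 1)`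
by `LL`. -/
theorem loc_stable [Infinite k] (f : k[X][X]) (hf : f.Monic) (hirr : Irreducible f)
    (hδ : 1 ≤ f.natDegree) (x0 y0 : k) (μ a b : ℕ) (hμ1 : 1 ≤ μ) (hab : a + 1 ≤ b + μ)
    (hμ : f ∈ pI x0 y0 ^ μ) (hμ' : f ∉ pI x0 y0 ^ (μ + 1)) (v : k[X][X])
    (hv : ∀ h ∈ pI x0 y0 ^ a, ∃ z t, v * h = C ((X - C x0) ^ a) * z + f * t) (c : k)
    (hc : ((beta x0 y0 f).coeff μ).eval c ≠ 0) (e : k[X][X]) (he : e ∈ pI x0 y0 ^ (μ - 1)) :
    ∃ z ∈ pI x0 y0 ^ (μ - 1), ∃ t,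
      v * (X - C (C y0 + C c * (X - C x0))) ^ b * e = C ((X - C x0) ^ a) * z + f * t := by
  set l : k[X][X] := X - C (C y0 + C c * (X - C x0)) with hl
  have hlI : l ∈ pI x0 y0 := Loc_line_mem x0 y0 c
  have hprime : Prime f := hirr.prime
  let S : Ideal k[X][X] :=
    { carrier := {e | ∃ z ∈ pI x0 y0 ^ (μ - 1), ∃ t,
        v * l ^ b * e = C ((X - C x0) ^ a) * z + f * t}
      add_mem' := by
        rintro e e' ⟨z, hz, t, h⟩ ⟨z', hz', t', h'⟩
        refine ⟨z + z', Ideal.add_mem _ hz hz', t + t', ?_⟩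
        rw [mul_add, h, h']
        ring
      zero_mem' := ⟨0, Ideal.zero_mem _, 0, by ring⟩
      smul_mem' := by
        rintro r e ⟨z, hz, t, h⟩
        refine ⟨r * z, Ideal.mul_mem_left _ _ hz, r * t, ?_⟩
        rw [smul_eq_mul]
        linear_combination r * h }
  have hφ := Loc_phi_ne x0 y0 μ f hμ hμ'
  have hle : pI x0 y0 ^ (μ - 1) ≤ S := by
    refine pI_pow_le_of_products x0 y0 (μ - 1) _ (Loc_infinite _ hφ).nontrivial S ?_
    intro c' hc' L hL hbL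
    have hmem : ∀ h ∈ pI x0 y0 ^ (μ - 1), l ^ b * h ∈ pI x0 y0 ^ a := by
      intro h hh
      have h1 : l ^ b * h ∈ pI x0 y0 ^ b * pI x0 y0 ^ (μ - 1) :=
        Ideal.mul_mem_mul (Ideal.pow_mem_pow hlI b) hh
      have h2 : pI x0 y0 ^ b * pI x0 y0 ^ (μ - 1) ≤ pI x0 y0 ^ a := by
        refine le_trans (le_of_eq (pow_add (pI x0 y0) b (μ - 1)).symm) ?_
        exact Ideal.pow_le_pow_right (by omega)
      exact h2 h1
    obtain ⟨H, t, hH⟩ := hv _ (hmem L hL)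
    refine ⟨H, ?_, t, by rw [mul_assoc]; exact hH⟩
    refine LL x0 y0 μ f hμ (∏ i, (X - C (c' i))) (monic_prod_of_monic _ _ fun i _ =>
      monic_X_sub_C _) ?_ ?_ L hbL H ?_
    · rw [natDegree_prod_of_monic _ _ fun i _ => monic_X_sub_C _]
      simp only [natDegree_X_sub_C, Finset.sum_const, Finset.card_univ, Fintype.card_fin,
        smul_eq_mul, mul_one]
      omega
    · refine IsCoprime.prod_left fun i _ => ?_
      rw [(irreducible_X_sub_C (c' i)).coprime_iff_not_dvd, dvd_iff_isRoot]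
      exact hc' i
    · intro h hh
      obtain ⟨H', t', hH'⟩ := hv _ (hmem h hh)
      have h1 : f ∣ C ((X - C x0) ^ a) * (H * h - L * H') := by
        refine ⟨L * t' - t * h, ?_⟩
        linear_combination h * (-1 : k[X][X]) * hH + L * hH'
      have h2 : f ∣ H * h - L * H' := by
        refine (hprime.dvd_or_dvd h1).resolve_left ?_
        exact Loc_not_dvd f hδ _ (pow_ne_zero _ (X_sub_C_ne_zero x0))
      obtain ⟨w, hw⟩ := h2
      exact ⟨w, H', by linear_combination hw⟩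
  exact hle he

end ShghV
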