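import Pool.Agent.ShghV.Defs

/-!
# The norm of `k[x][y] / f` over `k[x]`, `f` monic in `y`
-/

namespace ShghV

open Polynomial

variable {k : Type*} [Field k]

theorem Nf_mul (f v w : k[X][X]) : Nf f (v * w) = Nf f v * Nf f w := by
  rw [Nf, map_mul, map_mul]
  rfl

theorem Nf_pow (f v : k[X][X]) (n : ℕ) : Nf f (v ^ n) = Nf f v ^ n := by
  rw [Nf, map_pow, map_pow]
  rfl

/-- `v` and `w` congruent modulo `f` have the same norm (`AdjoinRoot.mk_eq_mk`). -/
theorem Nf_congr (f v w : k[X][X]) (h : f ∣ v - w) : Nf f v = Nf f w := by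
  unfold Nf
  rw [AdjoinRoot.mk_eq_mk.2 h]

/-- `Algebra.norm_algebraMap_of_basis` with the basis `(AdjoinRoot.powerBasis' hf).basis`. -/
theorem Nf_C (f : k[X][X]) (hf : f.Monic) (r : k[X]) : Nf f (C r) = r ^ f.natDegree := by
  unfold Nf
  have h := Algebra.norm_algebraMap_of_basis (AdjoinRoot.powerBasisAux' hf) r
  rw [Fintype.card_fin] at h
  exact h

/-- `Algebra.norm_ne_zero_iff_of_basis`; `AdjoinRoot f` is a domain because `f` is prime (`k[x][y]` is
factorial), `AdjoinRoot.mk_eq_zero`. -/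
theorem Nf_ne_zero (f : k[X][X]) (hf : f.Monic) (hirr : Irreducible f) (v : k[X][X]) (hv : ¬ f ∣ v) :
    Nf f v ≠ 0 := by
  have : IsDomain (AdjoinRoot f) := AdjoinRoot.isDomain_of_prime hirr.prime
  unfold Nf
  rw [Algebra.norm_ne_zero_iff_of_basis (AdjoinRoot.powerBasisAux' hf)]
  intro h
  exact hv (AdjoinRoot.mk_eq_zero.1 h)

/-- The minimal polynomial of the root of `f` is `f`. -/
theorem minpoly_root_eq (f : k[X][X]) (hf : f.Monic) :
    minpoly k[X] (AdjoinRoot.powerBasis' hf).gen = f := by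
  have hint := (AdjoinRoot.powerBasis' hf).isIntegral_gen
  refine eq_of_monic_of_dvd_of_natDegree_le hf (minpoly.monic hint) ?_ ?_
  · rw [← AdjoinRoot.mk_eq_zero, ← AdjoinRoot.aeval_eq]
    exact minpoly.aeval _ _
  · rw [PowerBasis.natDegree_minpoly]
    exact le_refl _

/-- The norm of `y - p(x)` is `± f(x, p(x))`. Proof: the matrix of multiplication by `y` in the basis `y ^ j` has the
characteristic polynomial `f` (`charpoly_leftMulMatrix`, or the companion matrix), and
`norm (y - p) = det (M_y - p) = (-1) ^ δ charpoly(M_y)(p)` (`Matrix.eval_charpoly`, `Matrix.det_neg`, `Algebra.norm_eq_matrix_det`).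
(If `minpoly` needs a domain, prove `charpoly = f` directly: `f` is monic of the right degree and annihilates the
matrix; or compute with `AdjoinRoot.powerBasis'`.) You may assume `f` irreducible if you need that
`AdjoinRoot f` is a domain (`minpoly k[X] (AdjoinRoot.root f) = f` for monic irreducible `f`). -/
theorem Nf_linear (f : k[X][X]) (hf : f.Monic) (hirr : Irreducible f) (p : k[X]) :
    Nf f (X - C p) = (-1) ^ f.natDegree * f.eval p := by
  have _ := hirr
  have hmin := minpoly_root_eq f hf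
  have hch := charpoly_leftMulMatrix (AdjoinRoot.powerBasis' hf)
  rw [hmin] at hch
  unfold Nf
  have h1 : AdjoinRoot.mk f (X - C p) =
      (AdjoinRoot.powerBasis' hf).gen - algebraMap k[X] (AdjoinRoot f) p := by
    rw [map_sub, AdjoinRoot.mk_X, AdjoinRoot.mk_C]
    rfl
  rw [Algebra.norm_eq_matrix_det (AdjoinRoot.powerBasis' hf).basis, h1, map_sub, AlgHom.commutes]
  have h2 := Matrix.eval_charpoly
    (Algebra.leftMulMatrix (AdjoinRoot.powerBasis' hf).basis (AdjoinRoot.powerBasis' hf).gen) p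
  rw [hch] at h2
  rw [h2, ← neg_sub, Matrix.det_neg, Fintype.card_fin]
  rfl

/-- The norm of `v` lies in the ideal `(v, f)`. Proof: Cayley-Hamilton: let `M` be the matrix of multiplication by
`v` on `O = AdjoinRoot f` (basis `y ^ j`), `χ` its characteristic polynomial (monic, degree `δ`); `χ(v) = 0` in `O`
(`Matrix.aeval_self_charpoly` and injectivity of `Algebra.leftMulMatrix`, or `Algebra.lmul`), and
`χ(0) = (-1) ^ δ det M = ± norm v`; so `norm v = v * z` in `O` for some `z`. -/
theorem Nf_mem (f : k[X][X]) (hf : f.Monic) (v : k[X][X]) : ∃ z t, C (Nf f v) = v * z + f * t := by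
  set b := AdjoinRoot.powerBasisAux' hf with hb
  set M := Algebra.leftMulMatrix b (AdjoinRoot.mk f v) with hM
  set χ := M.charpoly with hχ
  have h0 : aeval (AdjoinRoot.mk f v) χ = 0 := by
    apply (injective_iff_map_eq_zero (Algebra.leftMulMatrix b)).1 (Algebra.leftMulMatrix_injective b)
    rw [← aeval_algHom_apply]
    exact Matrix.aeval_self_charpoly M
  have h1 : χ = divX χ * X + C (χ.coeff 0) := (divX_mul_X_add χ).symm
  have h2 : Nf f v = (-1) ^ f.natDegree * χ.coeff 0 := by
    unfold Nf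
    rw [Algebra.norm_eq_matrix_det b, Matrix.det_eq_sign_charpoly_coeff, Fintype.card_fin]
  obtain ⟨z, hz⟩ := AdjoinRoot.mk_surjective (aeval (AdjoinRoot.mk f v) (divX χ))
  rw [h1, map_add, map_mul, aeval_X, aeval_C, ← hz] at h0
  have h3 : AdjoinRoot.mk f (C (χ.coeff 0)) = - AdjoinRoot.mk f (v * z) := by
    rw [map_mul, AdjoinRoot.mk_C]
    have h4 : AdjoinRoot.mk f z * AdjoinRoot.mk f v + AdjoinRoot.of f (χ.coeff 0) = 0 := h0
    linear_combination h4
  have h5 : AdjoinRoot.mk f (C (Nf f v)) =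
      AdjoinRoot.mk f (v * (-(-1) ^ f.natDegree * z)) := by
    rw [h2, C_mul, map_mul, h3]
    simp only [map_mul, map_neg, map_pow, map_one]
    ring
  obtain ⟨t, ht⟩ := AdjoinRoot.mk_eq_mk.1 h5
  exact ⟨-(-1) ^ f.natDegree * z, t, by linear_combination ht⟩

end ShghV
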