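import Pool.Agent.ShghR.Bezout
import Pool.Agent.ShghT.SemiB

/-!
# From functionals to dimensions
-/

namespace ShghV

open MvPolynomial ShghE ShghR ShghT

variable {k : Type*} [Field k]

theorem two_mul_choose (n : ℕ) : 2 * (n + 1).choose 2 = n * (n + 1) := by
  rw [Nat.choose_two_right, Nat.add_sub_cancel,
    Nat.mul_div_cancel' (even_iff_two_dvd.1 ?_), mul_comm]
  rw [mul_comm]
  exact Nat.even_mul_succ_self n

/-- If every functional which vanishes on the polynomials of degree `≤ c` and on `∩ I_i ^ (μ_i)` is zero, then the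
linear system `(c; μ)` has the expected dimension, and this number is `≥ 0`.

Proof. Let `J = Bezout_c P μ : k[X 0, X 1] → (Bezout_I μ → k)` be the jet map: surjective (`Bezout_c_surj`), kernel
`∩ I_i ^ (μ_i)` (`Bezout_c_eq`). The restriction of `J` to the polynomials of degree `≤ c` is surjective: otherwise there is
a nonzero functional `l` on `Bezout_I μ → k` which vanishes on its range (`Submodule.exists_le_ker_of_lt_top` or
`Submodule.exists_dual_map_eq_bot_of_...`), and `φ = l ∘ J` is a nonzero functional as in the hypothesis. The kernel of the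
restriction is `LS c μ P`, so rank-nullity gives `finrank (LS c μ P) + card (Bezout_I μ) = (c + 2).choose 2`
(`Bezout_V`, `Bezout_finrank` or `card (tfS c)`; `Bezout_cardI`; `2 * (n + 1).choose 2 = n * (n + 1)`). `ptIdeal` and
`ShghT.pt` are the same ideals (`rfl`). -/
theorem finrank_of_functional {s : ℕ} (P : Fin s → Fin 2 → k) (hP : Function.Injective P) (c : ℕ)
    (μ : Fin s → ℕ)
    (h : ∀ φ : MvPolynomial (Fin 2) k →ₗ[k] k, (∀ u, u.totalDegree ≤ c → φ u = 0) →
      (∀ u, (∀ i, u ∈ ptIdeal (P i 0) (P i 1) ^ μ i) → φ u = 0) → φ = 0) :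
    Module.finrank k (LS c μ P) + ∑ i, (μ i + 1).choose 2 = (c + 2).choose 2 := by
  classical
  set R : Bezout_V k c →ₗ[k] (Bezout_I μ → k) := (Bezout_c P μ).comp (Bezout_V k c).subtype
    with hR
  have hsurj : LinearMap.range R = ⊤ := by
    by_contra hne
    obtain ⟨l, hl0, hl⟩ := Submodule.exists_le_ker_of_lt_top _ (lt_top_iff_ne_top.2 hne)
    apply hl0
    have h1 := h (l.comp (Bezout_c P μ)) ?_ ?_
    · refine LinearMap.ext fun v => ?_
      obtain ⟨u, rfl⟩ := Bezout_c_surj P hP μ v
      have := congrArg (fun F : MvPolynomial (Fin 2) k →ₗ[k] k => F u) h1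
      exact this
    · intro u hu
      have h2 : Bezout_c P μ u ∈ LinearMap.range R :=
        ⟨⟨u, (mem_restrictTotalDegree _ _ _).2 hu⟩, rfl⟩
      exact hl h2
    · intro u hu
      rw [LinearMap.comp_apply, (Bezout_c_eq P μ u).2 hu, map_zero]
  have hker : (LinearMap.ker R).map (Bezout_V k c).subtype = LS c μ P := by
    ext u
    rw [Submodule.mem_map, mem_LS]
    constructor
    · rintro ⟨v, hv, rfl⟩
      exact ⟨(mem_restrictTotalDegree _ _ _).1 v.2, (Bezout_c_eq P μ _).1 hv⟩
    · rintro ⟨h1, h2⟩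
      exact ⟨⟨u, (mem_restrictTotalDegree _ _ _).2 h1⟩, (Bezout_c_eq P μ _).2 h2, rfl⟩
  have hfin : Module.Finite k (Bezout_V k c) := inferInstance
  have h1 := LinearMap.finrank_range_add_finrank_ker R
  rw [hsurj, finrank_top, Module.finrank_pi] at h1
  have h2 := Submodule.finrank_map_subtype_eq (Bezout_V k c) (LinearMap.ker R)
  rw [hker] at h2
  have h3 := Bezout_finrank (k := k) c
  have h4 := Bezout_cardI μ
  have h5 : 2 * ∑ i, (μ i + 1).choose 2 = ∑ i, μ i * (μ i + 1) := by
    rw [Finset.mul_sum]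
    exact Finset.sum_congr rfl fun i _ => two_mul_choose (μ i)
  have h6 : 2 * (c + 2).choose 2 = (c + 1) * (c + 2) := two_mul_choose (c + 1)
  rw [h2]
  omega

end ShghV
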