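import Pool.Agent.ShghV.Cartier

/-!
# The dual of the Cartier operator
-/

namespace ShghV

open MvPolynomial ShghE

variable {k : Type*} [Field k] (p : ℕ) [Fact p.Prime] [CharP k p] [PerfectRing k p]

/-- The dual operator on functionals: `φ' h = (φ (car h)) ^ p` is linear (`φ (car (C c * h))` with `C c = C (c ^ (1/p)) ^ p`),
`φ' = 0` only if `φ = 0`, and it has the vanishing properties of the class `p N`, where
`N = (c + 3; μ_i + 1)`, `p N = (c' + 3; μ_i' + 1)`, `c' = p c + 3 p - 3`, `μ_i' = p μ_i + p - 1`. -/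
theorem exists_up {ι : Type*} (P : ι → Fin 2 → k) (c : ℕ) (μ : ι → ℕ)
    (φ : MvPolynomial (Fin 2) k →ₗ[k] k) (hφd : ∀ h, h.totalDegree ≤ c → φ h = 0)
    (hφJ : ∀ h, (∀ i, h ∈ ptIdeal (P i 0) (P i 1) ^ μ i) → φ h = 0) :
    ∃ φ' : MvPolynomial (Fin 2) k →ₗ[k] k, (φ' = 0 → φ = 0) ∧
      (∀ h, h.totalDegree ≤ p * c + 3 * p - 3 → φ' h = 0) ∧
      (∀ h, (∀ i, h ∈ ptIdeal (P i 0) (P i 1) ^ (p * μ i + p - 1)) → φ' h = 0) := by
  obtain ⟨car, hc1, hc2, hc3, hc4⟩ := exists_cartier (k := k) p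
  let φ' : MvPolynomial (Fin 2) k →ₗ[k] k :=
    { toFun := fun h => φ (car h) ^ p
      map_add' := fun h h' => by
        rw [map_add, map_add, add_pow_char]
      map_smul' := fun r h => by
        obtain ⟨s, hs⟩ : ∃ s : k, s ^ p = r :=
          ⟨(frobeniusEquiv k p).symm r, frobeniusEquiv_symm_pow_p k p r⟩
        rw [RingHom.id_apply, smul_eq_mul, smul_eq_C_mul, ← hs, C_pow, hc1, ← smul_eq_C_mul,
          map_smul, smul_eq_mul, mul_pow] }
  have hp : p ≠ 0 := (Fact.out : p.Prime).ne_zero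
  refine ⟨φ', ?_, ?_, ?_⟩
  · intro h0
    refine LinearMap.ext fun g => ?_
    have h1 : φ (car (g ^ p * (X 0 * X 1) ^ (p - 1))) ^ p = 0 :=
      congrArg (fun F : MvPolynomial (Fin 2) k →ₗ[k] k => F (g ^ p * (X 0 * X 1) ^ (p - 1))) h0
    rw [hc2] at h1
    exact (pow_eq_zero_iff hp).1 h1
  · intro h hh
    show φ (car h) ^ p = 0
    rw [hφd _ (hc3 h c hh), zero_pow hp]
  · intro h hh
    show φ (car h) ^ p = 0
    rw [hφJ _ fun i => hc4 _ _ _ h (hh i), zero_pow hp]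

end ShghV
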