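import Pool.Agent.ShghV.Chain
import Pool.Agent.ShghV.Up
import Pool.Agent.ShghV.Rank
import Pool.Agent.ShghR.Mult

/-!
# Ramanujam vanishing in positive characteristic, without effectivity
-/

namespace ShghV

open MvPolynomial ShghE ShghR ShghT

variable {k : Type*} [Field k]

/-- Iteration of `exists_up` (`e` times): the class `p ^ e N`. (`c' + 3 = p (c + 3)`, `μ' + 1 = p (μ + 1)`.) -/
theorem iterate_up (p : ℕ) [Fact p.Prime] [CharP k p] [PerfectRing k p] {ι : Type*}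
    (P : ι → Fin 2 → k) (e : ℕ) (c : ℕ) (μ : ι → ℕ)
    (φ : MvPolynomial (Fin 2) k →ₗ[k] k) (hφd : ∀ h, h.totalDegree ≤ c → φ h = 0)
    (hφJ : ∀ h, (∀ i, h ∈ ptIdeal (P i 0) (P i 1) ^ μ i) → φ h = 0) :
    ∃ φ' : MvPolynomial (Fin 2) k →ₗ[k] k, (φ' = 0 → φ = 0) ∧
      (∀ h, h.totalDegree ≤ p ^ e * (c + 3) - 3 → φ' h = 0) ∧
      (∀ h, (∀ i, h ∈ ptIdeal (P i 0) (P i 1) ^ (p ^ e * (μ i + 1) - 1)) → φ' h = 0) := by
  induction e with
  | zero =>
    refine ⟨φ, fun h => h, ?_, ?_⟩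
    · intro h hh
      refine hφd h ?_
      rw [pow_zero, one_mul] at hh
      omega
    · intro h hh
      refine hφJ h fun i => ?_
      have := hh i
      rwa [pow_zero, one_mul, Nat.add_sub_cancel] at this
  | succ e ih =>
    obtain ⟨φ₁, h1, h2, h3⟩ := ih
    have hp : 0 < p ^ e := pow_pos (Fact.out : p.Prime).pos e
    obtain ⟨φ₂, h4, h5, h6⟩ := exists_up p P (p ^ e * (c + 3) - 3)
      (fun i => p ^ e * (μ i + 1) - 1) φ₁ h2 h3
    refine ⟨φ₂, fun h => h1 (h4 h), ?_, ?_⟩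
    · intro h hh
      refine h5 h (le_trans hh (le_of_eq ?_))
      have h7 : 3 ≤ p ^ e * (c + 3) := le_trans (by omega) (Nat.le_mul_of_pos_left (c + 3) hp)
      obtain ⟨m, hm⟩ := Nat.exists_eq_add_of_le h7
      have h8 : p ^ (e + 1) * (c + 3) = p * (p ^ e * (c + 3)) := by ring
      rw [h8, hm, Nat.add_sub_cancel_left]
      congr 1
      ring
    · intro h hh
      refine h6 h fun i => ?_
      have h7 : 1 ≤ p ^ e * (μ i + 1) := le_trans (by omega) (Nat.le_mul_of_pos_left (μ i + 1) hp)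
      obtain ⟨m, hm⟩ := Nat.exists_eq_add_of_le h7
      have h8 : p ^ (e + 1) * (μ i + 1) = p * (p ^ e * (μ i + 1)) := by ring
      have h9 := hh i
      rw [h8, hm] at h9
      show h ∈ ptIdeal (P i 0) (P i 1) ^ (p * (p ^ e * (μ i + 1) - 1) + p - 1)
      rw [hm, Nat.add_sub_cancel_left]
      have h10 : p * m + p - 1 = p * (1 + m) - 1 := by
        congr 1
        ring
      rw [h10]
      exact h9

/-- **Ramanujam vanishing in characteristic `p`**: `N = (c + 3; μ_i + 1)` nef and `N² > 0` suffice.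
Proof. Choose `e` with `p ^ e > Σ (μ_i + 1)`. `q = p ^ e`, `n = q (c + 3)`, `ν_i = q (μ_i + 1)`:
`Σ ν_i (ν_i + 1) = q² Σ (μ_i + 1)² + q Σ (μ_i + 1) < q² ((c + 3)² - 1) + q² ≤ (n + 1) (n + 2)`, so `exists_of_count` gives `F ≠ 0` of
degree `≤ n` with multiplicities `≥ ν_i`. `iterate_up` and `vanish` for the class `q N` (nef: `Σ q (μ_i + 1) ν_i ≤ q (c + 3) δ`; big) give
`φ' = 0`, so `φ = 0`. -/
theorem vanish_p [IsAlgClosed k] (p : ℕ) [Fact p.Prime] [CharP k p] {ι : Type*} [Fintype ι]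
    (P : ι → Fin 2 → k) (hP : Function.Injective P) (c : ℕ) (μ : ι → ℕ)
    (hnef : ∀ (f : MvPolynomial (Fin 2) k) (δ : ℕ) (ν : ι → ℕ), f ≠ 0 → f.totalDegree ≤ δ →
      (∀ i, f ∈ ptIdeal (P i 0) (P i 1) ^ ν i) → ∑ i, (μ i + 1) * ν i ≤ (c + 3) * δ)
    (hbig : ∑ i, (μ i + 1) ^ 2 < (c + 3) ^ 2)
    (φ : MvPolynomial (Fin 2) k →ₗ[k] k) (hφd : ∀ h, h.totalDegree ≤ c → φ h = 0)
    (hφJ : ∀ h, (∀ i, h ∈ ptIdeal (P i 0) (P i 1) ^ μ i) → φ h = 0) : φ = 0 := by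
  have hperf : PerfectRing k p := PerfectField.toPerfectRing p
  have hp1 : 1 < p := (Fact.out : p.Prime).one_lt
  set e : ℕ := ∑ i, (μ i + 1) with he
  have hq : e < p ^ e := Nat.lt_pow_self hp1
  set q : ℕ := p ^ e with hqdef
  have hq0 : 0 < q := by omega
  obtain ⟨F, hF, hFd, hFm⟩ := exists_of_count P (fun i => q * (μ i + 1)) (q * (c + 3)) (by
    have h1 : ∑ i, q * (μ i + 1) * (q * (μ i + 1) + 1) =
        q ^ 2 * ∑ i, (μ i + 1) ^ 2 + q * e := by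
      rw [he, Finset.mul_sum, Finset.mul_sum, ← Finset.sum_add_distrib]
      exact Finset.sum_congr rfl fun i _ => by ring
    rw [h1]
    have h2 : q ^ 2 * (∑ i, (μ i + 1) ^ 2 + 1) ≤ q ^ 2 * (c + 3) ^ 2 := Nat.mul_le_mul_left _ hbig
    have h3 : q * e ≤ q * q := Nat.mul_le_mul_left _ hq.le
    nlinarith)
  obtain ⟨φ', h1, h2, h3⟩ := iterate_up p P e c μ φ hφd hφJ
  apply h1
  have h7 : 3 ≤ q * (c + 3) := le_trans (by omega) (Nat.le_mul_of_pos_left (c + 3) hq0)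
  have h7' : q * (c + 3) - 3 + 3 = q * (c + 3) := Nat.sub_add_cancel h7
  have h8 : ∀ i, q * (μ i + 1) - 1 + 1 = q * (μ i + 1) := fun i =>
    Nat.sub_add_cancel (le_trans (by omega) (Nat.le_mul_of_pos_left (μ i + 1) hq0))
  refine vanish P hP (q * (c + 3) - 3) (fun i => q * (μ i + 1) - 1) ?_ ?_ F hF ?_ ?_ φ' h2 h3
  · intro f δ ν hf hfd hfm
    have h9 := Nat.mul_le_mul_left q (hnef f δ ν hf hfd hfm)
    rw [h7', mul_assoc]
    refine le_trans (le_of_eq ?_) h9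
    rw [Finset.mul_sum]
    exact Finset.sum_congr rfl fun i _ => by rw [h8 i, mul_assoc]
  · rw [h7']
    have h9 := Nat.mul_lt_mul_of_pos_left hbig (pow_pos hq0 2)
    calc ∑ i, (q * (μ i + 1) - 1 + 1) ^ 2 = q ^ 2 * ∑ i, (μ i + 1) ^ 2 := by
          rw [Finset.mul_sum]
          exact Finset.sum_congr rfl fun i _ => by rw [h8 i, mul_pow]
      _ < q ^ 2 * (c + 3) ^ 2 := h9
      _ = (q * (c + 3)) ^ 2 := by ring
  · rw [h7']
    exact hFd
  · intro i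
    show F ∈ ptIdeal (P i 0) (P i 1) ^ (q * (μ i + 1) - 1 + 1)
    rw [h8 i]
    exact hFm i

/-- The dimension (`finrank_of_functional`, `vanish_p`). -/
theorem ram_p [IsAlgClosed k] (p : ℕ) [Fact p.Prime] [CharP k p] {s : ℕ}
    (P : Fin s → Fin 2 → k) (hP : Function.Injective P) (c : ℕ) (μ : Fin s → ℕ)
    (hnef : ∀ (f : MvPolynomial (Fin 2) k) (δ : ℕ) (ν : Fin s → ℕ), f ≠ 0 → f.totalDegree ≤ δ →
      (∀ i, f ∈ ptIdeal (P i 0) (P i 1) ^ ν i) → ∑ i, (μ i + 1) * ν i ≤ (c + 3) * δ)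
    (hbig : ∑ i, (μ i + 1) ^ 2 < (c + 3) ^ 2) :
    Module.finrank k (LS c μ P) + ∑ i, (μ i + 1).choose 2 = (c + 2).choose 2 :=
  finrank_of_functional P hP c μ fun φ h1 h2 => vanish_p p P hP c μ hnef hbig φ h1 h2

end ShghV
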