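import Pool.Agent.ShghV.Defs

/-!
# Total degree in `k[x][y]`
-/

namespace ShghV

open Polynomial

variable {k : Type*} [Field k]

theorem TD_zero (n : ℤ) : TD n (0 : k[X][X]) := by
  intro a b _
  simp

theorem TD.mono {m n : ℤ} (h : m ≤ n) {p : k[X][X]} (hp : TD m p) : TD n p :=
  fun a b hab => hp a b (lt_of_le_of_lt h hab)

theorem TD.add {n : ℤ} {p q : k[X][X]} (hp : TD n p) (hq : TD n q) : TD n (p + q) := by
  intro a b hab
  rw [coeff_add, coeff_add, hp a b hab, hq a b hab, add_zero]

theorem TD.neg {n : ℤ} {p : k[X][X]} (hp : TD n p) : TD n (-p) := by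
  intro a b hab
  rw [coeff_neg, coeff_neg, hp a b hab, neg_zero]

theorem TD.sub {n : ℤ} {p q : k[X][X]} (hp : TD n p) (hq : TD n q) : TD n (p - q) := by
  rw [sub_eq_add_neg]
  exact hp.add hq.neg

theorem TD.sum {ι : Type*} {n : ℤ} (s : Finset ι) (p : ι → k[X][X]) (hp : ∀ i ∈ s, TD n (p i)) :
    TD n (∑ i ∈ s, p i) := by
  classical
  induction s using Finset.induction_on with
  | empty => simpa using TD_zero n
  | insert i s hi ih =>
    rw [Finset.sum_insert hi]
    exact (hp i (Finset.mem_insert_self i s)).add (ih fun j hj => hp j (Finset.mem_insert_of_mem hj))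

/-- The coefficient of `y ^ b` has degree at most `n - b`. -/
theorem TD.coeff_natDegree {n : ℤ} {p : k[X][X]} (hp : TD n p) (b : ℕ) (h : p.coeff b ≠ 0) :
    ((p.coeff b).natDegree : ℤ) + b ≤ n := by
  by_contra hlt
  exact h (leadingCoeff_eq_zero.1 (hp _ b (not_le.1 hlt)))

/-- If `n < 0` then `p = 0`. -/
theorem TD_eq_zero {n : ℤ} (h : n < 0) {p : k[X][X]} (hp : TD n p) : p = 0 := by
  ext b a
  rw [hp a b (by omega)]
  simp

theorem TD.natDegree_le {n : ℤ} (hn : 0 ≤ n) {p : k[X][X]} (hp : TD n p) : (p.natDegree : ℤ) ≤ n := by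
  by_cases h : p = 0
  · simpa [h] using hn
  · have := hp.coeff_natDegree p.natDegree (leadingCoeff_ne_zero.2 h)
    omega

/-- A criterion through the degrees of the coefficients. -/
theorem TD_of_coeff {n : ℤ} {p : k[X][X]}
    (h : ∀ b, p.coeff b ≠ 0 → ((p.coeff b).natDegree : ℤ) + b ≤ n) : TD n p := by
  intro a b hab
  by_cases hb : p.coeff b = 0
  · simp [hb]
  · exact coeff_eq_zero_of_natDegree_lt (by have := h b hb; omega)

/-- The coefficient of `x ^ a y ^ b` in `p q` is a sum of products of coefficients of `x ^ a' y ^ b'` and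
`x ^ a'' y ^ b''` with `a' + a'' = a`, `b' + b'' = b` (`coeff_mul` twice); if `m + n < a + b` then
`m < a' + b'` or `n < a'' + b''`. -/
theorem TD.mul {m n : ℤ} {p q : k[X][X]} (hp : TD m p) (hq : TD n q) : TD (m + n) (p * q) := by
  intro a b hab
  rw [coeff_mul, finsetSum_coeff]
  refine Finset.sum_eq_zero fun x hx => ?_
  rw [coeff_mul]
  refine Finset.sum_eq_zero fun y hy => ?_
  rw [Finset.HasAntidiagonal.mem_antidiagonal] at hx hy
  by_cases h : m < y.1 + x.1
  · rw [hp _ _ h, zero_mul]
  · rw [hq y.2 x.2 (by omega), mul_zero]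

theorem TD_C {n : ℤ} (r : k[X]) (h : (r.natDegree : ℤ) ≤ n) : TD n (C r : k[X][X]) := by
  intro a b hab
  rw [coeff_C]
  split_ifs with hb
  · exact coeff_eq_zero_of_natDegree_lt (by omega)
  · simp

theorem TD_X : TD 1 (X : k[X][X]) := by
  intro a b hab
  rw [coeff_X]
  split_ifs with hb
  · rw [coeff_one, if_neg (by omega)]
  · simp

theorem TD_X_pow (j : ℕ) : TD j (X ^ j : k[X][X]) := by
  intro a b hab
  rw [coeff_X_pow]
  split_ifs with hb
  · rw [coeff_one, if_neg (by omega)]
  · simp

theorem TD_monomial (i j : ℕ) : TD (i + j) (C (X ^ i) * X ^ j : k[X][X]) :=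
  (TD_C _ (by simp)).mul (TD_X_pow j)

/-- Reduction modulo a monic polynomial `f` of total degree `natDegree f` does not increase the total
degree. Proof: strong induction on `natDegree p`. If `natDegree p < natDegree f` then `p %ₘ f = p`
(`modByMonic_eq_self_iff`). Otherwise let `N = natDegree p`, `p' = p - C (leadingCoeff p) * X ^ (N - natDegree f) * f`:
`p' %ₘ f = p %ₘ f`, `TD n p'` (`TD.mul`: the coefficient `leadingCoeff p` has degree `≤ n - N`), and
`p' = 0` or `natDegree p' < N`. (`f = 1` is possible: then `p %ₘ f = 0`.) -/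
theorem TD.modByMonic {n : ℤ} {f p : k[X][X]} (hf : f.Monic) (hfT : TD f.natDegree f)
    (hp : TD n p) : TD n (p %ₘ f) := by
  have key : ∀ N : ℕ, ∀ p : k[X][X], p.natDegree < N → TD n p → TD n (p %ₘ f) := by
    intro N
    induction N with
    | zero => intro p hN; omega
    | succ N ih =>
      intro p hN hp
      by_cases hd : p.degree < f.degree
      · rwa [(modByMonic_eq_self_iff hf).2 hd]
      · by_cases hp0 : p = 0
        · rw [hp0, zero_modByMonic]
          exact TD_zero n
        have hdeg : f.natDegree ≤ p.natDegree :=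
          natDegree_le_natDegree (not_lt.1 hd)
        set q : k[X][X] := C p.leadingCoeff * X ^ (p.natDegree - f.natDegree) with hq
        have hqT : TD (n - f.natDegree) q := by
          have h1 := hp.coeff_natDegree p.natDegree (leadingCoeff_ne_zero.2 hp0)
          have h2 : TD (n - p.natDegree) (C p.leadingCoeff : k[X][X]) :=
            TD_C _ (by rw [leadingCoeff]; omega)
          refine (h2.mul (TD_X_pow (p.natDegree - f.natDegree))).mono ?_
          omega
        have hqf : TD n (q * f) := (hqT.mul hfT).mono (by omega)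
        have h3 : p %ₘ f = (p - q * f) %ₘ f := by
          rw [sub_modByMonic, mul_comm q f, self_mul_modByMonic hf, sub_zero]
        rw [h3]
        by_cases hN0 : p.natDegree = 0
        · -- then `f = 1`
          have hf1 : f = 1 := by
            rw [hN0] at hdeg
            exact hf.natDegree_eq_zero.1 (Nat.le_zero.1 hdeg)
          rw [hf1, modByMonic_one]
          exact TD_zero n
        · refine ih _ ?_ (hp.sub hqf)
          have hlt : (p - q * f).degree < p.degree := by
            refine degree_sub_lt_left ?_ hp0 ?_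
            · rw [hf.degree_mul, hq, degree_C_mul_X_pow _ (leadingCoeff_ne_zero.2 hp0),
                degree_eq_natDegree hp0, degree_eq_natDegree hf.ne_zero]
              norm_cast
              omega
            · rw [leadingCoeff_mul_monic hf, hq, leadingCoeff_mul_X_pow, leadingCoeff_C]
          by_cases h0 : p - q * f = 0
          · rw [h0, natDegree_zero]
            omega
          · have := natDegree_lt_natDegree h0 hlt
            omega
  exact key (p.natDegree + 1) p (by omega) hp

end ShghV
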